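import Mathlib

/-!
A function which is well approximated by affine functions at all scales.
-/

set_option autoImplicit false

namespace Pool.Agent.Helper859.AU

open Filter Topology

theorem camp0 (g : ℝ → ℝ) (c C ρ : ℝ) (hc : 0 < c) (hC : 0 ≤ C) (hρ0 : 0 < ρ) (hρ1 : ρ < 1)
    (h : ∀ j : ℕ, ∃ T : ℝ, ∀ z : ℝ, |z| ≤ c * ρ ^ j → |g z - g 0 - z * T| ≤
      C * (ρ ^ (5 / 3 : ℝ)) ^ j) :
    ∃ T C' : ℝ, 0 < C' ∧ ∀ z : ℝ, |z| ≤ c → |g z - g 0 - z * T| ≤ C' * |z| ^ (5 / 3 : ℝ) := by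
  choose T hT using h
  obtain ⟨γ, hγ⟩ : ∃ γ : ℝ, γ = ρ ^ (2 / 3 : ℝ) := ⟨_, rfl⟩
  obtain ⟨β, hβ⟩ : ∃ β : ℝ, β = ρ ^ (5 / 3 : ℝ) := ⟨_, rfl⟩
  rw [← hβ] at hT
  have hγ0 : 0 < γ := by rw [hγ]; positivity
  have hβ0 : 0 < β := by rw [hβ]; positivity
  have hγ1 : γ < 1 := by rw [hγ]; exact Real.rpow_lt_one hρ0.le hρ1 (by norm_num)
  have hβ1 : β < 1 := by rw [hβ]; exact Real.rpow_lt_one hρ0.le hρ1 (by norm_num)
  have hβγ : β = ρ * γ := by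
    rw [hβ, hγ]
    nth_rewrite 2 [← Real.rpow_one ρ]
    rw [← Real.rpow_add hρ0]
    norm_num
  have hpj : ∀ j : ℕ, 0 < ρ ^ j := fun j => by positivity
  -- successive slopes
  have hstep : ∀ j : ℕ, dist (T j) (T (j + 1)) ≤ (2 * C / (c * ρ)) * γ ^ j := by
    intro j
    obtain ⟨z, hz⟩ : ∃ z : ℝ, z = c * ρ ^ (j + 1) := ⟨_, rfl⟩
    have hz0 : 0 < z := by rw [hz]; positivity
    have hzj : |z| ≤ c * ρ ^ j := by
      rw [abs_of_pos hz0, hz, pow_succ]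
      have := mul_le_mul_of_nonneg_left hρ1.le (mul_pos hc (hpj j)).le
      nlinarith
    have a1 := hT j z hzj
    have a2 := hT (j + 1) z (by rw [abs_of_pos hz0, hz])
    have a3 : β ^ (j + 1) ≤ β ^ j := pow_le_pow_of_le_one hβ0.le hβ1.le (Nat.le_succ j)
    have a4 : |z * (T j - T (j + 1))| ≤ 2 * C * β ^ j := by
      have e : z * (T j - T (j + 1)) = (g z - g 0 - z * T (j + 1)) - (g z - g 0 - z * T j) := by
        ring
      rw [e]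
      refine (abs_sub _ _).trans ?_
      have := mul_le_mul_of_nonneg_left a3 hC
      linarith
    rw [abs_mul, abs_of_pos hz0] at a4
    rw [Real.dist_eq]
    have e2 : (2 * C / (c * ρ)) * γ ^ j = 2 * C * β ^ j / z := by
      rw [hz, hβγ, mul_pow, pow_succ]
      field_simp
    rw [e2, le_div_iff₀ hz0]
    linarith
  have hcau := cauchySeq_of_le_geometric γ (2 * C / (c * ρ)) hγ1 hstep
  obtain ⟨T0, hT0⟩ := cauchySeq_tendsto_of_complete hcau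
  have hlim : ∀ j : ℕ, |T j - T0| ≤ (2 * C / (c * ρ)) * γ ^ j / (1 - γ) := by
    intro j
    have := dist_le_of_le_geometric_of_tendsto γ (2 * C / (c * ρ)) hγ1 hstep hT0 j
    rwa [Real.dist_eq] at this
  obtain ⟨A, hA⟩ : ∃ A : ℝ, A = (2 * C / (c * ρ)) / (1 - γ) := ⟨_, rfl⟩
  have h1γ : 0 < 1 - γ := by linarith
  have hA0 : 0 ≤ A := by rw [hA]; positivity
  have hcρ : 0 < c * ρ := by positivity
  refine ⟨T0, C / (c * ρ) ^ (5 / 3 : ℝ) + A / (c * ρ) ^ (2 / 3 : ℝ) + 1, by positivity, ?_⟩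
  intro z hz
  by_cases hz0 : z = 0
  · subst hz0
    simp
  · have hzp : 0 < |z| := abs_pos.2 hz0
    have hx0 : 0 < |z| / c := by positivity
    have hx1 : |z| / c ≤ 1 := by rw [div_le_one hc]; exact hz
    obtain ⟨j, hj1, hj2⟩ := exists_nat_pow_near_of_lt_one hx0 hx1 hρ0 hρ1
    have hzc : |z| ≤ c * ρ ^ j := by
      rw [div_le_iff₀ hc] at hj2
      linarith
    have hρj : ρ ^ j ≤ |z| / (c * ρ) := by
      rw [le_div_iff₀ hcρ]
      rw [lt_div_iff₀ hc, pow_succ] at hj1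
      nlinarith
    have b1 : β ^ j ≤ |z| ^ (5 / 3 : ℝ) / (c * ρ) ^ (5 / 3 : ℝ) := by
      have e : β ^ j = (ρ ^ j) ^ (5 / 3 : ℝ) := by
        rw [hβ, ← Real.rpow_natCast, ← Real.rpow_natCast, ← Real.rpow_mul hρ0.le,
          ← Real.rpow_mul hρ0.le, mul_comm]
      rw [e, ← Real.div_rpow hzp.le hcρ.le]
      exact Real.rpow_le_rpow (hpj j).le hρj (by norm_num)
    have b2 : γ ^ j ≤ |z| ^ (2 / 3 : ℝ) / (c * ρ) ^ (2 / 3 : ℝ) := by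
      have e : γ ^ j = (ρ ^ j) ^ (2 / 3 : ℝ) := by
        rw [hγ, ← Real.rpow_natCast, ← Real.rpow_natCast, ← Real.rpow_mul hρ0.le,
          ← Real.rpow_mul hρ0.le, mul_comm]
      rw [e, ← Real.div_rpow hzp.le hcρ.le]
      exact Real.rpow_le_rpow (hpj j).le hρj (by norm_num)
    have b3 : |z| * |z| ^ (2 / 3 : ℝ) = |z| ^ (5 / 3 : ℝ) := by
      nth_rewrite 1 [← Real.rpow_one |z|]
      rw [← Real.rpow_add hzp]
      norm_num
    have b4 := hT j z hzc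
    have b5 : |z * (T j - T0)| ≤ |z| * (A * γ ^ j) := by
      rw [abs_mul]
      refine mul_le_mul_of_nonneg_left ((hlim j).trans (le_of_eq ?_)) hzp.le
      rw [hA]
      ring
    have e : g z - g 0 - z * T0 = (g z - g 0 - z * T j) + z * (T j - T0) := by ring
    rw [e]
    refine (abs_add_le _ _).trans ?_
    have b6 : C * β ^ j ≤ C / (c * ρ) ^ (5 / 3 : ℝ) * |z| ^ (5 / 3 : ℝ) := by
      calc C * β ^ j ≤ C * (|z| ^ (5 / 3 : ℝ) / (c * ρ) ^ (5 / 3 : ℝ)) :=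
            mul_le_mul_of_nonneg_left b1 hC
        _ = _ := by ring
    have b7 : |z| * (A * γ ^ j) ≤ A / (c * ρ) ^ (2 / 3 : ℝ) * |z| ^ (5 / 3 : ℝ) := by
      calc |z| * (A * γ ^ j) ≤ |z| * (A * (|z| ^ (2 / 3 : ℝ) / (c * ρ) ^ (2 / 3 : ℝ))) :=
            mul_le_mul_of_nonneg_left (mul_le_mul_of_nonneg_left b2 hA0) hzp.le
        _ = A / (c * ρ) ^ (2 / 3 : ℝ) * (|z| * |z| ^ (2 / 3 : ℝ)) := by ring
        _ = _ := by rw [b3]
    have b8 : 0 ≤ |z| ^ (5 / 3 : ℝ) := by positivity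
    nlinarith

/-- Dyadic form. -/
theorem camp (g : ℝ → ℝ) (c C : ℝ) (hc : 0 < c) (hC : 0 ≤ C)
    (h : ∀ j : ℕ, ∃ T : ℝ, ∀ z : ℝ, |z| ≤ c * ((2:ℝ) ^ j) ^ (-(3 / 4) : ℝ) →
      |g z - g 0 - z * T| ≤ C * ((2:ℝ) ^ j) ^ (-(5 / 4) : ℝ)) :
    ∃ T C' : ℝ, 0 < C' ∧ ∀ z : ℝ, |z| ≤ c → |g z - g 0 - z * T| ≤ C' * |z| ^ (5 / 3 : ℝ) := by
  refine camp0 g c C ((2:ℝ) ^ (-(3 / 4) : ℝ)) hc hC (by positivity)
    (Real.rpow_lt_one_of_one_lt_of_neg (by norm_num) (by norm_num)) ?_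
  intro j
  obtain ⟨T, hT⟩ := h j
  refine ⟨T, fun z hz => ?_⟩
  have e1 : ((2:ℝ) ^ (-(3 / 4) : ℝ)) ^ j = ((2:ℝ) ^ j) ^ (-(3 / 4) : ℝ) := by
    rw [← Real.rpow_natCast, ← Real.rpow_natCast, ← Real.rpow_mul (by norm_num),
      ← Real.rpow_mul (by norm_num), mul_comm]
  have e2 : (((2:ℝ) ^ (-(3 / 4) : ℝ)) ^ (5 / 3 : ℝ)) ^ j = ((2:ℝ) ^ j) ^ (-(5 / 4) : ℝ) := by
    rw [← Real.rpow_natCast, ← Real.rpow_natCast, ← Real.rpow_mul (by positivity),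
      ← Real.rpow_mul (by positivity), ← Real.rpow_mul (by positivity)]
    congr 1
    ring
  rw [e1] at hz
  rw [e2]
  exact hT z hz

end Pool.Agent.Helper859.AU
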