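import Mathlib

/-!
Clusters of the configurations in a box of the square lattice, and their expected number.
-/

set_option autoImplicit false

namespace Pool.Agent.Helper859.AU.KK

open Finset

/-- Vertices of the square lattice. -/
abbrev Vertex := ℤ × ℤ

/-- Edges of the square lattice: `(x, y, true)` joins `(x, y)` and `(x + 1, y)`, and `(x, y, false)`
joins `(x, y)` and `(x, y + 1)`. -/
abbrev Edge := ℤ × ℤ × Bool

/-- First end of an edge. -/
def src (e : Edge) : Vertex := (e.1, e.2.1)

/-- Second end of an edge. -/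
def tgt (e : Edge) : Vertex := if e.2.2 then (e.1 + 1, e.2.1) else (e.1, e.2.1 + 1)

/-- The vertices of the `n × n` box. -/
def Box (n : ℕ) : Type := {v : Vertex // (0 ≤ v.1 ∧ v.1 < n) ∧ (0 ≤ v.2 ∧ v.2 < n)}

/-- The edges of the `n × n` box. -/
noncomputable def edges (n : ℕ) : Finset Edge :=
  (Ico 0 (n:ℤ) ×ˢ (Ico 0 (n:ℤ) ×ˢ univ)).filter (fun e => (tgt e).1 < n ∧ (tgt e).2 < n)

/-- The graph on the vertices of the box with the edges of `F`. -/
def graph (n : ℕ) (F : Finset Edge) : SimpleGraph (Box n) where
  Adj u v := u ≠ v ∧ ∃ e ∈ F, (src e = u.1 ∧ tgt e = v.1) ∨ (src e = v.1 ∧ tgt e = u.1)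
  symm := ⟨fun _ _ h => ⟨h.1.symm, h.2.imp fun _ he => ⟨he.1, he.2.symm⟩⟩⟩
  loopless := ⟨fun _ h => h.1 rfl⟩

/-- The number of clusters of the box if `F` is the set of the open edges. -/
noncomputable def clusters (n : ℕ) (F : Finset Edge) : ℕ :=
  Nat.card (graph n F).ConnectedComponent

/-- The expected number of clusters of the box. -/
noncomputable def meanK (n : ℕ) (p : ℝ) : ℝ :=
  ∑ F ∈ (edges n).powerset, p ^ F.card * (1 - p) ^ ((edges n).card - F.card) * clusters n F

theorem tgt_ne_src (e : Edge) : src e ≠ tgt e := by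
  obtain ⟨x, y, b⟩ := e
  unfold src tgt
  cases b <;> simp

instance (n : ℕ) : Finite (Box n) := by
  have : Finite (Set.Icc (0:ℤ) n ×ˢ Set.Icc (0:ℤ) n : Set (ℤ × ℤ)) := Set.Finite.to_subtype
    ((Set.finite_Icc _ _).prod (Set.finite_Icc _ _))
  refine Finite.of_injective (β := (Set.Icc (0:ℤ) n ×ˢ Set.Icc (0:ℤ) n : Set (ℤ × ℤ)))
    (fun v => ⟨v.1, by
      obtain ⟨⟨x, y⟩, h⟩ := v
      simp only at h ⊢
      exact ⟨⟨h.1.1, h.1.2.le⟩, ⟨h.2.1, h.2.2.le⟩⟩⟩) ?_
  intro u v h
  have h2 := Subtype.ext_iff.1 h
  exact Subtype.ext h2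

/-- Components of a graph and of the graph with one more edge. -/
theorem card_comp {V : Type*} [Finite V] (G G' : SimpleGraph V) (a b : V)
    (h : ∀ x y, G'.Reachable x y ↔ (G.Reachable x y ∨ (G.Reachable x a ∧ G.Reachable b y) ∨
      (G.Reachable x b ∧ G.Reachable a y))) (hle : G ≤ G') (hn : ¬ G.Reachable a b) :
    Nat.card G'.ConnectedComponent + 1 = Nat.card G.ConnectedComponent := by
  classical
  let φ : G.ConnectedComponent → Option G'.ConnectedComponent := fun c =>
    if c = G.connectedComponentMk b then none else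
      some (c.map (SimpleGraph.Hom.ofLE hle))
  have hφ : Function.Bijective φ := by
    constructor
    · intro c d hcd
      simp only [φ] at hcd
      split_ifs at hcd with h1 h2 h2
      · rw [h1, h2]
      · have h3 := Option.some.inj hcd
        induction c using SimpleGraph.ConnectedComponent.ind with | _ c =>
        induction d using SimpleGraph.ConnectedComponent.ind with | _ d =>
        rw [SimpleGraph.ConnectedComponent.map_mk, SimpleGraph.ConnectedComponent.map_mk,
          SimpleGraph.ConnectedComponent.eq] at h3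
        have h3' : G'.Reachable c d := h3
        rw [h] at h3'
        rw [SimpleGraph.ConnectedComponent.eq] at h1 h2 ⊢
        rcases h3' with h4 | ⟨h4, h5⟩ | ⟨h4, h5⟩
        · exact h4
        · exact absurd h5.symm h2
        · exact absurd h4 h1
    · intro o
      cases o with
      | none => exact ⟨G.connectedComponentMk b, by simp [φ]⟩
      | some c' =>
        induction c' using SimpleGraph.ConnectedComponent.ind with | _ v =>
        by_cases hv : G.Reachable v b
        · refine ⟨G.connectedComponentMk a, ?_⟩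
          have h1 : G.connectedComponentMk a ≠ G.connectedComponentMk b := by
            rw [Ne, SimpleGraph.ConnectedComponent.eq]; exact hn
          simp only [φ, h1, if_false, SimpleGraph.ConnectedComponent.map_mk, Option.some.injEq]
          rw [SimpleGraph.ConnectedComponent.eq]
          change G'.Reachable a v
          rw [h]
          exact Or.inr (Or.inl ⟨SimpleGraph.Reachable.refl _, hv.symm⟩)
        · refine ⟨G.connectedComponentMk v, ?_⟩
          have h1 : G.connectedComponentMk v ≠ G.connectedComponentMk b := by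
            rw [Ne, SimpleGraph.ConnectedComponent.eq]; exact hv
          simp only [φ, h1, if_false, SimpleGraph.ConnectedComponent.map_mk, Option.some.injEq]
          rfl
  rw [Nat.card_congr (Equiv.ofBijective φ hφ), Finite.card_option]

theorem edge_ends {n : ℕ} {e : Edge} (he : e ∈ edges n) :
    ((0 ≤ (src e).1 ∧ (src e).1 < n) ∧ (0 ≤ (src e).2 ∧ (src e).2 < n)) ∧
    ((0 ≤ (tgt e).1 ∧ (tgt e).1 < n) ∧ (0 ≤ (tgt e).2 ∧ (tgt e).2 < n)) := by
  obtain ⟨x, y, b⟩ := e
  unfold edges at he
  rw [mem_filter, mem_product, mem_product, mem_Ico, mem_Ico] at he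
  unfold src tgt at *
  simp only at he ⊢
  cases b <;> simp only [Bool.false_eq_true, if_true, if_false] at he ⊢ <;> omega

theorem graph_mono {n : ℕ} {F G : Finset Edge} (h : F ⊆ G) : graph n F ≤ graph n G := by
  intro u v huv
  exact ⟨huv.1, huv.2.imp fun e he => ⟨h he.1, he.2⟩⟩

/-- Reachability after adding an edge. -/
theorem reach_insert {n : ℕ} {F : Finset Edge} {e : Edge} (a b : Box n) (ha : src e = a.1)
    (hb : tgt e = b.1) (x y : Box n) :
    (graph n (insert e F)).Reachable x y ↔ ((graph n F).Reachable x y ∨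
      ((graph n F).Reachable x a ∧ (graph n F).Reachable b y) ∨
      ((graph n F).Reachable x b ∧ (graph n F).Reachable a y)) := by
  constructor
  · intro h
    rw [SimpleGraph.reachable_iff_reflTransGen] at h
    induction h with
    | refl => exact Or.inl (SimpleGraph.Reachable.refl _)
    | @tail c d _ hs ih =>
      obtain ⟨hne, g, hg, hc⟩ := hs
      rcases Finset.mem_insert.1 hg with h1 | h1
      · subst h1
        have hcd : (c = a ∧ d = b) ∨ (c = b ∧ d = a) := by
          rcases hc with ⟨h2, h3⟩ | ⟨h2, h3⟩
          · left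
            exact ⟨Subtype.ext (h2.symm.trans ha), Subtype.ext (h3.symm.trans hb)⟩
          · right
            exact ⟨Subtype.ext (h3.symm.trans hb), Subtype.ext (h2.symm.trans ha)⟩
        rcases hcd with ⟨rfl, rfl⟩ | ⟨rfl, rfl⟩
        · rcases ih with hc | ⟨h2, h3⟩ | ⟨h2, h3⟩
          · exact Or.inr (Or.inl ⟨hc, SimpleGraph.Reachable.refl _⟩)
          · exact Or.inr (Or.inl ⟨h2, SimpleGraph.Reachable.refl _⟩)
          · exact Or.inl h2
        · rcases ih with hc | ⟨h2, h3⟩ | ⟨h2, h3⟩
          · exact Or.inr (Or.inr ⟨hc, SimpleGraph.Reachable.refl _⟩)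
          · exact Or.inl h2
          · exact Or.inr (Or.inr ⟨h2, SimpleGraph.Reachable.refl _⟩)
      · have he : (graph n F).Reachable c d :=
          SimpleGraph.Adj.reachable (show (graph n F).Adj c d from ⟨hne, g, h1, hc⟩)
        rcases ih with hc | ⟨h2, h3⟩ | ⟨h2, h3⟩
        · exact Or.inl (hc.trans he)
        · exact Or.inr (Or.inl ⟨h2, h3.trans he⟩)
        · exact Or.inr (Or.inr ⟨h2, h3.trans he⟩)
  · have hab : (graph n (insert e F)).Reachable a b := by
      apply SimpleGraph.Adj.reachable
      refine ⟨?_, e, Finset.mem_insert_self _ _, Or.inl ⟨ha, hb⟩⟩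
      rintro rfl
      exact tgt_ne_src e (ha.trans hb.symm)
    have hsub : graph n F ≤ graph n (insert e F) := graph_mono (Finset.subset_insert _ _)
    rintro (h | ⟨h1, h2⟩ | ⟨h1, h2⟩)
    · exact h.mono hsub
    · exact ((h1.mono hsub).trans hab).trans (h2.mono hsub)
    · exact ((h1.mono hsub).trans hab.symm).trans (h2.mono hsub)

theorem clusters_insert_reach {n : ℕ} {F : Finset Edge} {e : Edge} (a b : Box n)
    (ha : src e = a.1) (hb : tgt e = b.1) (h : (graph n F).Reachable a b) :
    clusters n (insert e F) = clusters n F := by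
  unfold clusters
  have hiff : ∀ x y, (graph n (insert e F)).Reachable x y ↔ (graph n F).Reachable x y := by
    intro x y
    rw [reach_insert a b ha hb]
    constructor
    · rintro (h1 | ⟨h1, h2⟩ | ⟨h1, h2⟩)
      · exact h1
      · exact (h1.trans h).trans h2
      · exact (h1.trans h.symm).trans h2
    · intro h1; exact Or.inl h1
  apply Nat.card_congr
  exact Quot.congr (Equiv.refl _) (fun x y => hiff x y)

theorem clusters_insert_not {n : ℕ} {F : Finset Edge} {e : Edge} (a b : Box n)
    (ha : src e = a.1) (hb : tgt e = b.1) (h : ¬ (graph n F).Reachable a b) :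
    clusters n (insert e F) + 1 = clusters n F :=
  card_comp (graph n F) (graph n (insert e F)) a b (reach_insert a b ha hb)
    (graph_mono (Finset.subset_insert _ _)) h

theorem clusters_empty (n : ℕ) : clusters n ∅ = n ^ 2 := by
  classical
  unfold clusters
  have hadj : ∀ u v, ¬ (graph n ∅).Adj u v := by
    rintro u v ⟨_, e, he, _⟩
    exact absurd he (Finset.notMem_empty e)
  have hbij : Function.Bijective (graph n ∅).connectedComponentMk := by
    constructor
    · intro u v h
      rw [SimpleGraph.ConnectedComponent.eq, SimpleGraph.reachable_iff_reflTransGen] at h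
      induction h with
      | refl => rfl
      | tail _ hs _ => exact absurd hs (hadj _ _)
    · intro c
      induction c using SimpleGraph.ConnectedComponent.ind with | _ v =>
      exact ⟨v, rfl⟩
  rw [← Nat.card_congr (Equiv.ofBijective _ hbij)]
  have e : Box n ≃ (Ico (0:ℤ) n ×ˢ Ico (0:ℤ) n : Finset (ℤ × ℤ)) := by
    refine Equiv.subtypeEquivRight ?_
    intro v
    rw [Finset.mem_product, Finset.mem_Ico, Finset.mem_Ico]
  rw [Nat.card_congr e, Nat.card_eq_fintype_card, Fintype.card_coe, Finset.card_product,
    Int.card_Ico]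
  simp [sq]

end Pool.Agent.Helper859.AU.KK
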