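import Pool.Agent.Y381.SN.AF4
import Pool.Agent.Y239.NE.Out
import Pool.Agent.H974R2.Piv

/-!
Clusters per vertex: the event that the ends of an edge are connected off the edge, its pivotal
edges, and the four arms which they need in an annulus.
-/

set_option autoImplicit false

namespace Pool.Agent.Helper859.AU

open H974 H12S H389NS Finset Pool.Agent.Y554.SN Pool.Agent.Y554.NE

/-- The ends of `e0 b` are connected in the box of radius `N` off `e0 b`. -/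
def XN (b : Bool) (N : ℕ) (F : Set Edg) : Prop :=
  Reach ((F ∩ ↑(boxE N)) \ {e0 b}) (src (e0 b)) (tgt (e0 b))

/-- The edge `f` is pivotal for `XN b N`. -/
def Px (b : Bool) (N : ℕ) (f : Edg) (F : Set Edg) : Prop :=
  XN b N (insert f F) ∧ ¬ XN b N (F \ {f})

/-- Every edge of `S` except `e0 b` is pivotal for some choice of the configuration in `S`. -/
def Qx (b : Bool) (N : ℕ) (S F : Finset Edg) : Prop :=
  ∀ f ∈ S, f ≠ e0 b → ∃ T ⊆ S, Px b N f (↑((F \ S) ∪ T) : Set Edg)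

theorem XN_mono {b : Bool} {N : ℕ} {F G : Set Edg} (h : F ⊆ G) (hF : XN b N F) : XN b N G := by
  unfold XN at hF ⊢
  refine hF.mono ?_
  rintro g ⟨⟨h1, h2⟩, h3⟩
  exact ⟨⟨h h1, h2⟩, h3⟩

/-- Crossing of an annulus by a long path. -/
theorem crossing {G : Set Edg} {c : ℤ × ℤ} {r D : ℕ} (hrD : r ≤ D) {a v : Vtx}
    (ha : inR (c.1 - r) (c.1 + r) (c.2 - r) (c.2 + r) a)
    (hv : v.1 ≤ c.1 - D ∨ c.1 + D ≤ v.1 ∨ v.2 ≤ c.2 - D ∨ c.2 + D ≤ v.2) (h : Reach G a v) :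
    ∃ u ∈ bdB c r, Reach G a u ∧ ∃ w ∈ bdB c D, Reach (G ∩ ↑(blk c D \ blk c r)) u w := by
  have ha' : inR (c.1 - D) (c.1 + D) (c.2 - D) (c.2 + D) a := by
    unfold inR at ha ⊢
    omega
  obtain ⟨w, w1, w2, w3⟩ := first_exit ha' h hv
  have hw : ¬ inR (c.1 - r) (c.1 + r) (c.2 - r) (c.2 + r) w ∨
      (w.1 = c.1 - r ∨ w.1 = c.1 + r ∨ w.2 = c.2 - r ∨ w.2 = c.2 + r) := by
    by_cases hin : inR (c.1 - r) (c.1 + r) (c.2 - r) (c.2 + r) w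
    · right
      unfold inR at hin
      omega
    · exact Or.inl hin
  obtain ⟨u, u1, u2, u3⟩ := first_entry hw w3.symm ha
  have hsub : (G ∩ ↑(RE (c.1 - D) (c.1 + D) (c.2 - D) (c.2 + D))) \
      ↑(RE (c.1 - r) (c.1 + r) (c.2 - r) (c.2 + r)) ⊆ G ∩ ↑(blk c D \ blk c r) := by
    rintro e ⟨⟨e1, e2⟩, e3⟩
    refine ⟨e1, ?_⟩
    rw [mem_coe, mem_sdiff]
    exact ⟨mem_coe.1 e2, fun h => e3 (mem_coe.2 h)⟩
  refine ⟨u, S4C_bdB_of u1 u2, ?_, w, S4C_bdB_of w1 w2, (u3.symm.mono hsub)⟩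
  refine (w3.mono Set.inter_subset_left).trans (u3.mono ?_)
  exact fun _ h => h.1.1

/-- Two long paths in different clusters. -/
theorem two_cross {G : Set Edg} {c : ℤ × ℤ} {r D : ℕ} (hrD : r ≤ D) {a v a' v' : Vtx}
    (ha : inR (c.1 - r) (c.1 + r) (c.2 - r) (c.2 + r) a)
    (hv : v.1 ≤ c.1 - D ∨ c.1 + D ≤ v.1 ∨ v.2 ≤ c.2 - D ∨ c.2 + D ≤ v.2) (h : Reach G a v)
    (ha' : inR (c.1 - r) (c.1 + r) (c.2 - r) (c.2 + r) a')
    (hv' : v'.1 ≤ c.1 - D ∨ c.1 + D ≤ v'.1 ∨ v'.2 ≤ c.2 - D ∨ c.2 + D ≤ v'.2)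
    (h' : Reach G a' v') (hn : ¬ Reach G a a') : A4a c r D G := by
  obtain ⟨u, u1, u2, w, w1, w2⟩ := crossing hrD ha hv h
  obtain ⟨u', u1', u2', w', w1', w2'⟩ := crossing hrD ha' hv' h'
  refine ⟨u, u1, u', u1', ⟨w, w1, w2⟩, ⟨w', w1', w2'⟩, fun hc => hn ?_⟩
  exact u2.trans ((hc.mono Set.inter_subset_left).trans u2'.symm)

/-- The ends of an edge outside a block. -/
theorem far_ends {c : ℤ × ℤ} {D : ℕ} {g : Edg} (hg : g ∉ blk c D) :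
    ((src g).1 ≤ c.1 - D ∨ c.1 + D ≤ (src g).1 ∨ (src g).2 ≤ c.2 - D ∨ c.2 + D ≤ (src g).2) ∧
    ((tgt g).1 ≤ c.1 - D ∨ c.1 + D ≤ (tgt g).1 ∨ (tgt g).2 ≤ c.2 - D ∨ c.2 + D ≤ (tgt g).2) := by
  unfold blk at hg
  obtain ⟨x, y, _ | _⟩ := g
  · rw [mem_RE_false] at hg
    simp only [src_mk, tgt_false]
    omega
  · rw [mem_RE_true] at hg
    simp only [src_mk, tgt_true]
    omega

theorem A4a_congr {c : ℤ × ℤ} {r D : ℕ} {F G : Set Edg}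
    (h : F ∩ ↑(blk c D \ blk c r) = G ∩ ↑(blk c D \ blk c r)) :
    A4a c r D F ↔ A4a c r D G := by
  unfold A4a
  rw [h]

/-- **Four arms in an annulus which separates the set.** -/
theorem det {b : Bool} {N : ℕ} {S F : Finset Edg} {c : ℤ × ℤ} {r D : ℕ} (hrD : r ≤ D)
    (hN : blk c D ⊆ boxE N) (hQ : Qx b N S F) (he : e0 b ∈ S)
    (hemp : ∀ g ∈ S, g ∉ blk c D \ blk c r) (hin : ∃ g ∈ S, g ∈ blk c r)
    (hout : ∃ g ∈ S, g ∉ blk c D) : A4a c r D (↑F : Set Edg) := by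
  have hsubb : blk c r ⊆ blk c D := by
    unfold blk
    exact RE_subset (by omega) (by omega) (by omega) (by omega)
  -- the configuration off a pivotal edge
  have main : ∀ f ∈ S, f ≠ e0 b → ∃ H : Set Edg, ∃ f1 f2 : Vtx,
      H ∩ ↑(blk c D \ blk c r) = (↑F : Set Edg) ∩ ↑(blk c D \ blk c r) ∧
      ((f1 = src f ∧ f2 = tgt f) ∨ (f1 = tgt f ∧ f2 = src f)) ∧
      Reach H (src (e0 b)) f1 ∧ Reach H f2 (tgt (e0 b)) ∧
      ¬ Reach H (src (e0 b)) (tgt (e0 b)) := by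
    intro f hf hfe
    obtain ⟨T, hT, hp1, hp2⟩ := hQ f hf hfe
    unfold XN at hp1 hp2
    set C : Set Edg := (↑((F \ S) ∪ T) : Set Edg) with hC
    refine ⟨((C \ {f}) ∩ ↑(boxE N)) \ {e0 b}, ?_⟩
    have hH : ((C \ {f}) ∩ ↑(boxE N)) \ {e0 b} ∩ ↑(blk c D \ blk c r) =
        (↑F : Set Edg) ∩ ↑(blk c D \ blk c r) := by
      ext g
      simp only [hC, Set.mem_inter_iff, Set.mem_sdiff, Set.mem_singleton_iff, mem_coe,
        Finset.mem_union, Finset.mem_sdiff]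
      constructor
      · rintro ⟨⟨⟨⟨h1 | h1, h2⟩, h3⟩, h4⟩, h5⟩
        · exact ⟨h1.1, h5⟩
        · exact absurd (mem_sdiff.2 h5) (hemp g (hT h1))
      · rintro ⟨h1, h5⟩
        have hgS : g ∉ S := fun h => hemp g h (mem_sdiff.2 h5)
        refine ⟨⟨⟨⟨Or.inl ⟨h1, hgS⟩, ?_⟩, hN h5.1⟩, ?_⟩, h5⟩
        · rintro rfl
          exact hgS hf
        · rintro rfl
          exact hgS he
    have hsub : (insert f C ∩ ↑(boxE N)) \ {e0 b} ⊆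
        insert f (((C \ {f}) ∩ ↑(boxE N)) \ {e0 b}) := by
      rintro g ⟨⟨h1 | h1, h2⟩, h3⟩
      · exact Or.inl h1
      · by_cases hgf : g = f
        · exact Or.inl hgf
        · exact Or.inr ⟨⟨⟨h1, hgf⟩, h2⟩, h3⟩
    have hm : (((C \ {f}) ∩ ↑(boxE N)) \ {e0 b}) \ {f} ⊆ ((C \ {f}) ∩ ↑(boxE N)) \ {e0 b} :=
      Set.sdiff_subset
    rcases reach_insert (hp1.mono hsub) with h | ⟨h, h'⟩ | ⟨h, h'⟩
    · exact absurd (h.mono hm) hp2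
    · exact ⟨src f, tgt f, hH, Or.inl ⟨rfl, rfl⟩, h.mono hm, h'.mono hm, hp2⟩
    · exact ⟨tgt f, src f, hH, Or.inr ⟨rfl, rfl⟩, h.mono hm, h'.mono hm, hp2⟩
  by_cases hcase : e0 b ∈ blk c r
  · obtain ⟨f, hf, hfD⟩ := hout
    have hfe : f ≠ e0 b := by
      rintro rfl
      exact hfD (hsubb hcase)
    obtain ⟨H, f1, f2, hH, hff, h1, h2, h3⟩ := main f hf hfe
    obtain ⟨k1, k2⟩ := far_ends hfD
    obtain ⟨k3, k4⟩ := ends_RE hcase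
    have k5 : (f1.1 ≤ c.1 - D ∨ c.1 + D ≤ f1.1 ∨ f1.2 ≤ c.2 - D ∨ c.2 + D ≤ f1.2) ∧
        (f2.1 ≤ c.1 - D ∨ c.1 + D ≤ f2.1 ∨ f2.2 ≤ c.2 - D ∨ c.2 + D ≤ f2.2) := by
      rcases hff with ⟨e1, e2⟩ | ⟨e1, e2⟩
      · rw [e1, e2]; exact ⟨k1, k2⟩
      · rw [e1, e2]; exact ⟨k2, k1⟩
    exact (A4a_congr hH).1 (two_cross hrD k3 k5.1 h1 k4 k5.2 h2.symm h3)
  · have heD : e0 b ∉ blk c D := fun h => hemp _ he (mem_sdiff.2 ⟨h, hcase⟩)
    obtain ⟨f, hf, hfr⟩ := hin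
    have hfe : f ≠ e0 b := by
      rintro rfl
      exact hcase hfr
    obtain ⟨H, f1, f2, hH, hff, h1, h2, h3⟩ := main f hf hfe
    obtain ⟨k1, k2⟩ := far_ends heD
    obtain ⟨k3, k4⟩ := ends_RE hfr
    have k5 : inR (c.1 - r) (c.1 + r) (c.2 - r) (c.2 + r) f1 ∧
        inR (c.1 - r) (c.1 + r) (c.2 - r) (c.2 + r) f2 := by
      rcases hff with ⟨e1, e2⟩ | ⟨e1, e2⟩
      · rw [e1, e2]; exact ⟨k3, k4⟩
      · rw [e1, e2]; exact ⟨k4, k3⟩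
    refine (A4a_congr hH).1 (two_cross hrD k5.1 k1 h1.symm k5.2 k2 h2 fun hc => h3 ?_)
    exact h1.trans (hc.trans h2)

end Pool.Agent.Helper859.AU
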