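import Pool.Agent.Helper859_AU.Det
import Pool.Agent.Y554.NE.Merge
import Pool.Agent.Y968.NE.Key

/-!
The bound for the probability that all the edges of a set are pivotal, by growth of clusters.
-/

set_option autoImplicit false

namespace Pool.Agent.Helper859.AU

open H974 H12S H389NS Finset Pool.Agent.Y554.SN Pool.Agent.Y554.NE
open Pool.Agent.Y239.NE.Dec Pool.Agent.Y239.NE.Out

/-- the weight of a scale -/
noncomputable def ps (s : ℕ) : ℝ := ((max 1 s : ℕ) : ℝ) ^ (-(5 / 4) : ℝ)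

theorem ps_pos (s : ℕ) : 0 < ps s := by
  unfold ps
  have : (0:ℝ) < ((max 1 s : ℕ) : ℝ) := by exact_mod_cast (by omega : 0 < max 1 s)
  positivity

theorem ps_anti {s s' : ℕ} (h : s ≤ s') : ps s' ≤ ps s := by
  unfold ps
  have h0 : (0:ℝ) < ((max 1 s : ℕ) : ℝ) := by exact_mod_cast (by omega : 0 < max 1 s)
  exact Real.rpow_le_rpow_of_nonpos h0 (by exact_mod_cast (by omega : max 1 s ≤ max 1 s'))
    (by norm_num)

theorem ps_zero : ps 0 = 1 := by
  unfold ps
  simp

theorem ps_le_one (s : ℕ) : ps s ≤ 1 := by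
  rw [← ps_zero]
  exact ps_anti (Nat.zero_le s)

theorem ps_cmp {s s' M : ℕ} (hM : 1 ≤ M) (h : s' ≤ M * max 1 s) :
    ps s ≤ (M:ℝ) ^ 2 * ps s' := by
  unfold ps
  have h0 : (0:ℝ) < ((max 1 s : ℕ) : ℝ) := by exact_mod_cast (by omega : 0 < max 1 s)
  have h0' : (0:ℝ) < ((max 1 s' : ℕ) : ℝ) := by exact_mod_cast (by omega : 0 < max 1 s')
  have hMr : (1:ℝ) ≤ M := by exact_mod_cast hM
  have h1 : ((max 1 s' : ℕ) : ℝ) ≤ M * ((max 1 s : ℕ) : ℝ) := by
    have : max 1 s' ≤ M * max 1 s := by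
      apply max_le _ h
      have : 1 ≤ max 1 s := le_max_left _ _
      nlinarith
    exact_mod_cast this
  have h2 : ((max 1 s' : ℕ) : ℝ) ^ (5 / 4 : ℝ) ≤ (M:ℝ) ^ 2 * ((max 1 s : ℕ) : ℝ) ^ (5 / 4 : ℝ) := by
    calc ((max 1 s' : ℕ) : ℝ) ^ (5 / 4 : ℝ) ≤ (M * ((max 1 s : ℕ) : ℝ)) ^ (5 / 4 : ℝ) :=
          Real.rpow_le_rpow h0'.le h1 (by norm_num)
      _ = (M:ℝ) ^ (5 / 4 : ℝ) * ((max 1 s : ℕ) : ℝ) ^ (5 / 4 : ℝ) :=
          Real.mul_rpow (by linarith) h0.le
      _ ≤ (M:ℝ) ^ (2 : ℝ) * ((max 1 s : ℕ) : ℝ) ^ (5 / 4 : ℝ) := by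
          apply mul_le_mul_of_nonneg_right _ (by positivity)
          exact Real.rpow_le_rpow_of_exponent_le hMr (by norm_num)
      _ = _ := by rw [Real.rpow_two]
  rw [Real.rpow_neg h0.le, Real.rpow_neg h0'.le]
  have a1 : 0 < ((max 1 s : ℕ) : ℝ) ^ (5 / 4 : ℝ) := by positivity
  have a2 : 0 < ((max 1 s' : ℕ) : ℝ) ^ (5 / 4 : ℝ) := by positivity
  rw [inv_le_iff_one_le_mul₀ a1, mul_assoc, mul_comm (((max 1 s' : ℕ) : ℝ) ^ (5 / 4 : ℝ))⁻¹,
    ← mul_assoc, ← div_eq_mul_inv, le_div_iff₀ a2, one_mul]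
  linarith

theorem ps_ratio {r D : ℕ} (hr : 1 ≤ r) (hrD : r ≤ D) :
    ps r * ((r:ℝ) / D) ^ (5 / 4 : ℝ) = ps D := by
  unfold ps
  rw [max_eq_right hr, max_eq_right (hr.trans hrD)]
  have h0 : (0:ℝ) < r := by exact_mod_cast hr
  have h1 : (0:ℝ) < D := by exact_mod_cast hr.trans hrD
  rw [Real.div_rpow h0.le h1.le, Real.rpow_neg h0.le, Real.rpow_neg h1.le]
  have : 0 < (r:ℝ) ^ (5 / 4 : ℝ) := by positivity
  field_simp

/-- There are a local event and a tree on `S` with root `x`. If `st = true` the event holds for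
the sets `S'` larger than `S` only. -/
def Good (b : Bool) (N m : ℕ) (st : Bool) (t τ s : ℕ) (a : ℝ) (k : ℕ) (S : Finset Edg)
    (x : Edg) : Prop :=
  ∃ (Ev : Finset Edg → Prop) (par : Edg → Edg) (rk : Edg → ℕ),
    (∀ F F' : Finset Edg, F ∩ (nb S (t / 2) \ S) = F' ∩ (nb S (t / 2) \ S) → (Ev F ↔ Ev F')) ∧
    (∀ S' : Finset Edg, S ⊆ S' → (st = true → S ≠ S') → e0 b ∈ S' → S' ⊆ boxE m →
      (∀ v ∈ S, ∀ w ∈ S' \ S, t < ds v w) →
      ∀ F : Finset Edg, F ⊆ boxE N → Qx b N S' F → Ev F) ∧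
    (∀ y ∈ S, y ≠ x → par y ∈ S ∧ rk (par y) < rk y ∧ ds y (par y) ≤ τ) ∧
    PQ (1 / 2) (boxE N) Ev ≤
      a ^ k * (∏ y ∈ S.erase x, ps (ds y (par y))) * ps s

theorem good_mono {b : Bool} {N m : ℕ} {st : Bool} {t τ τ' s : ℕ} {a : ℝ} {k k' : ℕ}
    {S : Finset Edg} {x : Edg} (h : Good b N m st t τ s a k S x) (hτ : τ ≤ τ') (hk : k ≤ k')
    (ha : 1 ≤ a) : Good b N m st t τ' s a k' S x := by
  obtain ⟨Ev, par, rk, h1, h2, h3, h4⟩ := h
  refine ⟨Ev, par, rk, h1, h2, fun y hy hx => ?_, h4.trans ?_⟩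
  · obtain ⟨e1, e2, e3⟩ := h3 y hy hx
    exact ⟨e1, e2, e3.trans hτ⟩
  · refine mul_le_mul_of_nonneg_right ?_ (ps_pos _).le
    refine mul_le_mul_of_nonneg_right ?_ (Finset.prod_nonneg fun _ _ => (ps_pos _).le)
    exact pow_le_pow_right₀ ha hk

theorem start {b : Bool} {N m : ℕ} {st : Bool} {a : ℝ} {t k : ℕ} {R : Finset Edg} {x : Edg}
    (ha : 4 ≤ a) (h : Good b N m st t (t + 1) (max t (dm R)) a k R x) :
    Good b N m st t (t + 1) (max (t + 1) (dm R)) a (k + 1) R x := by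
  obtain ⟨Ev, par, rk, h1, h2, h3, h4⟩ := h
  refine ⟨Ev, par, rk, h1, h2, h3, h4.trans ?_⟩
  have h5 : ps (max t (dm R)) ≤ ((2:ℕ):ℝ) ^ 2 * ps (max (t + 1) (dm R)) :=
    ps_cmp (by norm_num) (by omega)
  have h6 : 0 ≤ a ^ k * ∏ y ∈ R.erase x, ps (ds y (par y)) :=
    mul_nonneg (pow_nonneg (by linarith) _) (Finset.prod_nonneg (fun y _ => (ps_pos _).le))
  have h7 := (ps_pos (max (t + 1) (dm R))).le
  have h8 : ((2:ℕ):ℝ) ^ 2 * ps (max (t + 1) (dm R)) ≤ a * ps (max (t + 1) (dm R)) := by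
    apply mul_le_mul_of_nonneg_right _ h7
    norm_num
    linarith
  calc a ^ k * (∏ y ∈ R.erase x, ps (ds y (par y))) * ps (max t (dm R)) ≤
        a ^ k * (∏ y ∈ R.erase x, ps (ds y (par y))) *
          (a * ps (max (t + 1) (dm R))) := mul_le_mul_of_nonneg_left (h5.trans h8) h6
    _ = _ := by rw [pow_succ]; ring

/-- the comparison of the products of the weights -/
theorem merge_ps {t : ℕ} {U R : Finset Edg} {b u : Edg} (hu : u ∈ U) (hb : b ∈ R)
    (hbu : ds b u ≤ t + 1) :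
    ps (max (t + 1) (dm U)) * ps (max t (dm R)) ≤
      36 * (ps (ds b u) * ps (max (t + 1) (dm (U ∪ R)))) := by
  have h1 := dm_union hu hb hbu
  obtain ⟨A, hA⟩ : ∃ A, A = max (t + 1) (dm U) := ⟨_, rfl⟩
  obtain ⟨B, hB⟩ : ∃ B, B = max t (dm R) := ⟨_, rfl⟩
  obtain ⟨M', hM'⟩ : ∃ M', M' = max (t + 1) (dm (U ∪ R)) := ⟨_, rfl⟩
  rw [← hA, ← hB, ← hM']
  have p1 := ps_pos (ds b u)
  have p2 := ps_pos M'
  have p3 := ps_pos A
  have p4 := ps_pos B
  rcases le_total B A with hc | hc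
  · have e1 : ps A ≤ ((3:ℕ):ℝ) ^ 2 * ps M' := ps_cmp (by norm_num) (by omega)
    have e2 : ps B ≤ ((2:ℕ):ℝ) ^ 2 * ps (ds b u) := ps_cmp (by norm_num) (by omega)
    push_cast at e1 e2
    calc ps A * ps B ≤ (3 ^ 2 * ps M') * (2 ^ 2 * ps (ds b u)) :=
          mul_le_mul e1 e2 p4.le (by positivity)
      _ = _ := by ring
  · have e1 : ps B ≤ ((3:ℕ):ℝ) ^ 2 * ps M' := ps_cmp (by norm_num) (by omega)
    have e2 : ps A ≤ ps (ds b u) := ps_anti (by omega)
    push_cast at e1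
    calc ps A * ps B ≤ ps (ds b u) * (3 ^ 2 * ps M') :=
          mul_le_mul e2 e1 p4.le (by positivity)
      _ = 9 * (ps (ds b u) * ps M') := by ring
      _ ≤ _ := by nlinarith [mul_pos p1 p2]

theorem merge {b : Bool} {N m : ℕ} {st : Bool} {a : ℝ} {t k k' : ℕ} {U R : Finset Edg}
    {x v u : Edg} (ha : 36 ≤ a) (hx : x ∈ U) (hu : u ∈ U) (hv : v ∈ R)
    (hvu : ds v u ≤ t + 1) (hfar : ∀ y ∈ U, ∀ w ∈ R, t < ds y w)
    (hU : Good b N m st t (t + 1) (max (t + 1) (dm U)) a k U x)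
    (hR : Good b N m true t (t + 1) (max t (dm R)) a k' R v) :
    Good b N m false t (t + 1) (max (t + 1) (dm (U ∪ R))) a (k + k' + 1) (U ∪ R) x := by
  classical
  obtain ⟨EU, pU, rU, u1, u2, u3, u4⟩ := hU
  obtain ⟨ER, pR, rR, w1, w2, w3, w4⟩ := hR
  have hdis : ∀ y ∈ U, y ∉ R := by
    intro y hy hy'
    have h1 := hfar y hy y hy'
    have h2 : ds y y = 0 := by unfold ds; simp
    omega
  have hUR : Disjoint U R := Finset.disjoint_left.2 hdis
  have hnbU : ∀ e ∈ nb U (t / 2), ∃ y ∈ U, ds e y ≤ t / 2 := by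
    intro e he
    unfold nb at he
    obtain ⟨y, hy, h1⟩ := mem_biUnion.1 he
    exact ⟨y, hy, mem_blk_pos h1⟩
  have hnbR : ∀ e ∈ nb R (t / 2), ∃ y ∈ R, ds e y ≤ t / 2 := by
    intro e he
    unfold nb at he
    obtain ⟨y, hy, h1⟩ := mem_biUnion.1 he
    exact ⟨y, hy, mem_blk_pos h1⟩
  have hsubU : nb U (t / 2) \ U ⊆ nb (U ∪ R) (t / 2) \ (U ∪ R) := by
    intro e he
    rw [mem_sdiff] at he ⊢
    obtain ⟨y, hy, h1⟩ := hnbU e he.1
    refine ⟨?_, ?_⟩
    · unfold nb at he ⊢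
      exact Finset.biUnion_subset_biUnion_of_subset_left _ subset_union_left he.1
    · rw [mem_union]
      rintro (h | h)
      · exact he.2 h
      · have h2 := hfar y hy e h
        rw [ds_comm] at h2
        omega
  have hsubR : nb R (t / 2) \ R ⊆ nb (U ∪ R) (t / 2) \ (U ∪ R) := by
    intro e he
    rw [mem_sdiff] at he ⊢
    obtain ⟨y, hy, h1⟩ := hnbR e he.1
    refine ⟨?_, ?_⟩
    · unfold nb at he ⊢
      exact Finset.biUnion_subset_biUnion_of_subset_left _ subset_union_right he.1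
    · rw [mem_union]
      rintro (h | h)
      · have h2 := hfar e h y hy
        omega
      · exact he.2 h
  have hdreg : Disjoint (nb U (t / 2) \ U) (nb R (t / 2) \ R) := by
    rw [Finset.disjoint_left]
    intro e he he'
    obtain ⟨y, hy, h1⟩ := hnbU e (mem_sdiff.1 he).1
    obtain ⟨w, hw, h2⟩ := hnbR e (mem_sdiff.1 he').1
    have h3 := hfar y hy w hw
    have h4 := ds_tri y e w
    rw [ds_comm y e] at h4
    omega
  have hres : ∀ {A B : Finset Edg}, A ⊆ B → ∀ {F F' : Finset Edg}, F ∩ B = F' ∩ B →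
      F ∩ A = F' ∩ A := by
    intro A B hAB F F' h
    have e1 : F ∩ A = (F ∩ B) ∩ A := by
      rw [Finset.inter_assoc, Finset.inter_eq_right.mpr hAB]
    have e2 : F' ∩ A = (F' ∩ B) ∩ A := by
      rw [Finset.inter_assoc, Finset.inter_eq_right.mpr hAB]
    rw [e1, e2, h]
  refine ⟨fun F => EU F ∧ ER F, fun y => if y ∈ U then pU y else if y = v then u else pR y,
    fun y => if y ∈ U then rU y else rR y + rU u + 1, ?_, ?_, ?_, ?_⟩
  · intro F F' hFF
    exact and_congr (u1 F F' (hres hsubU hFF)) (w1 F F' (hres hsubR hFF))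
  · intro S' hS' _ heS' hS'n hS'd F hF hQ
    have hneU : U ≠ S' := by
      rintro rfl
      exact hdis v (hS' (mem_union_right _ hv)) hv
    have hneR : R ≠ S' := by
      rintro rfl
      exact hdis x hx (hS' (mem_union_left _ hx))
    refine ⟨u2 S' (subset_union_left.trans hS') (fun _ => hneU) heS' hS'n ?_ F hF hQ,
      w2 S' (subset_union_right.trans hS') (fun _ => hneR) heS' hS'n ?_ F hF hQ⟩
    · intro y hy w hw
      by_cases hwR : w ∈ R
      · exact hfar y hy w hwR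
      · refine hS'd y (mem_union_left _ hy) w ?_
        rw [mem_sdiff] at hw ⊢
        refine ⟨hw.1, ?_⟩
        rw [mem_union]
        rintro (h | h)
        · exact hw.2 h
        · exact hwR h
    · intro y hy w hw
      by_cases hwU : w ∈ U
      · rw [ds_comm]
        exact hfar w hwU y hy
      · refine hS'd y (mem_union_right _ hy) w ?_
        rw [mem_sdiff] at hw ⊢
        refine ⟨hw.1, ?_⟩
        rw [mem_union]
        rintro (h | h)
        · exact hwU h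
        · exact hw.2 h
  · intro y hy hyx
    by_cases hyU : y ∈ U
    · obtain ⟨g1, g2, g3⟩ := u3 y hyU hyx
      simp only [if_pos hyU, if_pos g1]
      exact ⟨mem_union_left _ g1, g2, g3⟩
    · have hyR : y ∈ R := (mem_union.1 hy).resolve_left hyU
      by_cases hyb : y = v
      · simp only [if_neg hyU, if_pos hyb, if_pos hu]
        refine ⟨mem_union_left _ hu, by omega, ?_⟩
        rw [hyb]
        exact hvu
      · obtain ⟨g1, g2, g3⟩ := w3 y hyR hyb
        have g4 : pR y ∉ U := fun h => hdis _ h g1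
        simp only [if_neg hyU, if_neg hyb, if_neg g4]
        exact ⟨mem_union_right _ g1, by omega, g3⟩
  · -- the probability
    have ha0 : 0 ≤ a := by linarith
    have hind : PQ (1 / 2) (boxE N) (fun F => EU F ∧ ER F) =
        PQ (1 / 2) (boxE N) EU * PQ (1 / 2) (boxE N) ER := by
      unfold PQ
      refine Pr_indep (S := (nb U (t / 2) \ U) ∩ boxE N) (T := (nb R (t / 2) \ R) ∩ boxE N)
        inter_subset_right inter_subset_right ?_ ?_ ?_
      · exact hdreg.mono inter_subset_left inter_subset_left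
      · intro F hF
        apply u1
        ext e
        simp only [mem_inter]
        constructor
        · rintro ⟨h1, h2⟩
          exact ⟨⟨h1, h2, hF h1⟩, h2⟩
        · rintro ⟨⟨h1, -⟩, h2⟩
          exact ⟨h1, h2⟩
      · intro F hF
        apply w1
        ext e
        simp only [mem_inter]
        constructor
        · rintro ⟨h1, h2⟩
          exact ⟨⟨h1, h2, hF h1⟩, h2⟩
        · rintro ⟨⟨h1, -⟩, h2⟩
          exact ⟨h1, h2⟩
    rw [hind]
    obtain ⟨PU, hPU⟩ : ∃ PU : ℝ, PU = ∏ y ∈ U.erase x, ps (ds y (pU y)) := ⟨_, rfl⟩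
    obtain ⟨PR, hPR⟩ : ∃ PR : ℝ, PR = ∏ y ∈ R.erase v, ps (ds y (pR y)) := ⟨_, rfl⟩
    have hPU0 : 0 ≤ PU := by rw [hPU]; exact Finset.prod_nonneg (fun y _ => (ps_pos _).le)
    have hPR0 : 0 ≤ PR := by rw [hPR]; exact Finset.prod_nonneg (fun y _ => (ps_pos _).le)
    have hprod : (∏ y ∈ (U ∪ R).erase x,
        ps (ds y (if y ∈ U then pU y else if y = v then u else pR y))) =
        PU * (ps (ds v u) * PR) := by
      have e1 : (U ∪ R).erase x = (U.erase x) ∪ R := by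
        rw [Finset.erase_union_distrib, Finset.erase_eq_of_notMem (hdis x hx)]
      have e2 : Disjoint (U.erase x) R := hUR.mono_left (Finset.erase_subset _ _)
      rw [e1, Finset.prod_union e2, hPU]
      congr 1
      · apply Finset.prod_congr rfl
        intro y hy
        rw [if_pos (Finset.mem_of_mem_erase hy)]
      · rw [← Finset.mul_prod_erase R _ hv, hPR]
        have hbU : v ∉ U := fun h => hdis v h hv
        rw [if_neg hbU, if_pos rfl]
        congr 1
        apply Finset.prod_congr rfl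
        intro y hy
        rw [if_neg (fun h => hdis y h (Finset.mem_of_mem_erase hy)),
          if_neg (Finset.ne_of_mem_erase hy)]
    rw [hprod]
    rw [← hPU] at u4
    rw [← hPR] at w4
    have hmp := merge_ps (t := t) (U := U) (R := R) hu hv hvu
    have z1 := (ps_pos (max (t + 1) (dm U))).le
    have z2 := (ps_pos (max t (dm R))).le
    have z3 := (ps_pos (ds v u)).le
    have z4 := (ps_pos (max (t + 1) (dm (U ∪ R)))).le
    have z5 : 0 ≤ PQ (1 / 2) (boxE N) ER := Pr_nonneg (fun e => by norm_num) _ _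
    have hak : 0 ≤ a ^ k := pow_nonneg ha0 _
    have hak' : 0 ≤ a ^ k' := pow_nonneg ha0 _
    calc PQ (1 / 2) (boxE N) EU * PQ (1 / 2) (boxE N) ER ≤
          (a ^ k * PU * ps (max (t + 1) (dm U))) *
            (a ^ k' * PR * ps (max t (dm R))) :=
          mul_le_mul u4 w4 z5 (by positivity)
      _ = a ^ k * a ^ k' * PU * PR *
            (ps (max (t + 1) (dm U)) * ps (max t (dm R))) := by ring
      _ ≤ a ^ k * a ^ k' * PU * PR *
            (36 * (ps (ds v u) * ps (max (t + 1) (dm (U ∪ R))))) :=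
          mul_le_mul_of_nonneg_left hmp (by positivity)
      _ ≤ a ^ k * a ^ k' * PU * PR *
            (a * (ps (ds v u) * ps (max (t + 1) (dm (U ∪ R))))) := by
          apply mul_le_mul_of_nonneg_left _ (by positivity)
          exact mul_le_mul_of_nonneg_right ha (mul_nonneg z3 z4)
      _ = _ := by rw [pow_succ, pow_add]; ring

end Pool.Agent.Helper859.AU
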