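import Pool.Agent.Y350.NE.TayA

/-!
Taylor expansion at `1 / 2` when the parameter is changed on a part of the ground set.
-/

set_option autoImplicit false

namespace Pool.Agent.Helper859.AU

open Finset H974 Pool.Agent.Y350.NE.TayA

variable {E : Type*} [DecidableEq E]

/-- Parameter `1 / 2 + z` on `V` and `1 / 2` elsewhere. -/
noncomputable def hy (V : Finset E) (z : ℝ) (e : E) : ℝ := if e ∈ V then 1 / 2 + z else 1 / 2

theorem expandR (U V F : Finset E) (hVU : V ⊆ U) (hF : F ⊆ U) (z : ℝ) :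
    (∏ e ∈ F, hy V z e) * (∏ e ∈ U \ F, (1 - hy V z e)) =
      ∑ S ∈ V.powerset, z ^ S.card * (1 / 2) ^ (U \ S).card * (-1) ^ (S \ F).card := by
  classical
  have h1 : (∏ e ∈ F, hy V z e) * (∏ e ∈ U \ F, (1 - hy V z e)) =
      ∏ e ∈ U, ((if e ∈ V then (if e ∈ F then z else -z) else 0) + 1 / 2) := by
    rw [← Finset.prod_sdiff hF, mul_comm]
    congr 1
    · refine Finset.prod_congr rfl fun e he => ?_
      rw [if_neg (Finset.mem_sdiff.1 he).2]
      unfold hy
      split_ifs <;> ring
    · refine Finset.prod_congr rfl fun e he => ?_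
      rw [if_pos he]
      unfold hy
      split_ifs <;> ring
  rw [h1, Finset.prod_add]
  have hsub : V.powerset ⊆ U.powerset := Finset.powerset_mono.2 hVU
  rw [← Finset.sum_subset hsub]
  · refine Finset.sum_congr rfl fun S hS => ?_
    have hSV := Finset.mem_powerset.1 hS
    rw [Finset.prod_const]
    have h2 : ∏ e ∈ S, (if e ∈ V then (if e ∈ F then z else -z) else 0) =
        z ^ S.card * (-1) ^ (S \ F).card := by
      have h3 : ∀ e ∈ S, (if e ∈ V then (if e ∈ F then z else -z) else 0) =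
          z * (if e ∈ S \ F then -1 else 1) := by
        intro e he
        rw [if_pos (hSV he)]
        by_cases h : e ∈ F
        · simp [h]
        · simp [h, he]
      rw [Finset.prod_congr rfl h3, Finset.prod_mul_distrib, Finset.prod_const]
      congr 1
      rw [Finset.prod_ite_mem, Finset.inter_eq_right.2 Finset.sdiff_subset, Finset.prod_const]
    rw [h2]
    ring
  · intro S _ hS
    rw [Finset.mem_powerset, Finset.not_subset] at hS
    obtain ⟨e, he, heV⟩ := hS
    rw [Finset.prod_eq_zero he (by rw [if_neg heV]), zero_mul]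

/-- The expectation as a polynomial in `z`. -/
theorem hyb_expand (U V : Finset E) (hVU : V ⊆ U) (f : Finset E → ℝ) (z : ℝ) :
    Ex (hy V z) U f = ∑ S ∈ V.powerset, z ^ S.card * ((1 / 2) ^ (U \ S).card *
      ∑ F ∈ U.powerset, (-1 : ℝ) ^ (S \ F).card * f F) := by
  unfold Ex
  have e2 : ∀ F ∈ U.powerset, (∏ e ∈ F, hy V z e) * (∏ e ∈ U \ F, (1 - hy V z e)) * f F =
      ∑ S ∈ V.powerset, z ^ S.card * (1 / 2) ^ (U \ S).card * ((-1) ^ (S \ F).card * f F) := by
    intro F hF
    rw [expandR U V F hVU (Finset.mem_powerset.1 hF) z, Finset.sum_mul]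
    refine Finset.sum_congr rfl fun S _ => ?_
    ring
  rw [Finset.sum_congr rfl e2, Finset.sum_comm]
  refine Finset.sum_congr rfl fun S _ => ?_
  rw [← Finset.mul_sum]
  ring

/-- Taylor expansion at `1 / 2` with the parameter changed on `V`. -/
theorem hyb_taylor [Nonempty E] (U V : Finset E) (hVU : V ⊆ U) (f : Finset E → ℝ)
    (Pv : E → Finset E → Prop) (h1 : ∀ F, |f F| ≤ 1)
    (h2 : ∀ e F, ¬ Pv e F → f (insert e F) = f (F.erase e)) :
    ∃ T : ℝ, ∀ z : ℝ, |Ex (hy V z) U f - Ex (fun _ => 1 / 2) U f - z * T| ≤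
      ∑ S ∈ V.powerset.filter (fun S => 2 ≤ S.card), (2 * |z|) ^ S.card *
        Pr (fun _ : E => (1 / 2 : ℝ)) U (fun F => ∀ e ∈ S, ∃ T ⊆ S, Pv e ((F \ S) ∪ T)) := by
  classical
  set c : Finset E → ℝ := fun S => (1 / 2) ^ (U \ S).card *
      ∑ F ∈ U.powerset, (-1 : ℝ) ^ (S \ F).card * f F with hc
  refine ⟨∑ S ∈ V.powerset.filter (fun S => S.card = 1), c S, fun z => ?_⟩
  have hz : Ex (hy V z) U f = ∑ S ∈ V.powerset, z ^ S.card * c S := hyb_expand U V hVU f z
  have h0 : Ex (fun _ => 1 / 2) U f = c ∅ := by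
    have e0 : (fun _ : E => (1 / 2 : ℝ)) = hy V 0 := by
      funext e
      unfold hy
      split_ifs <;> simp
    rw [e0, hyb_expand U V hVU f 0, Finset.sum_eq_single ∅]
    · simp [hc]
    · intro S _ hS
      rw [zero_pow (Finset.card_pos.2 (Finset.nonempty_iff_ne_empty.2 hS)).ne', zero_mul]
    · intro h
      exact absurd (Finset.empty_mem_powerset V) h
  have hsplit : ∑ S ∈ V.powerset, z ^ S.card * c S = c ∅ +
      z * (∑ S ∈ V.powerset.filter (fun S => S.card = 1), c S) +
      ∑ S ∈ V.powerset.filter (fun S => 2 ≤ S.card), z ^ S.card * c S := by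
    rw [← Finset.sum_filter_add_sum_filter_not V.powerset (fun S => 2 ≤ S.card), add_comm]
    congr 1
    rw [← Finset.sum_filter_add_sum_filter_not (V.powerset.filter (fun S => ¬ 2 ≤ S.card))
      (fun S => S.card = 1), add_comm]
    congr 1
    · have : (V.powerset.filter (fun S => ¬ 2 ≤ S.card)).filter (fun S => ¬ S.card = 1) = {∅} := by
        ext S
        simp only [Finset.mem_filter, Finset.mem_powerset, Finset.mem_singleton]
        constructor
        · rintro ⟨⟨_, h3⟩, h4⟩
          exact Finset.card_eq_zero.1 (by omega)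
        · rintro rfl
          simp
      rw [this, Finset.sum_singleton]
      simp
    · rw [Finset.mul_sum]
      have : (V.powerset.filter (fun S => ¬ 2 ≤ S.card)).filter (fun S => S.card = 1) =
          V.powerset.filter (fun S => S.card = 1) := by
        ext S
        simp only [Finset.mem_filter, Finset.mem_powerset]
        constructor
        · rintro ⟨⟨h3, _⟩, h4⟩
          exact ⟨h3, h4⟩
        · rintro ⟨h3, h4⟩
          exact ⟨⟨h3, by omega⟩, h4⟩
      rw [this]
      refine Finset.sum_congr rfl fun S hS => ?_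
      rw [(Finset.mem_filter.1 hS).2, pow_one]
  rw [hz, h0, hsplit]
  have e1 : c ∅ + z * (∑ S ∈ V.powerset.filter (fun S => S.card = 1), c S) +
      ∑ S ∈ V.powerset.filter (fun S => 2 ≤ S.card), z ^ S.card * c S - c ∅ -
      z * (∑ S ∈ V.powerset.filter (fun S => S.card = 1), c S) =
      ∑ S ∈ V.powerset.filter (fun S => 2 ≤ S.card), z ^ S.card * c S := by ring
  rw [e1]
  refine (Finset.abs_sum_le_sum_abs _ _).trans (Finset.sum_le_sum fun S hS => ?_)
  have hSU : S ⊆ U := (Finset.mem_powerset.1 (Finset.mem_filter.1 hS).1).trans hVU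
  rw [Pr_half, abs_mul, abs_pow]
  have e3 : |c S| ≤ (1 / 2) ^ (U \ S).card *
      ((U.powerset.filter fun F => ∀ e ∈ S, ∃ T ⊆ S, Pv e ((F \ S) ∪ T)).card : ℝ) := by
    simp only [hc]
    rw [abs_mul, abs_of_nonneg (by positivity : (0:ℝ) ≤ (1 / 2) ^ (U \ S).card)]
    exact mul_le_mul_of_nonneg_left (sign_sum U S hSU f Pv h1 h2) (by positivity)
  have e5 : U.card = S.card + (U \ S).card := by
    rw [Finset.card_sdiff_of_subset hSU, Nat.add_sub_cancel' (Finset.card_le_card hSU)]
  have e6 : (2 : ℝ) ^ S.card * (1 / 2) ^ S.card = 1 := by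
    rw [← mul_pow]
    norm_num
  calc |z| ^ S.card * |c S| ≤ |z| ^ S.card * ((1 / 2) ^ (U \ S).card *
        ((U.powerset.filter fun F => ∀ e ∈ S, ∃ T ⊆ S, Pv e ((F \ S) ∪ T)).card : ℝ)) :=
        mul_le_mul_of_nonneg_left e3 (by positivity)
    _ = _ := by
        rw [e5, pow_add, mul_pow]
        linear_combination (-(|z| ^ S.card * (1 / 2) ^ (U \ S).card *
          ((U.powerset.filter fun F => ∀ e ∈ S, ∃ T ⊆ S, Pv e ((F \ S) ∪ T)).card : ℝ))) * e6

end Pool.Agent.Helper859.AU
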