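import Pool.Agent.Helper859_AU.Lim
import Pool.Agent.Helper859_AU.Clus

/-!
The mean number of clusters of a box and the connection probabilities.
-/

set_option autoImplicit false

namespace Pool.Agent.Helper859.AU

open H974 H12S H389NS Finset Filter Topology

theorem reach_of_graph {n : ℕ} {F : Finset Edg} {u v : KK.Box n}
    (h : (KK.graph n F).Reachable u v) : Reach (↑F : Set Edg) u.1 v.1 := by
  rw [SimpleGraph.reachable_iff_reflTransGen] at h
  induction h with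
  | refl => exact Reach.refl _ _
  | tail _ hs ih =>
    obtain ⟨_, e, he, hc⟩ := hs
    exact ih.trans (Adj.reach ⟨e, mem_coe.2 he, hc⟩)

theorem graph_of_reach {n : ℕ} {F : Finset Edg} (hF : F ⊆ KK.edges n) {u : KK.Box n} {w : Vtx}
    (h : Reach (↑F : Set Edg) u.1 w) : ∃ v : KK.Box n, v.1 = w ∧ (KK.graph n F).Reachable u v := by
  induction h with
  | refl => exact ⟨u, rfl, SimpleGraph.Reachable.refl _⟩
  | @tail c d _ hs ih =>
    obtain ⟨v, hv, hr⟩ := ih
    obtain ⟨e, he, hc⟩ := hs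
    have h1 := KK.edge_ends (hF (mem_coe.1 he))
    rcases hc with ⟨h2, h3⟩ | ⟨h2, h3⟩
    · refine ⟨⟨KK.tgt e, h1.2⟩, h3, hr.trans (SimpleGraph.Adj.reachable ?_)⟩
      refine ⟨fun hc => KK.tgt_ne_src e ?_, e, mem_coe.1 he, Or.inl ⟨?_, rfl⟩⟩
      · have h4 : v.1 = KK.tgt e := congrArg Subtype.val hc
        rw [← h4, hv]
        exact h2
      · rw [hv]; exact h2
    · refine ⟨⟨KK.src e, h1.1⟩, h2, hr.trans (SimpleGraph.Adj.reachable ?_)⟩
      refine ⟨fun hc => KK.tgt_ne_src e ?_, e, mem_coe.1 he, Or.inr ⟨rfl, ?_⟩⟩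
      · have h4 : v.1 = KK.src e := congrArg Subtype.val hc
        rw [← h4, hv]
        exact h3.symm
      · rw [hv]; exact h3

theorem reach_iff_graph {n : ℕ} {F : Finset Edg} (hF : F ⊆ KK.edges n) (u v : KK.Box n) :
    (KK.graph n F).Reachable u v ↔ Reach (↑F : Set Edg) u.1 v.1 := by
  constructor
  · exact reach_of_graph
  · intro h
    obtain ⟨v', hv, hr⟩ := graph_of_reach hF h
    have : v' = v := Subtype.ext hv
    rwa [this] at hr

/-- The probability that the ends of `e` are connected in the box off `e`. -/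
noncomputable def gE (n : ℕ) (e : Edg) (p : ℝ) : ℝ :=
  Pr (fun _ => p) (KK.edges n) (fun F => Reach ((↑F : Set Edg) \ {e}) (src e) (tgt e))

theorem meanK_eq (n : ℕ) (p : ℝ) :
    KK.meanK n p = Ex (fun _ => p) (KK.edges n) (fun F => (KK.clusters n F : ℝ)) := by
  unfold KK.meanK Ex
  apply Finset.sum_congr rfl
  intro F hF
  rw [Finset.prod_const, Finset.prod_const, Finset.card_sdiff_of_subset (mem_powerset.1 hF)]

theorem clusters_diff {n : ℕ} {F : Finset Edg} {e : Edg} (he : e ∈ KK.edges n)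
    (hF : F ⊆ KK.edges n) :
    ((KK.clusters n (insert e F) : ℝ) - KK.clusters n F) =
      -(1 - ind (Reach (↑F : Set Edg) (src e) (tgt e))) := by
  have h1 := KK.edge_ends he
  obtain ⟨a, ha⟩ : ∃ a : KK.Box n, KK.src e = a.1 := ⟨⟨_, h1.1⟩, rfl⟩
  obtain ⟨b, hb⟩ : ∃ b : KK.Box n, KK.tgt e = b.1 := ⟨⟨_, h1.2⟩, rfl⟩
  have h2 := reach_iff_graph hF a b
  rw [← ha, ← hb] at h2
  by_cases h : Reach (↑F : Set Edg) (src e) (tgt e)
  · rw [ind_of h, KK.clusters_insert_reach a b ha hb (h2.2 h)]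
    ring
  · rw [ind_not_of h, ← KK.clusters_insert_not a b ha hb (fun h3 => h (h2.1 h3))]
    push_cast
    ring

theorem meanK_deriv (n : ℕ) (p : ℝ) :
    HasDerivAt (KK.meanK n) (-(∑ e ∈ KK.edges n, (1 - gE n e p))) p := by
  have h1 := Ex_hasDerivAt (E := Edg) (fun q _ => q) (fun _ => 1) p
    (fun _ => hasDerivAt_id p) (KK.edges n) (fun F => (KK.clusters n F : ℝ))
  have e1 : KK.meanK n = fun q => Ex (fun _ => q) (KK.edges n)
      (fun F => (KK.clusters n F : ℝ)) := funext (meanK_eq n)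
  rw [e1]
  convert h1 using 1
  rw [← Finset.sum_neg_distrib]
  apply Finset.sum_congr rfl
  intro e he
  rw [one_mul]
  have e2 : Ex (fun _ => p) ((KK.edges n).erase e)
      (fun F => ((KK.clusters n (insert e F) : ℝ) - KK.clusters n F)) =
      Ex (fun _ => p) ((KK.edges n).erase e)
      (fun F => (-1) * (1 - ind (Reach (↑F : Set Edg) (src e) (tgt e)))) := by
    apply Ex_congr
    intro F hF
    rw [clusters_diff he (hF.trans (Finset.erase_subset _ _))]
    ring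
  rw [e2, Ex_mul_left, Ex_sub, Ex_const]
  have e3 : gE n e p = Ex (fun _ => p) ((KK.edges n).erase e)
      (fun F => ind (Reach (↑F : Set Edg) (src e) (tgt e))) := by
    unfold gE
    rw [Pr_local (Finset.erase_subset e (KK.edges n))]
    · apply Ex_congr
      intro F hF
      apply ind_congr
      have : (↑F : Set Edg) \ {e} = ↑F := by
        ext g
        simp only [Set.mem_sdiff, mem_coe, Set.mem_singleton_iff, and_iff_left_iff_imp]
        rintro hg rfl
        exact Finset.notMem_erase g _ (hF hg)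
      simp only [this]
    · intro F hF
      have : (↑(F ∩ (KK.edges n).erase e) : Set Edg) \ {e} = (↑F : Set Edg) \ {e} := by
        ext g
        simp only [coe_inter, Set.mem_sdiff, Set.mem_inter_iff, mem_coe, mem_erase,
          Set.mem_singleton_iff]
        constructor
        · rintro ⟨⟨h2, _⟩, h3⟩; exact ⟨h2, h3⟩
        · rintro ⟨h2, h3⟩; exact ⟨⟨h2, h3, hF h2⟩, h3⟩
      rw [this]
  rw [e3]
  ring

/-! ### Translations -/

theorem mem_KK {n : ℕ} {x y : ℤ} {b : Bool} : (x, y, b) ∈ KK.edges n ↔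
    0 ≤ x ∧ 0 ≤ y ∧ x < n ∧ y < n ∧ (if b then x + 1 < n else y + 1 < n) := by
  unfold KK.edges KK.tgt
  rw [mem_filter, mem_product, mem_product, mem_Ico, mem_Ico]
  cases b <;> simp <;> omega

theorem KK_trl (n : ℕ) (x y : ℤ) : KK.edges n =
    (trl x y).mp (RE (-x) ((n:ℤ) - 1 - x) (-y) ((n:ℤ) - 1 - y)) := by
  rw [trl_RE]
  ext ⟨a, c, b⟩
  rw [mem_KK]
  cases b
  · simp only [mem_RE_false, Bool.false_eq_true, if_false]; omega
  · simp only [mem_RE_true, if_true]; omega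

theorem gE_eq (n : ℕ) (x y : ℤ) (b : Bool) (p : ℝ) : gE n (x, y, b) p =
    Pr (fun _ => p) (RE (-x) ((n:ℤ) - 1 - x) (-y) ((n:ℤ) - 1 - y))
      (fun F => Reach ((↑F : Set Edg) \ {e0 b}) (src (e0 b)) (tgt (e0 b))) := by
  unfold gE
  rw [KK_trl n x y, LSym.pr]
  apply Pr_congr
  intro F _
  have h1 : (trl x y).φ (e0 b) = (x, y, b) := by
    unfold e0
    rw [trl_φ, zero_add, zero_add]
  have h2 : (↑((trl x y).mp F) : Set Edg) \ {(x, y, b)} = (trl x y).φ '' ((↑F : Set Edg) \ {e0 b}) := by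
    rw [LSym.coe_mp, Set.image_sdiff (trl x y).φ.injective, Set.image_singleton, h1]
  have h3 : src (x, y, b) = (trl x y).ψ (src (e0 b)) := by
    unfold e0
    simp
  have h4 : tgt (x, y, b) = (trl x y).ψ (tgt (e0 b)) := by
    unfold e0
    cases b
    · simp; ring
    · simp; ring
  rw [h2, h3, h4, LSym.reach_iff]

theorem PX_incr (b : Bool) (T : Finset Edg) : IncrE T
    (fun F : Finset Edg => Reach ((↑F : Set Edg) \ {e0 b}) (src (e0 b)) (tgt (e0 b))) := by
  intro F G hFG _ h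
  refine h.mono ?_
  rintro g ⟨h1, h2⟩
  exact ⟨hFG h1, h2⟩

theorem hN_eq (b : Bool) (N : ℕ) (p : ℝ) : hN b N p = Pr (fun _ => p) (boxE N)
    (fun F => Reach ((↑F : Set Edg) \ {e0 b}) (src (e0 b)) (tgt (e0 b))) := by
  unfold hN
  apply Pr_congr
  intro F hF
  unfold XN
  have : (↑F : Set Edg) ∩ ↑(boxE N) = ↑F := Set.inter_eq_left.2 (by exact_mod_cast hF)
  rw [this]

theorem gE_le {n : ℕ} {x y : ℤ} {b : Bool} (he : (x, y, b) ∈ KK.edges n) {p : ℝ} (h0 : 0 ≤ p)
    (h1 : p ≤ 1) : gE n (x, y, b) p ≤ hI b p := by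
  rw [mem_KK] at he
  refine le_trans ?_ (hN_le_hI (b := b) (N := n) h0 h1)
  rw [gE_eq, hN_eq]
  apply Pr_mono_set (okc h0 h1) _ (PX_incr b _)
  unfold boxE
  rintro ⟨u, v, _ | _⟩ h
  · simp only [mem_RE_false] at h ⊢; omega
  · simp only [mem_RE_true] at h ⊢; omega

theorem le_gE {n d : ℕ} {x y : ℤ} {b : Bool} (h1x : (d:ℤ) ≤ x) (h2x : x ≤ n - 1 - d)
    (h1y : (d:ℤ) ≤ y) (h2y : y ≤ n - 1 - d) {p : ℝ} (h0 : 0 ≤ p)
    (h1 : p ≤ 1) : hN b d p ≤ gE n (x, y, b) p := by
  rw [gE_eq, hN_eq]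
  apply Pr_mono_set (okc h0 h1) _ (PX_incr b _)
  unfold boxE
  rintro ⟨u, v, _ | _⟩ h
  · simp only [mem_RE_false] at h ⊢; omega
  · simp only [mem_RE_true] at h ⊢; omega

theorem gE_nonneg {n : ℕ} {e : Edg} {p : ℝ} (h0 : 0 ≤ p) (h1 : p ≤ 1) : 0 ≤ gE n e p :=
  Pr_nonneg (okc h0 h1) _ _

end Pool.Agent.Helper859.AU
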