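import Pool.Agent.Helper859_AU.Kap1

/-!
The number of clusters per vertex and its derivatives.
-/

set_option autoImplicit false

namespace Pool.Agent.Helper859.AU

open H974 H12S H389NS Finset Filter Topology MeasureTheory

theorem gE_le_one {n : ℕ} {e : Edg} {p : ℝ} (h0 : 0 ≤ p) (h1 : p ≤ 1) : gE n e p ≤ 1 :=
  Pr_le_one (okc h0 h1) _ _

theorem sum_bound {n d : ℕ} (hd : 1 ≤ d) (h2d : 2 * d ≤ n) {p : ℝ} (h0 : 0 ≤ p) (h1 : p ≤ 1)
    (b : Bool) : |∑ e ∈ (KK.edges n).filter (fun e => e.2.2 = b), (1 - gE n e p) -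
      (n:ℝ) ^ 2 * (1 - hI b p)| ≤ (n:ℝ) ^ 2 * arm (1 / 2) d + 4 * d * n := by
  classical
  obtain ⟨E, hE⟩ : ∃ E, E = (KK.edges n).filter (fun e => e.2.2 = b) := ⟨_, rfl⟩
  obtain ⟨G, hG⟩ : ∃ G : Finset Edg, G = (Icc (d:ℤ) (n - 1 - d)) ×ˢ
    ((Icc (d:ℤ) (n - 1 - d)) ×ˢ ({b} : Finset Bool)) := ⟨_, rfl⟩
  rw [← hE]
  have hGE : G ⊆ E := by
    rw [hG, hE]
    rintro ⟨x, y, c⟩ h
    rw [mem_product, mem_product, mem_Icc, mem_Icc, mem_singleton] at h
    simp only at h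
    rw [mem_filter, mem_KK]
    obtain ⟨hx, hy, rfl⟩ := h
    refine ⟨⟨by omega, by omega, by omega, by omega, ?_⟩, rfl⟩
    split_ifs <;> omega
  have hcG : (G.card : ℝ) = ((n:ℝ) - 2 * d) ^ 2 := by
    rw [hG, card_product, card_product, Int.card_Icc, card_singleton]
    have : ((n:ℤ) - 1 - d + 1 - d).toNat = n - 2 * d := by omega
    rw [this]
    push_cast [h2d]
    ring
  have hcE : (E.card : ℝ) ≤ (n:ℝ) ^ 2 := by
    have h2 : E ⊆ (Ico (0:ℤ) n) ×ˢ ((Ico (0:ℤ) n) ×ˢ ({b} : Finset Bool)) := by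
      rw [hE]
      rintro ⟨x, y, c⟩ h
      rw [mem_filter, mem_KK] at h
      rw [mem_product, mem_product, mem_Ico, mem_Ico, mem_singleton]
      simp only at h ⊢
      exact ⟨by omega, by omega, h.2⟩
    have h3 := card_le_card h2
    rw [card_product, card_product, Int.card_Ico, card_singleton] at h3
    have : ((n:ℤ) - 0).toNat = n := by omega
    rw [this, mul_one] at h3
    have h4 : (E.card : ℝ) ≤ ((n * n : ℕ) : ℝ) := by exact_mod_cast h3
    push_cast at h4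
    linarith
  have harm := arm_nonneg (q := 1 / 2) (by norm_num) (by norm_num) d
  have hI1 := hI_le_one (b := b) h0 h1
  have hI0 := hI_nonneg (b := b) h0 h1
  have hnd : (2:ℝ) * d ≤ n := by exact_mod_cast h2d
  have hn0 : (0:ℝ) ≤ n := Nat.cast_nonneg n
  have hd0 : (0:ℝ) ≤ d := Nat.cast_nonneg d
  rw [← Finset.sum_sdiff hGE]
  have s1 : (G.card : ℝ) * (1 - hI b p) ≤ ∑ e ∈ G, (1 - gE n e p) := by
    rw [← nsmul_eq_mul]
    apply Finset.card_nsmul_le_sum
    intro e he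
    have he2 := hGE he
    rw [hE, mem_filter] at he2
    obtain ⟨x, y, c⟩ := e
    obtain ⟨he3, rfl⟩ := he2
    have := gE_le he3 h0 h1
    simp only
    linarith
  have s2 : ∑ e ∈ G, (1 - gE n e p) ≤ (G.card : ℝ) * (1 - hI b p + arm (1 / 2) d) := by
    rw [← nsmul_eq_mul]
    apply Finset.sum_le_card_nsmul
    intro e he
    rw [hG, mem_product, mem_product, mem_Icc, mem_Icc, mem_singleton] at he
    obtain ⟨x, y, c⟩ := e
    simp only at he
    obtain ⟨hx, hy, rfl⟩ := he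
    have h3 := le_gE (b := c) hx.1 hx.2 hy.1 hy.2 h0 h1
    have h4 := hI_sub_le (b := c) hd h0 h1
    linarith
  have s3 : 0 ≤ ∑ e ∈ E \ G, (1 - gE n e p) := by
    apply Finset.sum_nonneg
    intro e _
    have := gE_le_one (n := n) (e := e) h0 h1
    linarith
  have s4 : ∑ e ∈ E \ G, (1 - gE n e p) ≤ (E.card : ℝ) - G.card := by
    have h3 : ∑ e ∈ E \ G, (1 - gE n e p) ≤ ∑ e ∈ E \ G, (1:ℝ) := by
      apply Finset.sum_le_sum
      intro e _
      have := gE_nonneg (n := n) (e := e) h0 h1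
      linarith
    rw [Finset.sum_const, nsmul_eq_mul, mul_one, card_sdiff_of_subset hGE,
      Nat.cast_sub (card_le_card hGE)] at h3
    exact h3
  rw [hcG] at s1 s2 s4
  have q1 : ((n:ℝ) - 2 * d) ^ 2 ≤ (n:ℝ) ^ 2 := by nlinarith
  have q2 : (n:ℝ) ^ 2 - 4 * d * n ≤ ((n:ℝ) - 2 * d) ^ 2 := by nlinarith
  have q3 : ((n:ℝ) - 2 * d) ^ 2 * (1 - hI b p + arm (1 / 2) d) ≤
      (n:ℝ) ^ 2 * (1 - hI b p + arm (1 / 2) d) :=
    mul_le_mul_of_nonneg_right q1 (by linarith)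
  have q4 : ((n:ℝ) ^ 2 - 4 * d * n) * (1 - hI b p) ≤ ((n:ℝ) - 2 * d) ^ 2 * (1 - hI b p) :=
    mul_le_mul_of_nonneg_right q2 (by linarith)
  have q5 : 0 ≤ 4 * (d:ℝ) * n * hI b p := by positivity
  have q6 : 0 ≤ (n:ℝ) ^ 2 * arm (1 / 2) d := by positivity
  rw [abs_le]
  constructor
  · nlinarith
  · nlinarith

/-- The derivative of the number of clusters per vertex. -/
noncomputable def kap1 (p : ℝ) : ℝ := -(2 - hI true p - hI false p)

/-- The derivative of the mean number of clusters of a box, per vertex. -/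
noncomputable def kd (n : ℕ) (p : ℝ) : ℝ := -(∑ e ∈ KK.edges n, (1 - gE n e p)) / (n:ℝ) ^ 2

theorem kd_bound {n d : ℕ} (hd : 1 ≤ d) (h2d : 2 * d ≤ n) {p : ℝ} (h0 : 0 ≤ p) (h1 : p ≤ 1) :
    |kd n p - kap1 p| ≤ 2 * arm (1 / 2) d + 8 * d / n := by
  have hn : (0:ℝ) < n := by
    have : 1 ≤ n := by omega
    exact_mod_cast this
  have h2 := sum_bound hd h2d h0 h1 true
  have h3 := sum_bound hd h2d h0 h1 false
  have h4 : ∑ e ∈ KK.edges n, (1 - gE n e p) =
      ∑ e ∈ (KK.edges n).filter (fun e => e.2.2 = true), (1 - gE n e p) +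
      ∑ e ∈ (KK.edges n).filter (fun e => e.2.2 = false), (1 - gE n e p) := by
    rw [← Finset.sum_filter_add_sum_filter_not (KK.edges n) (fun e => e.2.2 = true)]
    simp only [Bool.not_eq_true]
  have h5 : kd n p - kap1 p = -((∑ e ∈ (KK.edges n).filter (fun e => e.2.2 = true),
      (1 - gE n e p) - (n:ℝ) ^ 2 * (1 - hI true p)) +
      (∑ e ∈ (KK.edges n).filter (fun e => e.2.2 = false), (1 - gE n e p) -
      (n:ℝ) ^ 2 * (1 - hI false p))) / (n:ℝ) ^ 2 := by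
    unfold kd kap1
    rw [h4]
    field_simp
    ring
  rw [h5, abs_div, abs_neg, abs_of_pos (pow_pos hn 2), div_le_iff₀ (pow_pos hn 2)]
  refine (abs_add_le _ _).trans ((add_le_add h2 h3).trans (le_of_eq ?_))
  field_simp
  ring

theorem kap1_cont : ContinuousOn kap1 (Set.Icc 0 1) := by
  unfold kap1
  exact (((continuousOn_const).sub (hI_cont true)).sub (hI_cont false)).neg

theorem kd_cont (n : ℕ) : Continuous (kd n) := by
  unfold kd gE
  apply Continuous.div_const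
  apply Continuous.neg
  apply continuous_finsetSum
  intro e _
  exact continuous_const.sub (Pr_continuous _ _)

theorem meanK_zero (n : ℕ) : KK.meanK n 0 = (n:ℝ) ^ 2 := by
  unfold KK.meanK
  rw [Finset.sum_eq_single ∅]
  · rw [KK.clusters_empty]
    simp
  · intro F _ hF
    rw [zero_pow (by rwa [Ne, card_eq_zero]), zero_mul, zero_mul]
  · intro h
    exact absurd (empty_mem_powerset _) h

theorem meanK_int {n : ℕ} (hn : 1 ≤ n) (p : ℝ) :
    KK.meanK n p / (n:ℝ) ^ 2 = 1 + ∫ x in (0:ℝ)..p, kd n x := by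
  have hn0 : (0:ℝ) < n := by exact_mod_cast hn
  have h1 : ∀ x : ℝ, HasDerivAt (fun x => KK.meanK n x / (n:ℝ) ^ 2) (kd n x) x := fun x =>
    (meanK_deriv n x).div_const _
  rw [intervalIntegral.integral_eq_sub_of_hasDerivAt (fun x _ => h1 x)
    ((kd_cont n).intervalIntegrable _ _), meanK_zero]
  field_simp
  ring

/-- The number of clusters per vertex. -/
noncomputable def kap (p : ℝ) : ℝ := 1 + ∫ x in (0:ℝ)..p, kap1 x

theorem kap1_int {a b : ℝ} (ha : a ∈ Set.Icc (0:ℝ) 1) (hb : b ∈ Set.Icc (0:ℝ) 1) :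
    IntervalIntegrable kap1 volume a b := by
  apply ContinuousOn.intervalIntegrable
  exact kap1_cont.mono (Set.uIcc_subset_Icc ha hb)

theorem kap_lim {p : ℝ} (h0 : 0 ≤ p) (h1 : p ≤ 1) :
    Tendsto (fun n : ℕ => KK.meanK n p / (n:ℝ) ^ 2) atTop (𝓝 (kap p)) := by
  have key : ∀ n d : ℕ, 1 ≤ d → 2 * d ≤ n →
      |KK.meanK n p / (n:ℝ) ^ 2 - kap p| ≤ 2 * arm (1 / 2) d + 8 * d / n := by
    intro n d hd h2d
    rw [meanK_int (by omega) p]
    unfold kap
    have e1 : (1 + ∫ x in (0:ℝ)..p, kd n x) - (1 + ∫ x in (0:ℝ)..p, kap1 x) =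
        ∫ x in (0:ℝ)..p, (kd n x - kap1 x) := by
      rw [intervalIntegral.integral_sub ((kd_cont n).intervalIntegrable _ _)
        (kap1_int ⟨le_rfl, zero_le_one⟩ ⟨h0, h1⟩)]
      ring
    rw [e1]
    have h2 := intervalIntegral.norm_integral_le_of_norm_le_const (a := 0) (b := p)
      (f := fun x => kd n x - kap1 x) (C := 2 * arm (1 / 2) d + 8 * d / n) (by
        intro x hx
        rw [Set.uIoc_of_le h0] at hx
        exact kd_bound hd h2d hx.1.le (hx.2.trans h1))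
    rw [Real.norm_eq_abs, sub_zero, abs_of_nonneg h0] at h2
    refine h2.trans ?_
    have h3 := arm_nonneg (q := 1 / 2) (by norm_num) (by norm_num) d
    have h4 : 0 ≤ 2 * arm (1 / 2) d + 8 * (d:ℝ) / n := by positivity
    nlinarith
  rw [Metric.tendsto_atTop]
  intro ε hε
  have h2 := arm_half_lim
  rw [Metric.tendsto_atTop] at h2
  obtain ⟨K, hK⟩ := h2 (ε / 4) (by positivity)
  obtain ⟨d, hd⟩ : ∃ d : ℕ, d = max 1 K := ⟨_, rfl⟩
  have hd1 : 1 ≤ d := hd ▸ le_max_left _ _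
  have h3 := hK d (hd ▸ le_max_right _ _)
  rw [Real.dist_eq, sub_zero] at h3
  have h3' := le_abs_self (arm (1 / 2) d)
  obtain ⟨M, hM⟩ := exists_nat_gt (16 * (d:ℝ) / ε)
  refine ⟨max (2 * d) M, fun n hn => ?_⟩
  have hn1 : 2 * d ≤ n := le_trans (le_max_left _ _) hn
  have hn2 : (M:ℝ) ≤ n := by exact_mod_cast le_trans (le_max_right _ _) hn
  have hn0 : (0:ℝ) < n := by
    have : 1 ≤ n := by omega
    exact_mod_cast this
  rw [Real.dist_eq]
  refine (key n d hd1 hn1).trans_lt ?_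
  have h5 : 8 * (d:ℝ) / n < ε / 2 := by
    rw [div_lt_iff₀ hn0]
    have h6 := hM.trans_le hn2
    rw [div_lt_iff₀ hε] at h6
    linarith
  linarith

theorem kap_deriv {p : ℝ} (h0 : 0 < p) (h1 : p < 1) : HasDerivAt kap (kap1 p) p := by
  have h2 : ContinuousAt kap1 p := kap1_cont.continuousAt (Icc_mem_nhds h0 h1)
  have h3 : StronglyMeasurableAtFilter kap1 (𝓝 p) volume :=
    ContinuousOn.stronglyMeasurableAtFilter isOpen_Ioo (kap1_cont.mono Set.Ioo_subset_Icc_self) p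
      ⟨h0, h1⟩
  have h4 := intervalIntegral.integral_hasDerivAt_right
    (kap1_int ⟨le_rfl, zero_le_one⟩ ⟨h0.le, h1.le⟩) h3 h2
  exact h4.const_add 1

/-- Expansion of the derivative of the number of clusters per vertex. -/
theorem kap1_half : ∃ C T : ℝ, 0 < C ∧ ∀ p : ℝ, 0 ≤ p → p ≤ 1 →
    |kap1 p - kap1 (1 / 2) - (p - 1 / 2) * T| ≤ C * |p - 1 / 2| ^ (5 / 3 : ℝ) := by
  obtain ⟨C, hC, h⟩ := hI_half
  obtain ⟨T, hT⟩ := h true
  obtain ⟨U, hU⟩ := h false
  refine ⟨2 * C, T + U, by positivity, ?_⟩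
  intro p h0 h1
  have e1 : kap1 p - kap1 (1 / 2) - (p - 1 / 2) * (T + U) =
      (hI true p - hI true (1 / 2) - (p - 1 / 2) * T) +
      (hI false p - hI false (1 / 2) - (p - 1 / 2) * U) := by
    unfold kap1
    ring
  rw [e1]
  refine (abs_add_le _ _).trans ((add_le_add (hT p h0 h1) (hU p h0 h1)).trans (le_of_eq ?_))
  ring

theorem kap1_deriv : ∃ C T : ℝ, 0 < C ∧ HasDerivAt kap1 T (1 / 2) ∧ ∀ p : ℝ, 0 ≤ p → p ≤ 1 →
    |kap1 p - kap1 (1 / 2) - (p - 1 / 2) * T| ≤ C * |p - 1 / 2| ^ (5 / 3 : ℝ) := by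
  obtain ⟨C, T, hC, h⟩ := kap1_half
  refine ⟨C, T, hC, ?_, h⟩
  rw [hasDerivAt_iff_isLittleO, Asymptotics.isLittleO_iff]
  intro c hc
  have h1 : Tendsto (fun p : ℝ => C * |p - 1 / 2| ^ (2 / 3 : ℝ)) (𝓝 (1 / 2)) (𝓝 0) := by
    have : ContinuousAt (fun p : ℝ => C * |p - 1 / 2| ^ (2 / 3 : ℝ)) (1 / 2) := by
      apply ContinuousAt.mul continuousAt_const
      apply ContinuousAt.rpow_const
      · fun_prop
      · right; norm_num
    have h2 := this.tendsto
    simpa using h2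
  have h2 : ∀ᶠ p : ℝ in 𝓝 (1 / 2), C * |p - 1 / 2| ^ (2 / 3 : ℝ) < c :=
    h1.eventually (gt_mem_nhds hc)
  have h3 : ∀ᶠ p : ℝ in 𝓝 (1 / 2), p ∈ Set.Icc (0:ℝ) 1 :=
    Icc_mem_nhds (by norm_num) (by norm_num)
  filter_upwards [h2, h3] with p hp hp2
  have h4 := h p hp2.1 hp2.2
  rw [Real.norm_eq_abs, Real.norm_eq_abs, smul_eq_mul]
  refine h4.trans ?_
  rcases eq_or_lt_of_le (abs_nonneg (p - 1 / 2)) with hx | hx
  · rw [← hx, Real.zero_rpow (by norm_num)]
    simp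
  · have e1 : |p - 1 / 2| ^ (5 / 3 : ℝ) = |p - 1 / 2| ^ (2 / 3 : ℝ) * |p - 1 / 2| := by
      rw [← Real.rpow_add_one hx.ne']
      norm_num
    rw [e1, ← mul_assoc]
    exact mul_le_mul_of_nonneg_right hp.le hx.le

/-- **The singular part of the number of clusters per vertex.** -/
theorem kap_main : ∃ (C T : ℝ), 0 < C ∧ HasDerivAt kap1 T (1 / 2) ∧ ∀ p : ℝ, 0 ≤ p → p ≤ 1 →
    |kap p - kap (1 / 2) - kap1 (1 / 2) * (p - 1 / 2) - 1 / 2 * T * (p - 1 / 2) ^ 2| ≤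
      C * |p - 1 / 2| ^ (8 / 3 : ℝ) := by
  obtain ⟨C, T, hC, hT, h⟩ := kap1_deriv
  refine ⟨C, T, hC, hT, ?_⟩
  intro p h0 h1
  have hh : (1 / 2 : ℝ) ∈ Set.Icc (0:ℝ) 1 := by constructor <;> norm_num
  have e1 : kap p - kap (1 / 2) - kap1 (1 / 2) * (p - 1 / 2) - 1 / 2 * T * (p - 1 / 2) ^ 2 =
      ∫ x in (1 / 2 : ℝ)..p, (kap1 x - kap1 (1 / 2) - (x - 1 / 2) * T) := by
    have i1 : IntervalIntegrable (fun x : ℝ => kap1 x - kap1 (1 / 2)) volume (1 / 2) p :=
      (kap1_int hh ⟨h0, h1⟩).sub intervalIntegrable_const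
    have i2 : IntervalIntegrable (fun x : ℝ => (x - 1 / 2) * T) volume (1 / 2) p := by
      apply Continuous.intervalIntegrable
      fun_prop
    rw [intervalIntegral.integral_sub i1 i2, intervalIntegral.integral_sub
      (kap1_int hh ⟨h0, h1⟩) intervalIntegrable_const, intervalIntegral.integral_const,
      smul_eq_mul]
    have e2 : kap p - kap (1 / 2) = ∫ x in (1 / 2 : ℝ)..p, kap1 x := by
      unfold kap
      have := intervalIntegral.integral_add_adjacent_intervals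
        (kap1_int (a := 0) (b := 1 / 2) ⟨le_rfl, zero_le_one⟩ hh) (kap1_int hh ⟨h0, h1⟩)
      linarith
    have e3 : (∫ x in (1 / 2 : ℝ)..p, (x - 1 / 2) * T) = 1 / 2 * T * (p - 1 / 2) ^ 2 := by
      rw [intervalIntegral.integral_mul_const, intervalIntegral.integral_sub
        intervalIntegral.intervalIntegrable_id intervalIntegrable_const, integral_id,
        intervalIntegral.integral_const, smul_eq_mul]
      ring
    rw [e3, ← e2]
    ring
  rw [e1]
  have h2 := intervalIntegral.norm_integral_le_of_norm_le_const (a := 1 / 2) (b := p)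
    (f := fun x => kap1 x - kap1 (1 / 2) - (x - 1 / 2) * T)
    (C := C * |p - 1 / 2| ^ (5 / 3 : ℝ)) (by
      intro x hx
      have hx2 : x ∈ Set.uIcc (1 / 2) p := Set.uIoc_subset_uIcc hx
      have hx3 := Set.uIcc_subset_Icc hh ⟨h0, h1⟩ hx2
      refine (h x hx3.1 hx3.2).trans ?_
      apply mul_le_mul_of_nonneg_left _ hC.le
      apply Real.rpow_le_rpow (abs_nonneg _) _ (by norm_num)
      have := Set.abs_sub_left_of_mem_uIcc hx2
      exact this)
  refine h2.trans ?_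
  rw [mul_assoc]
  apply mul_le_mul_of_nonneg_left _ hC.le
  rcases eq_or_lt_of_le (abs_nonneg (p - 1 / 2)) with hx | hx
  · rw [← hx, Real.zero_rpow (by norm_num), Real.zero_rpow (by norm_num)]
    simp
  · have e1 : |p - 1 / 2| ^ (8 / 3 : ℝ) = |p - 1 / 2| ^ (5 / 3 : ℝ) * |p - 1 / 2| := by
      rw [← Real.rpow_add_one hx.ne']
      norm_num
    rw [e1]

end Pool.Agent.Helper859.AU
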