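import Pool.Agent.Helper859_AU.Good

/-!
The bound for the probability that all the edges of a set are pivotal: the annuli and the
induction over the scales.
-/

set_option autoImplicit false

namespace Pool.Agent.Helper859.AU

open H974 H12S H389NS Finset Pool.Agent.Y554.SN Pool.Agent.Y554.NE
open Pool.Agent.Y239.NE.Dec (ds_tri mem_blk_pos okh)
open Pool.Agent.Y239.NE.Out Pool.Agent.Y968.NE

/-- the input: four arms in an annulus -/
def In4 (C : ℝ) : Prop := ∀ (c0 : ℤ × ℤ) (d k : ℕ), 1 ≤ d → d ≤ k →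
    ∀ S : Finset Edg, blk c0 k ⊆ S →
      PQ (1/2) S (fun F => A4a c0 d k ↑F) ≤ C * ((d:ℝ) / k) ^ (5 / 4 : ℝ)

theorem blk_boxE {m N D : ℕ} {x : Edg} (hx : x ∈ boxE m) (hD : m + D ≤ N) :
    blk (pos x) D ⊆ boxE N := by
  obtain ⟨p1, p2⟩ := pos_le hx
  rw [abs_le] at p1 p2
  unfold blk boxE
  exact RE_subset (by omega) (by omega) (by omega) (by omega)

theorem A4a_local {c : ℤ × ℤ} {r D : ℕ} {F F' : Finset Edg}
    (h : F ∩ (blk c D \ blk c r) = F' ∩ (blk c D \ blk c r)) :
    A4a c r D (↑F : Set Edg) ↔ A4a c r D (↑F' : Set Edg) := by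
  apply A4a_congr
  have := congrArg (fun G : Finset Edg => (↑G : Set Edg)) h
  simpa only [coe_inter] using this

theorem out {b : Bool} {N m : ℕ} {C a : ℝ} {t t' k : ℕ} {S : Finset Edg} {x : Edg}
    (hIn : In4 C) (hC : 0 < C) (ha : 144 * C ≤ a) (ha36 : 36 ≤ a) (ht : t + 1 ≤ t')
    (ht' : t' ≤ 2 * m) (hmN : 2 * m ≤ N) (hS : S ⊆ boxE m) (hx : x ∈ S)
    (hG : Good b N m false t (t + 1) (max (t + 1) (dm S)) a k S x) :
    Good b N m true t' (t + 1) (max t' (dm S)) a (k + 1) S x := by
  classical
  have ha0 : 0 ≤ a := by linarith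
  obtain ⟨Ev, par, rk, g1, g2, g3, g4⟩ := hG
  set s : ℕ := max (t + 1) (dm S) with hs
  have hs1 : 1 ≤ s := le_trans (by omega) (le_max_left _ _)
  set r : ℕ := dm S + t + 2 with hr
  set D : ℕ := t' / 2 with hD
  have hprod : 0 ≤ a ^ k * (∏ y ∈ S.erase x, ps (ds y (par y))) :=
    mul_nonneg (pow_nonneg ha0 k) (Finset.prod_nonneg (fun y _ => (ps_pos _).le))
  have hnbm : ∀ {i j : ℕ}, i ≤ j → nb S i ⊆ nb S j := by
    intro i j hij
    unfold nb
    apply Finset.biUnion_mono
    intro e _
    apply blk_sub <;> simp <;> omega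
  have hloc : ∀ F F' : Finset Edg, F ∩ (nb S (t' / 2) \ S) = F' ∩ (nb S (t' / 2) \ S) →
      (Ev F ↔ Ev F') := by
    intro F F' hFF
    apply g1
    have hsub : nb S (t / 2) \ S ⊆ nb S (t' / 2) \ S :=
      Finset.sdiff_subset_sdiff (hnbm (by omega)) le_rfl
    have e1 : F ∩ (nb S (t / 2) \ S) = (F ∩ (nb S (t' / 2) \ S)) ∩ (nb S (t / 2) \ S) := by
      rw [Finset.inter_assoc, Finset.inter_eq_right.mpr hsub]
    have e2 : F' ∩ (nb S (t / 2) \ S) = (F' ∩ (nb S (t' / 2) \ S)) ∩ (nb S (t / 2) \ S) := by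
      rw [Finset.inter_assoc, Finset.inter_eq_right.mpr hsub]
    rw [e1, e2, hFF]
  rcases le_or_gt r D with hrD | hrD
  · -- first case
    have hr1 : 1 ≤ r := by omega
    have hD1 : 1 ≤ D := by omega
    have hDN : blk (pos x) D ⊆ boxE N := blk_boxE (hS hx) (by omega)
    have hSb : S ⊆ blk (pos x) r := by
      intro e he
      apply mem_blk_of
      have := ds_le_dm he hx
      omega
    have hnbb : nb S (t / 2) ⊆ blk (pos x) r := by
      unfold nb
      rw [Finset.biUnion_subset]
      intro e he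
      have := ds_le_dm he hx
      unfold ds at this
      apply blk_sub <;> simp only [pos] <;> omega
    have hbig : blk (pos x) D ⊆ nb S (t' / 2) :=
      Finset.subset_biUnion_of_mem (fun e => blk (pos e) (t' / 2)) hx
    have hreg : blk (pos x) D \ blk (pos x) r ⊆ nb S (t' / 2) \ S := by
      intro e he
      obtain ⟨he1, he2⟩ := mem_sdiff.mp he
      exact mem_sdiff.mpr ⟨hbig he1, fun h => he2 (hSb h)⟩
    refine ⟨fun F => Ev F ∧ A4a (pos x) r D (↑F : Set Edg), par, rk, ?_, ?_, g3, ?_⟩
    · intro F F' hFF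
      have e1 := hloc F F' hFF
      have e2 : A4a (pos x) r D (↑F : Set Edg) ↔ A4a (pos x) r D (↑F' : Set Edg) := by
        apply A4a_local
        have e1 : F ∩ (blk (pos x) D \ blk (pos x) r) =
            (F ∩ (nb S (t' / 2) \ S)) ∩ (blk (pos x) D \ blk (pos x) r) := by
          rw [Finset.inter_assoc, Finset.inter_eq_right.mpr hreg]
        have e2 : F' ∩ (blk (pos x) D \ blk (pos x) r) =
            (F' ∩ (nb S (t' / 2) \ S)) ∩ (blk (pos x) D \ blk (pos x) r) := by
          rw [Finset.inter_assoc, Finset.inter_eq_right.mpr hreg]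
        rw [e1, e2, hFF]
      exact and_congr e1 e2
    · intro S' hSS' hne heS' hS' hfar F hF hQ
      refine ⟨g2 S' hSS' (fun h => absurd h (by decide)) heS' hS' (fun v hv w hw => ?_) F hF hQ, ?_⟩
      · have := hfar v hv w hw
        omega
      · have hne' := hne rfl
        have hfarD : ∀ w ∈ S' \ S, w ∉ blk (pos x) D := by
          intro w hw hwD
          have h1 := hfar x hx w hw
          have h2 := mem_blk_pos hwD
          rw [ds_comm] at h2
          omega
        refine det hrD hDN hQ heS' ?_ ⟨x, hSS' hx, hSb hx⟩ ?_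
        · intro g hg hgA
          obtain ⟨h1, h2⟩ := mem_sdiff.mp hgA
          by_cases hgS : g ∈ S
          · exact h2 (hSb hgS)
          · exact hfarD g (mem_sdiff.mpr ⟨hg, hgS⟩) h1
        · have hns : ¬ S' ⊆ S := fun h => hne' (Finset.Subset.antisymm hSS' h)
          rw [Finset.not_subset] at hns
          obtain ⟨w, hw1, hw2⟩ := hns
          exact ⟨w, hw1, hfarD w (mem_sdiff.mpr ⟨hw1, hw2⟩)⟩
    · -- probability
      have hind : PQ (1 / 2) (boxE N) (fun F => Ev F ∧ A4a (pos x) r D (↑F : Set Edg)) =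
          PQ (1 / 2) (boxE N) Ev * PQ (1 / 2) (boxE N) (fun F => A4a (pos x) r D (↑F : Set Edg)) := by
        refine Pr_indep (S := (nb S (t / 2) \ S) ∩ boxE N)
          (T := (blk (pos x) D \ blk (pos x) r) ∩ boxE N) inter_subset_right
          inter_subset_right ?_ ?_ ?_
        · rw [Finset.disjoint_left]
          intro e he1 he2
          exact (mem_sdiff.mp (mem_inter.mp he2).1).2
            (hnbb (mem_sdiff.mp (mem_inter.mp he1).1).1)
        · intro F hF
          apply g1
          rw [Finset.inter_assoc, Finset.inter_assoc, Finset.inter_comm (boxE N),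
            ← Finset.inter_assoc (nb S (t / 2) \ S), Finset.inter_self,
            Finset.inter_comm (nb S (t / 2) \ S), ← Finset.inter_assoc,
            Finset.inter_eq_left.mpr hF]
        · intro F hF
          apply A4a_local
          rw [Finset.inter_assoc, Finset.inter_assoc, Finset.inter_comm (boxE N),
            ← Finset.inter_assoc (blk (pos x) D \ blk (pos x) r), Finset.inter_self,
            Finset.inter_comm (blk (pos x) D \ blk (pos x) r), ← Finset.inter_assoc,
            Finset.inter_eq_left.mpr hF]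
      rw [hind]
      have c3 := hIn (pos x) r D hr1 hrD (boxE N) hDN
      have hr3 : r ≤ 3 * s := by
        rw [hs, hr]; omega
      have hmax : max t' (dm S) = t' := by
        apply max_eq_left
        omega
      have u1 : ps s ≤ ((3:ℕ):ℝ) ^ 2 * ps r := ps_cmp (by norm_num) (by omega)
      have u2 : ps D ≤ ((4:ℕ):ℝ) ^ 2 * ps t' := ps_cmp (by norm_num) (by omega)
      have m2 := ps_ratio hr1 hrD
      push_cast at u1 u2
      rw [hmax, pow_succ]
      have z1 := (ps_pos s).le
      have z2 := (ps_pos r).le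
      have z4 := (ps_pos t').le
      have z3 : 0 ≤ ((r:ℝ) / D) ^ (5 / 4 : ℝ) := by positivity
      have u3 : ps s * (C * ((r:ℝ) / D) ^ (5 / 4 : ℝ)) ≤ 144 * C * ps t' := by
        calc ps s * (C * ((r:ℝ) / D) ^ (5 / 4 : ℝ))
            ≤ (3 ^ 2 * ps r) * (C * ((r:ℝ) / D) ^ (5 / 4 : ℝ)) :=
              mul_le_mul_of_nonneg_right u1 (by positivity)
          _ = 9 * C * ps D := by rw [← m2]; ring
          _ ≤ 9 * C * (4 ^ 2 * ps t') :=
              mul_le_mul_of_nonneg_left u2 (by positivity)
          _ = 144 * C * ps t' := by ring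
      calc PQ (1 / 2) (boxE N) Ev * PQ (1 / 2) (boxE N) (fun F => A4a (pos x) r D (↑F : Set Edg))
          ≤ (a ^ k * (∏ y ∈ S.erase x, ps (ds y (par y))) * ps s) *
            (C * ((r:ℝ) / D) ^ (5 / 4 : ℝ)) :=
            mul_le_mul g4 c3 (Pr_nonneg okh _ _) (mul_nonneg hprod z1)
        _ = a ^ k * (∏ y ∈ S.erase x, ps (ds y (par y))) *
            (ps s * (C * ((r:ℝ) / D) ^ (5 / 4 : ℝ))) := by ring
        _ ≤ a ^ k * (∏ y ∈ S.erase x, ps (ds y (par y))) *
            (144 * C * ps t') := mul_le_mul_of_nonneg_left u3 hprod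
        _ ≤ a ^ k * (∏ y ∈ S.erase x, ps (ds y (par y))) *
            (a * ps t') := by
            apply mul_le_mul_of_nonneg_left _ hprod
            exact mul_le_mul_of_nonneg_right ha z4
        _ = a ^ k * a * (∏ y ∈ S.erase x, ps (ds y (par y))) * ps t' := by
            ring
  · -- second case
    refine ⟨Ev, par, rk, hloc, ?_, g3, ?_⟩
    · intro S' hSS' hne heS' hS' hfar F hF hQ
      refine g2 S' hSS' (fun h => absurd h (by decide)) heS' hS' (fun v hv w hw => ?_) F hF hQ
      have := hfar v hv w hw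
      omega
    · have u1 : ps s ≤ ((6:ℕ):ℝ) ^ 2 * ps (max t' (dm S)) := ps_cmp (by norm_num) (by omega)
      push_cast at u1
      rw [pow_succ]
      have z4 := (ps_pos (max t' (dm S))).le
      calc PQ (1 / 2) (boxE N) Ev
          ≤ a ^ k * (∏ y ∈ S.erase x, ps (ds y (par y))) * ps s := g4
        _ ≤ a ^ k * (∏ y ∈ S.erase x, ps (ds y (par y))) * (a * ps (max t' (dm S))) := by
            apply mul_le_mul_of_nonneg_left _ hprod
            calc ps s ≤ 36 * ps (max t' (dm S)) := by linarith
              _ ≤ a * ps (max t' (dm S)) := mul_le_mul_of_nonneg_right ha36 z4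
        _ = a ^ k * a * (∏ y ∈ S.erase x, ps (ds y (par y))) * ps (max t' (dm S)) := by
            ring

/-- BASE: all the edges at one position. -/
theorem base {b : Bool} {N m : ℕ} {C a : ℝ} {t' : ℕ} {S : Finset Edg} {x : Edg}
    (hIn : In4 C) (hC : 0 < C) (ha : 16 * C ≤ a) (ha16 : 16 ≤ a)
    (ht' : t' ≤ 2 * m) (hmN : 2 * m ≤ N) (hS : S ⊆ boxE m) (hx : x ∈ S)
    (hall : ∀ y ∈ S, ds y x = 0) :
    Good b N m true t' 0 (max t' (dm S)) a 1 S x := by
  classical
  have hdm : dm S = 0 := by
    have : dm S ≤ 0 := by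
      apply dm_le_of
      intro p hp q hq
      have h1 := ds_tri p x q
      have h2 := hall p hp
      have h3 := hall q hq
      rw [ds_comm] at h3
      omega
    omega
  rw [hdm, max_eq_left (Nat.zero_le _)]
  have hprod : ∏ y ∈ S.erase x, ps (ds y ((fun _ => x) y)) = 1 := by
    refine Finset.prod_eq_one fun y hy => ?_
    have h1 := hall y (Finset.mem_of_mem_erase hy)
    simp only [h1]
    exact ps_zero
  have htree : ∀ y ∈ S, y ≠ x → (fun _ => x) y ∈ S ∧
      (fun y => if y = x then 0 else 1) ((fun _ => x) y) < (fun y => if y = x then 0 else 1) y ∧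
      ds y ((fun _ => x) y) ≤ 0 := by
    intro y hy hyx
    refine ⟨hx, ?_, (hall y hy).le⟩
    simp [hyx]
  have hSb : S ⊆ blk (pos x) 1 := by
    intro e he
    apply mem_blk_of
    rw [hall e he]
    norm_num
  set D : ℕ := t' / 2 with hD
  by_cases hD1 : 1 ≤ D
  · have hDN : blk (pos x) D ⊆ boxE N := blk_boxE (hS hx) (by omega)
    refine ⟨fun F => A4a (pos x) 1 D (↑F : Set Edg), fun _ => x, fun y => if y = x then 0 else 1,
      ?_, ?_, htree, ?_⟩
    · intro F F' hFF
      apply A4a_local
      have hreg : blk (pos x) D \ blk (pos x) 1 ⊆ nb S (t' / 2) \ S := by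
        intro e he
        obtain ⟨he1, he2⟩ := mem_sdiff.mp he
        exact mem_sdiff.mpr ⟨(Finset.subset_biUnion_of_mem (fun e => blk (pos e) (t' / 2)) hx) he1,
          fun h => he2 (hSb h)⟩
      have e1 : F ∩ (blk (pos x) D \ blk (pos x) 1) =
          (F ∩ (nb S (t' / 2) \ S)) ∩ (blk (pos x) D \ blk (pos x) 1) := by
        rw [Finset.inter_assoc, Finset.inter_eq_right.mpr hreg]
      have e2 : F' ∩ (blk (pos x) D \ blk (pos x) 1) =
          (F' ∩ (nb S (t' / 2) \ S)) ∩ (blk (pos x) D \ blk (pos x) 1) := by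
        rw [Finset.inter_assoc, Finset.inter_eq_right.mpr hreg]
      rw [e1, e2, hFF]
    · intro S' hSS' hne heS' hS' hfar F hF hQ
      have hne' := hne rfl
      have hfarD : ∀ w ∈ S' \ S, w ∉ blk (pos x) D := by
        intro w hw hwD
        have h1 := hfar x hx w hw
        have h2 := mem_blk_pos hwD
        rw [ds_comm] at h2
        omega
      refine det hD1 hDN hQ heS' ?_ ⟨x, hSS' hx, hSb hx⟩ ?_
      · intro g hg hgA
        obtain ⟨h1, h2⟩ := mem_sdiff.mp hgA
        by_cases hgS : g ∈ S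
        · exact h2 (hSb hgS)
        · exact hfarD g (mem_sdiff.mpr ⟨hg, hgS⟩) h1
      · have hns : ¬ S' ⊆ S := fun h => hne' (Finset.Subset.antisymm hSS' h)
        rw [Finset.not_subset] at hns
        obtain ⟨w, hw1, hw2⟩ := hns
        exact ⟨w, hw1, hfarD w (mem_sdiff.mpr ⟨hw1, hw2⟩)⟩
    · rw [hprod, pow_one, mul_one]
      have h1 := hIn (pos x) 1 D le_rfl hD1 (boxE N) hDN
      have h2 := ps_ratio le_rfl hD1
      have h3 : ps 1 = 1 := by unfold ps; simp
      rw [h3, one_mul] at h2
      rw [h2] at h1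
      have u2 : ps D ≤ ((4:ℕ):ℝ) ^ 2 * ps t' := ps_cmp (by norm_num) (by omega)
      push_cast at u2
      have z4 := (ps_pos t').le
      calc _ ≤ C * ps D := h1
        _ ≤ C * (4 ^ 2 * ps t') := mul_le_mul_of_nonneg_left u2 hC.le
        _ = 16 * C * ps t' := by ring
        _ ≤ a * ps t' := mul_le_mul_of_nonneg_right ha z4
  · refine ⟨fun _ => True, fun _ => x, fun y => if y = x then 0 else 1, ?_, ?_, htree, ?_⟩
    · intro F F' _
      rfl
    · intros
      trivial
    · rw [hprod, pow_one, mul_one]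
      have h0 : PQ (1 / 2) (boxE N) (fun _ => True) ≤ 1 := Pr_le_one okh _ _
      have u2 : ps 0 ≤ ((4:ℕ):ℝ) ^ 2 * ps t' := ps_cmp (by norm_num) (by omega)
      rw [ps_zero] at u2
      push_cast at u2
      have z4 := (ps_pos t').le
      have : 16 * ps t' ≤ a * ps t' := mul_le_mul_of_nonneg_right ha16 z4
      linarith

/-- The induction over the scales. -/
theorem key {C : ℝ} (hIn : In4 C) (hC : 0 < C) : ∃ a : ℝ, 1 ≤ a ∧
    ∀ (b : Bool) (N m : ℕ), 2 * m ≤ N → ∀ t : ℕ,
    (∀ (t' : ℕ) (S : Finset Edg) (x : Edg), t ≤ t' → t' ≤ 2 * m → S ⊆ boxE m → x ∈ S →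
      conn t S → Good b N m true t' t (max t' (dm S)) a (4 * S.card - 3) S x) ∧
    (∀ (S : Finset Edg) (x : Edg), t ≤ 2 * m → S ⊆ boxE m → x ∈ S → conn (t + 1) S →
      cmp t S x ≠ S →
      Good b N m false t (t + 1) (max (t + 1) (dm S)) a (4 * S.card - 4) S x) := by
  classical
  obtain ⟨a, ha1, ha2, ha3⟩ : ∃ a : ℝ, 144 * C ≤ a ∧ 36 ≤ a ∧ 16 * C ≤ a :=
    ⟨max (144 * C) 36, le_max_left _ _, le_max_right _ _,
      le_trans (by linarith) (le_max_left _ _)⟩
  have ha : 1 ≤ a := by linarith
  refine ⟨a, ha, ?_⟩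
  intro b N m hmN
  -- growth from the bound for the components
  have growth : ∀ t : ℕ, (∀ (t' : ℕ) (S : Finset Edg) (x : Edg), t ≤ t' → t' ≤ 2 * m →
      S ⊆ boxE m → x ∈ S → conn t S →
      Good b N m true t' t (max t' (dm S)) a (4 * S.card - 3) S x) →
    (∀ (S : Finset Edg) (x : Edg), t ≤ 2 * m → S ⊆ boxE m → x ∈ S → conn (t + 1) S →
      cmp t S x ≠ S →
      Good b N m false t (t + 1) (max (t + 1) (dm S)) a (4 * S.card - 4) S x) := by
    intro t ih S x ht hS hx hc hall
    have hcmp : ∀ y ∈ S, Good b N m true t (t + 1) (max t (dm (cmp t S y))) a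
        (4 * (cmp t S y).card - 3) (cmp t S y) y := by
      intro y hy
      exact good_mono (ih t (cmp t S y) y le_rfl ht ((cmp_sub t S y).trans hS)
        (self_cmp hy) (cmp_conn hy)) (Nat.le_succ t) le_rfl ha
    have grow : ∀ n : ℕ, ∀ (st : Bool) (U : Finset Edg), (S \ U).card = n → U ⊆ S → U ≠ S →
        x ∈ U → (∀ y ∈ U, ∀ z ∈ S, z ∉ U → t < ds y z) →
        Good b N m st t (t + 1) (max (t + 1) (dm U)) a (4 * U.card - 2) U x →
        Good b N m false t (t + 1) (max (t + 1) (dm S)) a (4 * S.card - 4) S x := by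
      intro n
      induction n using Nat.strong_induction_on with
      | _ n ihm =>
        intro st U hUm hUS hUne hxU hcl hG
        have hne : (S \ U).Nonempty := by
          rw [Finset.sdiff_nonempty]
          intro h
          exact hUne (Finset.Subset.antisymm hUS h)
        obtain ⟨u, hu, v, hv', huv⟩ := hc U hUS ⟨x, hxU⟩ hne
        obtain ⟨hvS, hvU⟩ := Finset.mem_sdiff.1 hv'
        have hRS := cmp_sub t S v
        have hvR : v ∈ cmp t S v := self_cmp hvS
        have hRU : ∀ z ∈ cmp t S v, z ∉ U := by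
          refine cmp_ind hvS hvU ?_
          intro p hp w hw hpU hpw hwU
          have := hcl w hwU p (hRS hp) hpU
          rw [ds_comm] at this
          omega
        have hdisj : Disjoint U (cmp t S v) := by
          rw [Finset.disjoint_right]
          exact hRU
        have hfar : ∀ y ∈ U, ∀ w ∈ cmp t S v, t < ds y w := fun y hy w hw =>
          hcl y hy w (hRS hw) (hRU w hw)
        have hM := merge (b := b) (N := N) (m := m) (st := st) (v := v) (u := u) ha2 hxU hu hvR
          (by rw [ds_comm]; exact huv) hfar hG (hcmp v hvS)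
        have hcard : (U ∪ cmp t S v).card = U.card + (cmp t S v).card :=
          Finset.card_union_of_disjoint hdisj
        have hc1 : 1 ≤ U.card := Finset.card_pos.2 ⟨x, hxU⟩
        have hc2 : 1 ≤ (cmp t S v).card := Finset.card_pos.2 ⟨v, hvR⟩
        have e : 4 * U.card - 2 + (4 * (cmp t S v).card - 3) + 1 =
            4 * (U ∪ cmp t S v).card - 4 := by omega
        rw [e] at hM
        have hU'S : U ∪ cmp t S v ⊆ S := Finset.union_subset hUS hRS
        by_cases hfin : U ∪ cmp t S v = S
        · rw [hfin] at hM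
          exact hM
        · refine ihm (S \ (U ∪ cmp t S v)).card ?_ false (U ∪ cmp t S v) rfl hU'S hfin
            (Finset.mem_union_left _ hxU) ?_ (good_mono hM le_rfl (by omega) ha)
          · rw [← hUm]
            apply Finset.card_lt_card
            rw [Finset.ssubset_iff_of_subset
              (Finset.sdiff_subset_sdiff (Finset.Subset.refl S) Finset.subset_union_left)]
            exact ⟨v, hv', fun h => (Finset.mem_sdiff.1 h).2 (Finset.mem_union_right _ hvR)⟩
          · intro y hy z hz hzn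
            rw [Finset.mem_union, not_or] at hzn
            rcases Finset.mem_union.1 hy with hy | hy
            · exact hcl y hy z hz hzn.1
            · exact cmp_far hy hz hzn.2
    have h1 := start (by linarith) (hcmp x hx)
    have hc1 : 1 ≤ (cmp t S x).card := Finset.card_pos.2 ⟨x, self_cmp hx⟩
    have e1 : 4 * (cmp t S x).card - 3 + 1 = 4 * (cmp t S x).card - 2 := by omega
    rw [e1] at h1
    exact grow _ true (cmp t S x) rfl (cmp_sub t S x) hall (self_cmp hx)
      (fun y hy z hz hzn => cmp_far hy hz hzn) h1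
  intro t
  induction t with
  | zero =>
    refine ⟨?_, ?_⟩
    · intro t' S x _ ht' hS hx hc
      have h0 : ∀ y ∈ S, ds y x = 0 := by
        by_contra hcon
        push Not at hcon
        obtain ⟨z, hz, hzx⟩ := hcon
        obtain ⟨u, hu, v, hv, huv⟩ := hc (S.filter (fun y => ds y x = 0))
          (Finset.filter_subset _ _) ⟨x, Finset.mem_filter.2 ⟨hx, ds_self x⟩⟩
          ⟨z, Finset.mem_sdiff.2 ⟨hz, fun h => hzx (Finset.mem_filter.1 h).2⟩⟩
        rw [Finset.mem_filter] at hu
        rw [Finset.mem_sdiff, Finset.mem_filter] at hv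
        exact hv.2 ⟨hv.1, ds_zero (Nat.le_zero.1 huv) hu.2⟩
      have hcard : 1 ≤ S.card := Finset.card_pos.2 ⟨x, hx⟩
      exact good_mono (base hIn hC ha3 (by linarith) ht' hmN hS hx h0) le_rfl (by omega) ha
    · refine growth 0 ?_
      intro t' S x _ ht' hS hx hc
      have h0 : ∀ y ∈ S, ds y x = 0 := by
        by_contra hcon
        push Not at hcon
        obtain ⟨z, hz, hzx⟩ := hcon
        obtain ⟨u, hu, v, hv, huv⟩ := hc (S.filter (fun y => ds y x = 0))
          (Finset.filter_subset _ _) ⟨x, Finset.mem_filter.2 ⟨hx, ds_self x⟩⟩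
          ⟨z, Finset.mem_sdiff.2 ⟨hz, fun h => hzx (Finset.mem_filter.1 h).2⟩⟩
        rw [Finset.mem_filter] at hu
        rw [Finset.mem_sdiff, Finset.mem_filter] at hv
        exact hv.2 ⟨hv.1, ds_zero (Nat.le_zero.1 huv) hu.2⟩
      have hcard : 1 ≤ S.card := Finset.card_pos.2 ⟨x, hx⟩
      exact good_mono (base hIn hC ha3 (by linarith) ht' hmN hS hx h0) le_rfl (by omega) ha
  | succ t ih =>
    obtain ⟨ih1, ih2⟩ := ih
    have part1 : ∀ (t' : ℕ) (S : Finset Edg) (x : Edg), t + 1 ≤ t' → t' ≤ 2 * m →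
        S ⊆ boxE m → x ∈ S → conn (t + 1) S →
        Good b N m true t' (t + 1) (max t' (dm S)) a (4 * S.card - 3) S x := by
      intro t' S x htt' ht' hS hx hc
      by_cases hall : cmp t S x = S
      · have hct : conn t S := by
          rw [← hall]
          exact cmp_conn hx
        exact good_mono (ih1 t' S x (by omega) ht' hS hx hct) (Nat.le_succ t) le_rfl ha
      · have h2 := ih2 S x (by omega) hS hx hc hall
        have h3 := out hIn hC ha1 ha2 htt' ht' hmN hS hx h2
        have hc3 : 1 ≤ S.card := Finset.card_pos.2 ⟨x, hx⟩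
        exact good_mono h3 le_rfl (by omega) ha
    exact ⟨part1, growth (t + 1) part1⟩

end Pool.Agent.Helper859.AU
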