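import Pool.Agent.Helper859_AU.Taylor
import Pool.Agent.H974R2.Infinite

/-!
The connection probability of the ends of an edge off the edge, in the whole lattice.
-/

set_option autoImplicit false

namespace Pool.Agent.Helper859.AU

open H974 H12S H389NS Finset Filter Topology

/-- The limit of the connection probabilities. -/
noncomputable def hI (b : Bool) (p : ℝ) : ℝ := ⨆ N, hN b N p

theorem okc {p : ℝ} (h0 : 0 ≤ p) (h1 : p ≤ 1) : Ok (fun _ : Edg => p) := fun _ => ⟨h0, h1⟩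

theorem hN_nonneg {b : Bool} {N : ℕ} {p : ℝ} (h0 : 0 ≤ p) (h1 : p ≤ 1) : 0 ≤ hN b N p :=
  Pr_nonneg (okc h0 h1) _ _

theorem hN_le_one {b : Bool} {N : ℕ} {p : ℝ} (h0 : 0 ≤ p) (h1 : p ≤ 1) : hN b N p ≤ 1 :=
  Pr_le_one (okc h0 h1) _ _

theorem hN_mono {b : Bool} {N M : ℕ} (h : N ≤ M) {p : ℝ} (h0 : 0 ≤ p) (h1 : p ≤ 1) :
    hN b N p ≤ hN b M p := by
  unfold hN
  have e1 : PQ p (boxE M) (fun F => XN b N (↑F : Set Edg)) =
      PQ p (boxE N) (fun F => XN b N (↑F : Set Edg)) :=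
    Pr_local (boxE_mono h) (A := fun F : Finset Edg => XN b N (↑F : Set Edg))
      (fun F _ => XN_loc)
  rw [← e1]
  exact Pr_mono (okc h0 h1) fun F _ hF => XN_box h hF

theorem hN_bdd {b : Bool} {p : ℝ} (h0 : 0 ≤ p) (h1 : p ≤ 1) :
    BddAbove (Set.range fun N => hN b N p) := by
  refine ⟨1, ?_⟩
  rintro _ ⟨N, rfl⟩
  exact hN_le_one h0 h1

theorem hN_tendsto (b : Bool) {p : ℝ} (h0 : 0 ≤ p) (h1 : p ≤ 1) :
    Tendsto (fun N => hN b N p) atTop (𝓝 (hI b p)) :=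
  tendsto_atTop_ciSup (fun _ _ h => hN_mono h h0 h1) (hN_bdd h0 h1)

theorem hN_le_hI {b : Bool} {N : ℕ} {p : ℝ} (h0 : 0 ≤ p) (h1 : p ≤ 1) : hN b N p ≤ hI b p :=
  le_ciSup (hN_bdd h0 h1) N

theorem hI_le_one {b : Bool} {p : ℝ} (h0 : 0 ≤ p) (h1 : p ≤ 1) : hI b p ≤ 1 :=
  ciSup_le fun _ => hN_le_one h0 h1

theorem hI_nonneg {b : Bool} {p : ℝ} (h0 : 0 ≤ p) (h1 : p ≤ 1) : 0 ≤ hI b p :=
  (hN_nonneg (N := 0) h0 h1).trans (hN_le_hI h0 h1)

theorem e0_mem {b : Bool} {m : ℕ} (hm : 1 ≤ m) : e0 b ∈ boxE m := by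
  unfold boxE e0
  cases b
  · rw [mem_RE_false]; omega
  · rw [mem_RE_true]; omega

/-- Four arms need a long open path and a long closed path. -/
theorem A4_arm {b : Bool} {m : ℕ} (hm : 1 ≤ m) {p : ℝ} (h0 : 0 ≤ p) (h1 : p ≤ 1) :
    PQ p (boxE m) (fun F => A4 (-m) m (-m) m (e0 b) (↑F : Set Edg)) ≤ arm (1 / 2) m := by
  rcases le_total p (1 / 2) with hp | hp
  · refine le_trans ?_ (arm_mono_param h0 hp (by norm_num) m)
    refine le_trans (Pr_mono (okc h0 h1) ?_) (arm_bound h0 h1 (boxE m) (0, 0) m)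
    rintro F _ ⟨⟨w, hw, hr⟩, _, _⟩
    refine ⟨w, ?_, ?_⟩
    · have := hw.2
      simp only
      omega
    · have e : src (e0 b) = (0, 0) := rfl
      rw [e] at hr
      exact hr.mono (fun g hg => hg.1.1)
  · have h2 : arm (1 - p) m ≤ arm (1 / 2) m :=
      arm_mono_param (by linarith) (by linarith) (by norm_num) m
    refine le_trans ?_ h2
    have h3 := arm_bound (q := 1 - p) (by linarith) (by linarith) (dmp (boxE m)) (0, 0) m
    rw [pr_dmp, Pr_compl] at h3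
    refine le_trans (Pr_mono (okc h0 h1) ?_) h3
    rintro F hF ⟨⟨w, hw, hr⟩, ⟨w', hw', hr'⟩, hn⟩
    have hsub : ((↑F : Set Edg) ∩ ↑(RE (-(m:ℤ)) m (-(m:ℤ)) m)) \ {e0 b} ⊆
        ↑(RE (-(m:ℤ)) m (-(m:ℤ)) m) := fun g hg => hg.1.2
    obtain ⟨g, hg, hd⟩ := dual_arm hsub (e := e0 b) (e0_mem hm) (fun h => h.2 rfl)
      ⟨w, hw, hr⟩ ⟨w', hw', hr'⟩ hn (f0 := dtgt (e0 b)) (f1 := dsrc (e0 b)) (Or.inr ⟨rfl, rfl⟩)
    refine ⟨g, ?_, ?_⟩
    · unfold outF at hg
      have hg' : g.1 < -(m:ℤ) ∨ (m:ℤ) ≤ g.1 ∨ g.2 < -(m:ℤ) ∨ (m:ℤ) ≤ g.2 := hg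
      simp only
      omega
    · rw [coe_dmp, reach_dl]
      have e : dtgt (e0 b) = (0, 0) := rfl
      rw [e] at hd
      refine hd.mono ?_
      rintro x ⟨⟨x1, x2⟩, x3⟩
      rw [Finset.mem_coe, Finset.mem_sdiff]
      refine ⟨x1, fun hx => x2 ⟨⟨mem_coe.2 hx, x1⟩, x3⟩⟩

theorem arm_half_lim : Tendsto (fun m : ℕ => arm (1 / 2) m) atTop (𝓝 0) := by
  have h1 : ∀ K : ℕ, ∀ m, RR K ≤ m → arm (1 / 2) m ≤ (1 - (1/2 : ℝ)^188)^K := fun K m hm =>
    (arm_anti (by norm_num) (by norm_num) hm).trans (arm_decay K)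
  have h2 : Tendsto (fun K : ℕ => (1 - (1/2 : ℝ)^188)^K) atTop (𝓝 0) :=
    tendsto_pow_atTop_nhds_zero_of_lt_one (by norm_num) (by norm_num)
  rw [Metric.tendsto_atTop] at h2 ⊢
  intro ε hε
  obtain ⟨K, hK⟩ := h2 ε hε
  refine ⟨RR K, fun m hm => ?_⟩
  have h3 := hK K le_rfl
  rw [Real.dist_eq, sub_zero] at h3 ⊢
  rw [abs_of_nonneg (arm_nonneg (by norm_num) (by norm_num) m)]
  exact ((h1 K m hm).trans (le_abs_self _)).trans_lt h3

theorem hI_sub_le {b : Bool} {m : ℕ} (hm : 1 ≤ m) {p : ℝ} (h0 : 0 ≤ p) (h1 : p ≤ 1) :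
    hI b p ≤ hN b m p + arm (1 / 2) m := by
  refine ciSup_le fun N => ?_
  rcases le_total N m with h | h
  · have := hN_mono (b := b) h h0 h1
    have := arm_nonneg (q := 1 / 2) (by norm_num) (by norm_num) m
    linarith
  · have h2 := (trunc (b := b) hm h (okc h0 h1) (q := p) (fun _ _ => rfl)).2
    have h3 := A4_arm (b := b) hm h0 h1
    unfold hN
    unfold PQ at h2 h3 ⊢
    linarith

theorem Pr_continuous (S : Finset Edg) (A : Finset Edg → Prop) :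
    Continuous (fun p : ℝ => Pr (fun _ => p) S A) := by
  unfold Pr Ex
  apply continuous_finsetSum
  intro F _
  simp only [Finset.prod_const]
  fun_prop

theorem hI_cont (b : Bool) : ContinuousOn (hI b) (Set.Icc 0 1) := by
  have hunif : TendstoUniformlyOn (fun N p => hN b N p) (hI b) atTop (Set.Icc (0:ℝ) 1) := by
    rw [Metric.tendstoUniformlyOn_iff]
    intro ε hε
    have h2 := arm_half_lim
    rw [Metric.tendsto_atTop] at h2
    obtain ⟨K, hK⟩ := h2 ε hε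
    filter_upwards [eventually_ge_atTop (max 1 K)] with m hm p hp
    have hm1 : 1 ≤ m := le_trans (le_max_left _ _) hm
    have h3 := hK m (le_trans (le_max_right _ _) hm)
    rw [Real.dist_eq, sub_zero] at h3
    rw [Real.dist_eq, abs_of_nonneg (by linarith [hN_le_hI (b := b) (N := m) hp.1 hp.2])]
    have h4 := hI_sub_le (b := b) hm1 hp.1 hp.2
    have h5 := le_abs_self (arm (1 / 2) m)
    linarith
  refine hunif.continuousOn (Filter.Eventually.frequently (Eventually.of_forall fun N => ?_))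
  exact (Pr_continuous _ _).continuousOn

/-- Affine approximation in the infinite lattice. -/
theorem affineI : ∃ c C : ℝ, 0 < c ∧ c ≤ 1 / 4 ∧ 0 < C ∧ ∀ (b : Bool) (m : ℕ), 1 ≤ m →
    ∃ T : ℝ, ∀ z : ℝ, |z| ≤ c * (m:ℝ) ^ (-(3 / 4) : ℝ) →
      |hI b (1 / 2 + z) - hI b (1 / 2) - z * T| ≤ C * (m:ℝ) ^ (-(5 / 4) : ℝ) := by
  obtain ⟨c, C, hc, hc4, hC, h⟩ := affine
  refine ⟨c, C, hc, hc4, hC, ?_⟩
  intro b m hm
  choose T hT using fun N : ℕ => fun h' : 2 * m ≤ N => h b m N hm h'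
  have hm0 : (0:ℝ) < m := by exact_mod_cast hm
  have hm1 : (1:ℝ) ≤ m := by exact_mod_cast hm
  obtain ⟨r, hr⟩ : ∃ r : ℝ, r = c * (m:ℝ) ^ (-(3 / 4) : ℝ) := ⟨_, rfl⟩
  have hr0 : 0 < r := by rw [hr]; positivity
  have hr4 : r ≤ 1 / 4 := by
    rw [hr]
    have : (m:ℝ) ^ (-(3 / 4) : ℝ) ≤ 1 := Real.rpow_le_one_of_one_le_of_nonpos hm1 (by norm_num)
    have h2 : 0 < (m:ℝ) ^ (-(3 / 4) : ℝ) := by positivity
    nlinarith
  obtain ⟨E, hE⟩ : ∃ E : ℝ, E = C * (m:ℝ) ^ (-(5 / 4) : ℝ) := ⟨_, rfl⟩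
  rw [← hE, ← hr]
  rw [← hE, ← hr] at hT
  -- bounded slopes
  have hTb : ∀ n : ℕ, T (2 * m + n) (by omega) ∈ Set.Icc (-((1 + E) / r)) ((1 + E) / r) := by
    intro n
    have h1 := hT (2 * m + n) (by omega) r (by rw [abs_of_pos hr0])
    have h2 := hN_le_one (b := b) (N := 2 * m + n) (p := 1 / 2 + r) (by linarith) (by linarith)
    have h3 := hN_nonneg (b := b) (N := 2 * m + n) (p := 1 / 2 + r) (by linarith) (by linarith)
    have h4 := hN_le_one (b := b) (N := 2 * m + n) (p := 1 / 2) (by norm_num) (by norm_num)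
    have h5 := hN_nonneg (b := b) (N := 2 * m + n) (p := 1 / 2) (by norm_num) (by norm_num)
    rw [abs_le] at h1
    rw [Set.mem_Icc]
    constructor
    · rw [neg_le, le_div_iff₀ hr0]
      linarith
    · rw [le_div_iff₀ hr0]
      linarith
  obtain ⟨T0, _, φ, hφ, hlim⟩ := isCompact_Icc.tendsto_subseq hTb
  refine ⟨T0, fun z hz => ?_⟩
  have hz4 : |z| ≤ 1 / 4 := hz.trans hr4
  rw [abs_le] at hz4
  have t1 : Tendsto (fun k => hN b (2 * m + φ k) (1 / 2 + z)) atTop (𝓝 (hI b (1 / 2 + z))) :=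
    (hN_tendsto b (by linarith [hz4.1]) (by linarith [hz4.2])).comp
      (tendsto_atTop_mono (fun k => Nat.le_add_left _ _) hφ.tendsto_atTop)
  have t2 : Tendsto (fun k => hN b (2 * m + φ k) (1 / 2)) atTop (𝓝 (hI b (1 / 2))) :=
    (hN_tendsto b (by norm_num) (by norm_num)).comp
      (tendsto_atTop_mono (fun k => Nat.le_add_left _ _) hφ.tendsto_atTop)
  have t3 := ((t1.sub t2).sub (hlim.const_mul z)).abs
  refine le_of_tendsto t3 (Eventually.of_forall fun k => ?_)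
  exact hT (2 * m + φ k) (by omega) z hz

/-- **Expansion of the connection probability at the critical point.** -/
theorem hI_half : ∃ C : ℝ, 0 < C ∧ ∀ b : Bool, ∃ T : ℝ, ∀ p : ℝ, 0 ≤ p → p ≤ 1 →
    |hI b p - hI b (1 / 2) - (p - 1 / 2) * T| ≤ C * |p - 1 / 2| ^ (5 / 3 : ℝ) := by
  obtain ⟨c, C, hc, hc4, hC, h⟩ := affineI
  have hb : ∀ b : Bool, ∃ T C' : ℝ, 0 < C' ∧ ∀ p : ℝ, 0 ≤ p → p ≤ 1 →
      |hI b p - hI b (1 / 2) - (p - 1 / 2) * T| ≤ C' * |p - 1 / 2| ^ (5 / 3 : ℝ) := by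
    intro b
    obtain ⟨T, C', hC', h1⟩ := camp (fun z => hI b (1 / 2 + z)) c C hc hC.le (by
      intro j
      obtain ⟨T, hT⟩ := h b (2 ^ j) Nat.one_le_two_pow
      refine ⟨T, fun z hz => ?_⟩
      have := hT z (by push_cast; exact hz)
      simp only [add_zero]
      push_cast at this
      exact this)
    refine ⟨T, C' + (1 + |T|) / c ^ (5 / 3 : ℝ), by positivity, ?_⟩
    intro p h0 h1'
    have hx : 0 ≤ |p - 1 / 2| ^ (5 / 3 : ℝ) := by positivity
    by_cases hp : |p - 1 / 2| ≤ c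
    · have h2 := h1 (p - 1 / 2) hp
      simp only [add_zero, add_sub_cancel] at h2
      refine h2.trans ?_
      have : 0 ≤ (1 + |T|) / c ^ (5 / 3 : ℝ) := by positivity
      nlinarith
    · push Not at hp
      have h2 : c ^ (5 / 3 : ℝ) ≤ |p - 1 / 2| ^ (5 / 3 : ℝ) :=
        Real.rpow_le_rpow hc.le hp.le (by norm_num)
      have h3 : 0 < c ^ (5 / 3 : ℝ) := by positivity
      have h4 : 1 + |T| ≤ (1 + |T|) / c ^ (5 / 3 : ℝ) * |p - 1 / 2| ^ (5 / 3 : ℝ) := by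
        rw [div_mul_eq_mul_div, le_div_iff₀ h3]
        exact mul_le_mul_of_nonneg_left h2 (by positivity)
      have h5 : |hI b p - hI b (1 / 2) - (p - 1 / 2) * T| ≤ 1 + |T| := by
        have a1 := hI_le_one (b := b) h0 h1'
        have a2 := hI_nonneg (b := b) h0 h1'
        have a3 := hI_le_one (b := b) (p := 1 / 2) (by norm_num) (by norm_num)
        have a4 := hI_nonneg (b := b) (p := 1 / 2) (by norm_num) (by norm_num)
        have a5 : |hI b p - hI b (1 / 2)| ≤ 1 := by rw [abs_le]; constructor <;> linarith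
        have a6 : |(p - 1 / 2) * T| ≤ |T| := by
          rw [abs_mul]
          have : |p - 1 / 2| ≤ 1 := by rw [abs_le]; constructor <;> linarith
          have := abs_nonneg T
          nlinarith
        exact (abs_sub _ _).trans (by linarith)
      have : 0 ≤ C' * |p - 1 / 2| ^ (5 / 3 : ℝ) := by positivity
      nlinarith
  choose T C' hC' hT using hb
  refine ⟨max (C' true) (C' false), lt_of_lt_of_le (hC' true) (le_max_left _ _), ?_⟩
  intro b
  refine ⟨T b, fun p h0 h1 => (hT b p h0 h1).trans ?_⟩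
  apply mul_le_mul_of_nonneg_right _ (by positivity)
  cases b
  · exact le_max_right _ _
  · exact le_max_left _ _

end Pool.Agent.Helper859.AU
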