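import Pool.Agent.Y21.NE.Tree

/-!
Sum over the sets with at least three elements that carry a rooted tree.
-/

set_option autoImplicit false

namespace Pool.Agent.Helper859.AU

open Finset

theorem tree3 {E : Type*} [DecidableEq E] (V : Finset E) (kap : E → E → ℝ)
    (w : Finset E → ℝ) (M Z : ℝ) (hM0 : 0 < M) (h0 : ∀ y z, 0 ≤ kap y z)
    (hM : ∀ z ∈ V, ∑ y ∈ V, kap y z ≤ M) (hZ : 0 ≤ Z) (h1 : 3 * M * Z ≤ 1)
    (hw0 : ∀ S, 0 ≤ w S) {x : E} (hx : x ∈ V)
    (hw : ∀ S ⊆ V, x ∈ S → ∃ (par : E → E) (rk : E → ℕ),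
      (∀ y ∈ S, y ≠ x → par y ∈ S ∧ rk (par y) < rk y) ∧
      w S ≤ ∏ y ∈ S.erase x, kap y (par y)) :
    ∑ S ∈ V.powerset.filter (fun S => x ∈ S ∧ 3 ≤ S.card), Z ^ S.card * w S ≤
      27 * Z ^ 3 * M ^ 2 := by
  classical
  set Z0 : ℝ := 1 / (3 * M) with hZ0
  have hZ0p : 0 < Z0 := by positivity
  have h3 : 3 * M * Z0 ≤ 1 := by
    rw [hZ0]
    field_simp
    exact le_refl _
  have hrel : Z = Z0 * (3 * M * Z) := by
    rw [hZ0]
    field_simp
  have hr0 : 0 ≤ 3 * M * Z := by positivity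
  have key := Pool.Agent.Y21.NE.tree V kap (fun S y => if y = x then w S else 0) M Z0 h0 hM
    hZ0p.le h3 (by
      intro S hS y hy
      by_cases hyx : y = x
      · subst hyx
        obtain ⟨par, rk, h4, h5⟩ := hw S hS hy
        exact ⟨par, rk, h4, by simpa using h5⟩
      · refine ⟨fun _ => y, fun z => if z = y then 0 else 1, ?_, ?_⟩
        · intro z _ hz
          refine ⟨hy, ?_⟩
          simp [hz]
        · simp only [if_neg hyx]
          exact Finset.prod_nonneg fun z _ => h0 _ _) x hx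
  simp only [if_true] at key
  have hstep : ∀ S ∈ V.powerset.filter (fun S => x ∈ S ∧ 3 ≤ S.card),
      Z ^ S.card * w S ≤ (3 * M * Z) ^ 3 * (Z0 ^ S.card * w S) := by
    intro S hS
    have hc : 3 ≤ S.card := (Finset.mem_filter.1 hS).2.2
    have e1 : Z ^ S.card = Z0 ^ S.card * (3 * M * Z) ^ S.card := by
      rw [← mul_pow, ← hrel]
    have e2 : (3 * M * Z) ^ S.card ≤ (3 * M * Z) ^ 3 := pow_le_pow_of_le_one hr0 h1 hc
    rw [e1]
    have e3 : 0 ≤ Z0 ^ S.card * w S := mul_nonneg (pow_nonneg hZ0p.le _) (hw0 S)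
    nlinarith
  have hsum : ∑ S ∈ V.powerset.filter (fun S => x ∈ S ∧ 3 ≤ S.card), Z0 ^ S.card * w S ≤
      3 * Z0 := by
    refine le_trans (Finset.sum_le_sum_of_subset_of_nonneg ?_ ?_) key
    · intro S hS
      rw [Finset.mem_filter] at hS ⊢
      exact ⟨hS.1, hS.2.1⟩
    · intro S _ _
      exact mul_nonneg (pow_nonneg hZ0p.le _) (hw0 S)
  calc ∑ S ∈ V.powerset.filter (fun S => x ∈ S ∧ 3 ≤ S.card), Z ^ S.card * w S
      ≤ ∑ S ∈ V.powerset.filter (fun S => x ∈ S ∧ 3 ≤ S.card),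
          (3 * M * Z) ^ 3 * (Z0 ^ S.card * w S) := Finset.sum_le_sum hstep
    _ = (3 * M * Z) ^ 3 * ∑ S ∈ V.powerset.filter (fun S => x ∈ S ∧ 3 ≤ S.card),
          Z0 ^ S.card * w S := by rw [Finset.mul_sum]
    _ ≤ (3 * M * Z) ^ 3 * (3 * Z0) := mul_le_mul_of_nonneg_left hsum (by positivity)
    _ = 27 * Z ^ 3 * M ^ 2 := by
        rw [hZ0]
        field_simp
        ring

end Pool.Agent.Helper859.AU
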