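import Pool.Agent.Helper859_AU.Key
import Pool.Agent.Helper859_AU.Tree3
import Pool.Agent.Helper859_AU.Hyb

/-!
The sum over the sets of pivotal edges, and the Taylor expansion at `1 / 2`.
-/

set_option autoImplicit false

namespace Pool.Agent.Helper859.AU

open H974 H12S H389NS Finset Pool.Agent.Y554.SN Pool.Agent.Y554.NE
open Pool.Agent.Y239.NE.Dec (ds_tri mem_blk_pos okh)
open Pool.Agent.Y239.NE.Out Pool.Agent.Y968.NE

theorem Pv_e0 {b : Bool} {N : ℕ} {F : Set Edg} : ¬ Px b N (e0 b) F := by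
  rintro ⟨h1, h2⟩
  apply h2
  unfold XN at h1 ⊢
  refine h1.mono ?_
  rintro g ⟨⟨hg1, hg2⟩, hg3⟩
  exact ⟨⟨⟨hg1.resolve_left hg3, hg3⟩, hg2⟩, hg3⟩

theorem dm_box {m : ℕ} {S : Finset Edg} (hS : S ⊆ boxE m) : dm S ≤ 2 * m := by
  apply dm_le_of
  intro p hp q hq
  obtain ⟨p1, p2⟩ := pos_le (hS hp)
  obtain ⟨q1, q2⟩ := pos_le (hS hq)
  rw [abs_le] at p1 p2 q1 q2
  unfold pos at p1 p2 q1 q2
  unfold ds
  simp only at p1 p2 q1 q2
  omega

theorem conn_dm {S : Finset Edg} {t : ℕ} (h : dm S ≤ t) : conn t S := by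
  intro A hA h1 h2
  obtain ⟨x, hx⟩ := h1
  obtain ⟨y, hy⟩ := h2
  exact ⟨x, hx, y, hy, (ds_le_dm (hA hx) (mem_sdiff.1 hy).1).trans h⟩

/-- **The probability that all the edges of a set are pivotal.** -/
theorem piv_bound {C : ℝ} (hIn : In4 C) (hC : 0 < C) : ∃ a : ℝ, 1 ≤ a ∧
    ∀ (b : Bool) (N m : ℕ), 2 * m ≤ N → ∀ S : Finset Edg, S ⊆ boxE m → e0 b ∈ S →
    ∃ (par : Edg → Edg) (rk : Edg → ℕ),
      (∀ y ∈ S, y ≠ e0 b → par y ∈ S ∧ rk (par y) < rk y) ∧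
      PQ (1 / 2) (boxE N) (Qx b N S) ≤
        a ^ (4 * S.card) * (∏ y ∈ S.erase (e0 b), ps (ds y (par y))) * ps (dm S) := by
  classical
  obtain ⟨a, ha, hk⟩ := key hIn hC
  refine ⟨a, ha, ?_⟩
  intro b N m hmN S hS he
  have hex : ∃ t, conn t S := ⟨dm S, conn_dm le_rfl⟩
  have hcard : 1 ≤ S.card := Finset.card_pos.2 ⟨_, he⟩
  obtain ⟨t0, ht0⟩ : ∃ t0, t0 = Nat.find hex := ⟨_, rfl⟩
  have hct : conn t0 S := by rw [ht0]; exact Nat.find_spec hex
  have hmin : ∀ t, t < t0 → ¬ conn t S := fun t ht => by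
    rw [ht0] at ht
    exact Nat.find_min hex ht
  rcases t0 with _ | t
  · -- all at one position
    have h0 : ∀ y ∈ S, ds y (e0 b) = 0 := by
      by_contra hcon
      push Not at hcon
      obtain ⟨z, hz, hzx⟩ := hcon
      obtain ⟨u, hu, v, hv, huv⟩ := hct (S.filter (fun y => ds y (e0 b) = 0))
        (Finset.filter_subset _ _) ⟨_, Finset.mem_filter.2 ⟨he, ds_self _⟩⟩
        ⟨z, Finset.mem_sdiff.2 ⟨hz, fun h => hzx (Finset.mem_filter.1 h).2⟩⟩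
      rw [Finset.mem_filter] at hu
      rw [Finset.mem_sdiff, Finset.mem_filter] at hv
      exact hv.2 ⟨hv.1, ds_zero (Nat.le_zero.1 huv) hu.2⟩
    have hdm : dm S = 0 := by
      have : dm S ≤ 0 := by
        apply dm_le_of
        intro p hp q hq
        have h1 := ds_tri p (e0 b) q
        have h2 := h0 p hp
        have h3 := h0 q hq
        rw [ds_comm] at h3
        omega
      omega
    refine ⟨fun _ => e0 b, fun y => if y = e0 b then 0 else 1, ?_, ?_⟩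
    · intro y _ hy
      refine ⟨he, ?_⟩
      simp [hy]
    · have hprod : ∏ y ∈ S.erase (e0 b), ps (ds y ((fun _ => e0 b) y)) = 1 := by
        refine Finset.prod_eq_one fun y hy => ?_
        have h1 := h0 y (Finset.mem_of_mem_erase hy)
        simp only [h1]
        exact ps_zero
      rw [hprod, hdm, ps_zero, mul_one, mul_one]
      exact (Pr_le_one okh _ _).trans (one_le_pow₀ ha)
  · have ht2 : t ≤ 2 * m := by
      by_contra hcon
      push Not at hcon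
      exact hmin t (Nat.lt_succ_self t) (conn_dm ((dm_box hS).trans hcon.le))
    have hne : cmp t S (e0 b) ≠ S := by
      intro h
      apply hmin t (Nat.lt_succ_self t)
      rw [← h]
      exact cmp_conn he
    obtain ⟨Ev, par, rk, g1, g2, g3, g4⟩ := (hk b N m hmN t).2 S (e0 b) ht2 hS he hct hne
    refine ⟨par, rk, fun y hy hyx => ⟨(g3 y hy hyx).1, (g3 y hy hyx).2.1⟩, ?_⟩
    have h1 : PQ (1 / 2) (boxE N) (Qx b N S) ≤ PQ (1 / 2) (boxE N) Ev := by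
      apply Pr_mono okh
      intro F hF hQ
      refine g2 S (Finset.Subset.refl S) (fun h => absurd h (by decide)) he hS ?_ F hF hQ
      intro v _ w hw
      rw [sdiff_self] at hw
      exact absurd hw (Finset.notMem_empty w)
    refine h1.trans (g4.trans ?_)
    have hprod : 0 ≤ ∏ y ∈ S.erase (e0 b), ps (ds y (par y)) :=
      Finset.prod_nonneg (fun y _ => (ps_pos _).le)
    have h2 : a ^ (4 * S.card - 4) ≤ a ^ (4 * S.card) := pow_le_pow_right₀ ha (by omega)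
    have h3 : ps (max (t + 1) (dm S)) ≤ ps (dm S) := ps_anti (le_max_right _ _)
    have h4 : 0 ≤ a ^ (4 * S.card) := by positivity
    exact mul_le_mul (mul_le_mul_of_nonneg_right h2 hprod) h3 (ps_pos _).le
      (mul_nonneg h4 hprod)

theorem geo34 (J : ℕ) : ∑ j ∈ range (J + 1), ((2:ℝ) ^ j) ^ (3 / 4 : ℝ) ≤
    4 * ((2:ℝ) ^ J) ^ (3 / 4 : ℝ) := by
  have hρ : (4 / 3 : ℝ) ≤ (2 : ℝ) ^ (3 / 4 : ℝ) := by
    have h1 : (4 / 3 : ℝ) = ((4 / 3 : ℝ) ^ (4 : ℝ)) ^ (1 / 4 : ℝ) := by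
      rw [← Real.rpow_mul (by norm_num)]
      norm_num
    have h2 : (2 : ℝ) ^ (3 / 4 : ℝ) = ((2 : ℝ) ^ (3 : ℝ)) ^ (1 / 4 : ℝ) := by
      rw [← Real.rpow_mul (by norm_num)]
      norm_num
    rw [h1, h2]
    refine Real.rpow_le_rpow (by positivity) ?_ (by norm_num)
    norm_num
  induction J with
  | zero => simp
  | succ J ih =>
    rw [sum_range_succ]
    have h3 : ((2:ℝ) ^ (J + 1)) ^ (3 / 4 : ℝ) =
        ((2:ℝ) ^ J) ^ (3 / 4 : ℝ) * (2 : ℝ) ^ (3 / 4 : ℝ) := by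
      rw [← Real.mul_rpow (by positivity) (by norm_num), pow_succ]
    have h4 : 0 ≤ ((2:ℝ) ^ J) ^ (3 / 4 : ℝ) := by positivity
    rw [h3]
    nlinarith

theorem geo14 (J : ℕ) : ∑ j ∈ range (J + 1), ((2:ℝ) ^ j) ^ (1 / 4 : ℝ) ≤
    7 * ((2:ℝ) ^ J) ^ (1 / 4 : ℝ) := by
  have hρ : (7 / 6 : ℝ) ≤ (2 : ℝ) ^ (1 / 4 : ℝ) := by
    have h1 : (7 / 6 : ℝ) = ((7 / 6 : ℝ) ^ (4 : ℝ)) ^ (1 / 4 : ℝ) := by
      rw [← Real.rpow_mul (by norm_num)]
      norm_num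
    rw [h1]
    refine Real.rpow_le_rpow (by positivity) ?_ (by norm_num)
    norm_num
  induction J with
  | zero => simp
  | succ J ih =>
    rw [sum_range_succ]
    have h3 : ((2:ℝ) ^ (J + 1)) ^ (1 / 4 : ℝ) =
        ((2:ℝ) ^ J) ^ (1 / 4 : ℝ) * (2 : ℝ) ^ (1 / 4 : ℝ) := by
      rw [← Real.mul_rpow (by positivity) (by norm_num), pow_succ]
    have h4 : 0 ≤ ((2:ℝ) ^ J) ^ (1 / 4 : ℝ) := by positivity
    rw [h3]
    nlinarith

/-- The sum of the weights. -/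
theorem ps_sum (V : Finset Edg) (z : Edg) (J : ℕ) (hV : ∀ y ∈ V, ds y z ≤ 2 ^ J) :
    ∑ y ∈ V, ps (ds y z) ≤ 200 * ((2:ℝ) ^ J) ^ (3 / 4 : ℝ) := by
  classical
  have hmaps : ∀ y ∈ V, Nat.log 2 (max 1 (ds y z)) ∈ range (J + 1) := by
    intro y hy
    rw [mem_range, Nat.lt_succ_iff]
    have h1 : max 1 (ds y z) ≤ 2 ^ J := max_le Nat.one_le_two_pow (hV y hy)
    calc Nat.log 2 (max 1 (ds y z)) ≤ Nat.log 2 (2 ^ J) := Nat.log_mono_right h1
      _ = J := Nat.log_pow (by norm_num) J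
  rw [← sum_fiberwise_of_maps_to hmaps]
  have hone : ∀ j ∈ range (J + 1), ∑ y ∈ V.filter (fun y => Nat.log 2 (max 1 (ds y z)) = j),
      ps (ds y z) ≤ 50 * ((2:ℝ) ^ j) ^ (3 / 4 : ℝ) := by
    intro j _
    have hG : ∀ y ∈ V.filter (fun y => Nat.log 2 (max 1 (ds y z)) = j),
        2 ^ j ≤ max 1 (ds y z) ∧ ds y z < 2 ^ (j + 1) := by
      intro y hy
      rw [mem_filter] at hy
      obtain ⟨_, h3⟩ := hy
      have h4 : max 1 (ds y z) < 2 ^ (j + 1) := by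
        rw [← h3]
        exact Nat.lt_pow_succ_log_self (by norm_num) _
      have h5 : 2 ^ j ≤ max 1 (ds y z) := by
        rw [← h3]
        exact Nat.pow_log_le_self 2 (by omega)
      exact ⟨h5, lt_of_le_of_lt (le_max_right _ _) h4⟩
    have hcard : ((V.filter (fun y => Nat.log 2 (max 1 (ds y z)) = j)).card : ℝ) ≤
        50 * ((2:ℝ) ^ j) ^ 2 := by
      have hsub : V.filter (fun y => Nat.log 2 (max 1 (ds y z)) = j) ⊆
          Icc (z.1 - 2 ^ (j + 1)) (z.1 + 2 ^ (j + 1)) ×ˢ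
            (Icc (z.2.1 - 2 ^ (j + 1)) (z.2.1 + 2 ^ (j + 1)) ×ˢ (univ : Finset Bool)) := by
        intro y hy
        have h1 := (hG y hy).2
        have h8 : (y.1 - z.1).natAbs ≤ ds y z := le_max_left _ _
        have h9 : (y.2.1 - z.2.1).natAbs ≤ ds y z := le_max_right _ _
        have h10 : (((2 ^ (j + 1) : ℕ)) : ℤ) = 2 ^ (j + 1) := by push_cast; ring
        rw [mem_product, mem_product, mem_Icc, mem_Icc]
        refine ⟨?_, ?_, mem_univ _⟩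
        · rw [← h10]; omega
        · rw [← h10]; omega
      have h1 := card_le_card hsub
      rw [card_product, card_product, Int.card_Icc, Int.card_Icc, card_univ,
        Fintype.card_bool] at h1
      have h10 : (((2 ^ (j + 1) : ℕ)) : ℤ) = 2 ^ (j + 1) := by push_cast; ring
      have e1 : (z.1 + 2 ^ (j + 1) + 1 - (z.1 - 2 ^ (j + 1)) : ℤ).toNat = 2 * 2 ^ (j + 1) + 1 := by
        rw [← h10]; omega
      have e2 : (z.2.1 + 2 ^ (j + 1) + 1 - (z.2.1 - 2 ^ (j + 1)) : ℤ).toNat =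
          2 * 2 ^ (j + 1) + 1 := by
        rw [← h10]; omega
      rw [e1, e2] at h1
      have h2 : 1 ≤ 2 ^ j := Nat.one_le_two_pow
      have h3 : 2 ^ (j + 1) = 2 * 2 ^ j := by ring
      rw [h3] at h1
      have h4 : (V.filter (fun y => Nat.log 2 (max 1 (ds y z)) = j)).card ≤ 50 * (2 ^ j) ^ 2 := by
        nlinarith
      exact_mod_cast h4
    have hps : ∀ y ∈ V.filter (fun y => Nat.log 2 (max 1 (ds y z)) = j),
        ps (ds y z) ≤ ((2:ℝ) ^ j) ^ (-(5 / 4) : ℝ) := by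
      intro y hy
      unfold ps
      apply Real.rpow_le_rpow_of_nonpos (by positivity) _ (by norm_num)
      have := (hG y hy).1
      exact_mod_cast this
    have hp : (0:ℝ) < (2:ℝ) ^ j := by positivity
    calc ∑ y ∈ V.filter (fun y => Nat.log 2 (max 1 (ds y z)) = j), ps (ds y z)
        ≤ ∑ _y ∈ V.filter (fun y => Nat.log 2 (max 1 (ds y z)) = j),
            ((2:ℝ) ^ j) ^ (-(5 / 4) : ℝ) := sum_le_sum hps
      _ = ((V.filter (fun y => Nat.log 2 (max 1 (ds y z)) = j)).card : ℝ) *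
            ((2:ℝ) ^ j) ^ (-(5 / 4) : ℝ) := by rw [sum_const, nsmul_eq_mul]
      _ ≤ (50 * ((2:ℝ) ^ j) ^ 2) * ((2:ℝ) ^ j) ^ (-(5 / 4) : ℝ) :=
          mul_le_mul_of_nonneg_right hcard (by positivity)
      _ = 50 * ((2:ℝ) ^ j) ^ (3 / 4 : ℝ) := by
          rw [mul_assoc, ← Real.rpow_two, ← Real.rpow_add hp]
          norm_num
  refine (sum_le_sum hone).trans ?_
  rw [← mul_sum]
  have := geo34 J
  linarith

/-- The sum over the sets with at least three elements. -/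
theorem sum_Qx {C : ℝ} (hIn : In4 C) (hC : 0 < C) : ∃ K : ℝ, 1 ≤ K ∧
    ∀ (b : Bool) (N m : ℕ) (Y : ℝ), 1 ≤ m → 2 * m ≤ N → 0 ≤ Y → K * Y * (m:ℝ) ^ (3 / 4 : ℝ) ≤ 1 →
    ∑ S ∈ (boxE m).powerset.filter (fun S => e0 b ∈ S ∧ 3 ≤ S.card),
      Y ^ S.card * PQ (1 / 2) (boxE N) (Qx b N S) ≤ K * Y ^ 3 * (m:ℝ) ^ (1 / 4 : ℝ) := by
  classical
  obtain ⟨a, ha, hpb⟩ := piv_bound hIn hC
  have ha4 : 1 ≤ a ^ 4 := one_le_pow₀ ha
  have ha12 : 1 ≤ a ^ 12 := one_le_pow₀ ha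
  obtain ⟨K, hK1, hK2, hK3⟩ : ∃ K : ℝ, 1 ≤ K ∧ 4800 * a ^ 4 ≤ K ∧
      14 * (27 * (a ^ 12 * 800 ^ 2)) ≤ K :=
    ⟨max (4800 * a ^ 4) (14 * (27 * (a ^ 12 * 800 ^ 2))),
      le_trans (by linarith) (le_max_left _ _), le_max_left _ _, le_max_right _ _⟩
  refine ⟨K, hK1, ?_⟩
  intro b N m Y hm hmN hY hYm
  have hm0 : (0:ℝ) < m := by exact_mod_cast hm
  obtain ⟨J, hJ⟩ : ∃ J, J = Nat.log 2 (2 * m) := ⟨_, rfl⟩
  have h2J : 2 ^ J ≤ 2 * m := by rw [hJ]; exact Nat.pow_log_le_self 2 (by omega)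
  have h2Jr : (2:ℝ) ^ J ≤ 2 * m := by exact_mod_cast h2J
  obtain ⟨w, hw⟩ : ∃ w : Finset Edg → ℝ, w = fun S =>
    PQ (1 / 2) (boxE N) (Qx b N S) / (a ^ (4 * S.card) * ps (dm S)) := ⟨_, rfl⟩
  have hden : ∀ S : Finset Edg, 0 < a ^ (4 * S.card) * ps (dm S) := fun S =>
    mul_pos (by positivity) (ps_pos _)
  have hw0 : ∀ S, 0 ≤ w S := fun S => by
    rw [hw]
    exact div_nonneg (Pr_nonneg okh _ _) (hden S).le
  have hwP : ∀ S, PQ (1 / 2) (boxE N) (Qx b N S) = (a ^ 4) ^ S.card * (ps (dm S) * w S) := by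
    intro S
    rw [hw]
    have h1 : a ^ (4 * S.card) ≠ 0 := by positivity
    have h2 := (ps_pos (dm S)).ne'
    simp only
    rw [← pow_mul]
    field_simp
  have hmaps : ∀ S ∈ (boxE m).powerset.filter (fun S => e0 b ∈ S ∧ 3 ≤ S.card),
      Nat.log 2 (max 1 (dm S)) ∈ range (J + 1) := by
    intro S hS
    rw [mem_filter, mem_powerset] at hS
    rw [mem_range, Nat.lt_succ_iff, hJ]
    have := dm_box hS.1
    exact Nat.log_mono_right (by omega)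
  rw [← sum_fiberwise_of_maps_to hmaps]
  obtain ⟨Z, hZ⟩ : ∃ Z, Z = a ^ 4 * Y := ⟨_, rfl⟩
  have hZ0 : 0 ≤ Z := by rw [hZ]; positivity
  have hone : ∀ j ∈ range (J + 1), ∑ S ∈ ((boxE m).powerset.filter
      (fun S => e0 b ∈ S ∧ 3 ≤ S.card)).filter (fun S => Nat.log 2 (max 1 (dm S)) = j),
      Y ^ S.card * PQ (1 / 2) (boxE N) (Qx b N S) ≤
      27 * (Z ^ 3 * 800 ^ 2) * ((2:ℝ) ^ j) ^ (1 / 4 : ℝ) := by
    intro j hj
    rw [mem_range, Nat.lt_succ_iff] at hj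
    have hp : (0:ℝ) < (2:ℝ) ^ j := by positivity
    have hjm : (2:ℝ) ^ j ≤ 2 * m := (pow_le_pow_right₀ (by norm_num) hj).trans h2Jr
    obtain ⟨V, hV⟩ : ∃ V, V = (boxE m).filter (fun y => ds y (e0 b) ≤ 2 ^ (j + 1)) := ⟨_, rfl⟩
    obtain ⟨M, hM⟩ : ∃ M : ℝ, M = 800 * ((2:ℝ) ^ j) ^ (3 / 4 : ℝ) := ⟨_, rfl⟩
    have hM0 : 0 < M := by rw [hM]; positivity
    have hsumV : ∀ z ∈ V, ∑ y ∈ V, ps (ds y z) ≤ M := by
      intro z hz
      have h1 := ps_sum V z (j + 2) (by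
        intro y hy
        rw [hV, mem_filter] at hy hz
        have := ds_tri y (e0 b) z
        have h3 := hz.2
        rw [ds_comm] at h3
        have h4 : 2 ^ (j + 2) = 2 ^ (j + 1) + 2 ^ (j + 1) := by ring
        omega)
      refine h1.trans ?_
      have h5 : ((2:ℝ) ^ (j + 2)) ^ (3 / 4 : ℝ) ≤ 4 * ((2:ℝ) ^ j) ^ (3 / 4 : ℝ) := by
        rw [pow_add, mul_comm, Real.mul_rpow (by norm_num) hp.le]
        apply mul_le_mul_of_nonneg_right _ (by positivity)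
        calc ((2:ℝ) ^ 2) ^ (3 / 4 : ℝ) ≤ ((2:ℝ) ^ 2) ^ (1 : ℝ) :=
              Real.rpow_le_rpow_of_exponent_le (by norm_num) (by norm_num)
          _ = 4 := by norm_num
      rw [hM]
      linarith
    have h3M : 3 * M * Z ≤ 1 := by
      have h6 : ((2:ℝ) ^ j) ^ (3 / 4 : ℝ) ≤ 2 * (m:ℝ) ^ (3 / 4 : ℝ) := by
        calc ((2:ℝ) ^ j) ^ (3 / 4 : ℝ) ≤ (2 * (m:ℝ)) ^ (3 / 4 : ℝ) :=
              Real.rpow_le_rpow hp.le hjm (by norm_num)
          _ = (2:ℝ) ^ (3 / 4 : ℝ) * (m:ℝ) ^ (3 / 4 : ℝ) := Real.mul_rpow (by norm_num) hm0.le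
          _ ≤ 2 * (m:ℝ) ^ (3 / 4 : ℝ) := by
              apply mul_le_mul_of_nonneg_right _ (by positivity)
              calc (2:ℝ) ^ (3 / 4 : ℝ) ≤ (2:ℝ) ^ (1 : ℝ) :=
                    Real.rpow_le_rpow_of_exponent_le (by norm_num) (by norm_num)
                _ = 2 := by norm_num
      have h7 : 0 ≤ (m:ℝ) ^ (3 / 4 : ℝ) := by positivity
      calc 3 * M * Z = 2400 * a ^ 4 * Y * ((2:ℝ) ^ j) ^ (3 / 4 : ℝ) := by rw [hM, hZ]; ring
        _ ≤ 2400 * a ^ 4 * Y * (2 * (m:ℝ) ^ (3 / 4 : ℝ)) :=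
            mul_le_mul_of_nonneg_left h6 (by positivity)
        _ = (4800 * a ^ 4) * (Y * (m:ℝ) ^ (3 / 4 : ℝ)) := by ring
        _ ≤ K * (Y * (m:ℝ) ^ (3 / 4 : ℝ)) := mul_le_mul_of_nonneg_right hK2 (by positivity)
        _ ≤ 1 := by linarith
    have hsubV : ∀ S ∈ ((boxE m).powerset.filter
        (fun S => e0 b ∈ S ∧ 3 ≤ S.card)).filter (fun S => Nat.log 2 (max 1 (dm S)) = j),
        S ⊆ V ∧ e0 b ∈ S ∧ 3 ≤ S.card ∧ 2 ^ j ≤ max 1 (dm S) := by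
      intro S hS
      rw [mem_filter, mem_filter, mem_powerset] at hS
      obtain ⟨⟨h1, h2, h3⟩, h4⟩ := hS
      have h5 : max 1 (dm S) < 2 ^ (j + 1) := by
        rw [← h4]
        exact Nat.lt_pow_succ_log_self (by norm_num) _
      have h6 : 2 ^ j ≤ max 1 (dm S) := by
        rw [← h4]
        exact Nat.pow_log_le_self 2 (by omega)
      refine ⟨?_, h2, h3, h6⟩
      intro y hy
      rw [hV, mem_filter]
      refine ⟨h1 hy, ?_⟩
      have := ds_le_dm hy h2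
      omega
    have hVb : V ⊆ boxE m := by rw [hV]; exact filter_subset _ _
    have heV : e0 b ∈ V := by
      rw [hV, mem_filter]
      refine ⟨?_, by rw [ds_self]; exact Nat.zero_le _⟩
      unfold boxE e0
      cases b
      · rw [mem_RE_false]; omega
      · rw [mem_RE_true]; omega
    have ht := tree3 V (fun y z => ps (ds y z)) w M Z hM0 (fun _ _ => (ps_pos _).le) hsumV hZ0 h3M
      hw0 heV (by
        intro S hS heS
        obtain ⟨par, rk, h1, h2⟩ := hpb b N m hmN S (hS.trans hVb) heS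
        refine ⟨par, rk, h1, ?_⟩
        rw [hw]
        simp only
        rw [div_le_iff₀ (hden S)]
        linarith)
    calc ∑ S ∈ ((boxE m).powerset.filter
          (fun S => e0 b ∈ S ∧ 3 ≤ S.card)).filter (fun S => Nat.log 2 (max 1 (dm S)) = j),
          Y ^ S.card * PQ (1 / 2) (boxE N) (Qx b N S)
        ≤ ∑ S ∈ ((boxE m).powerset.filter
          (fun S => e0 b ∈ S ∧ 3 ≤ S.card)).filter (fun S => Nat.log 2 (max 1 (dm S)) = j),
          ((2:ℝ) ^ j) ^ (-(5 / 4) : ℝ) * (Z ^ S.card * w S) := by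
          refine sum_le_sum fun S hS => ?_
          obtain ⟨h1, h2, h3, h4⟩ := hsubV S hS
          have hps : ps (dm S) ≤ ((2:ℝ) ^ j) ^ (-(5 / 4) : ℝ) := by
            unfold ps
            apply Real.rpow_le_rpow_of_nonpos (by positivity) _ (by norm_num)
            exact_mod_cast h4
          rw [hwP S, hZ, mul_pow]
          have h5 : 0 ≤ Y ^ S.card * (a ^ 4) ^ S.card * w S :=
            mul_nonneg (by positivity) (hw0 S)
          calc Y ^ S.card * ((a ^ 4) ^ S.card * (ps (dm S) * w S))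
              = ps (dm S) * (Y ^ S.card * (a ^ 4) ^ S.card * w S) := by ring
            _ ≤ ((2:ℝ) ^ j) ^ (-(5 / 4) : ℝ) * (Y ^ S.card * (a ^ 4) ^ S.card * w S) :=
                mul_le_mul_of_nonneg_right hps h5
            _ = _ := by ring
      _ = ((2:ℝ) ^ j) ^ (-(5 / 4) : ℝ) * ∑ S ∈ ((boxE m).powerset.filter
          (fun S => e0 b ∈ S ∧ 3 ≤ S.card)).filter (fun S => Nat.log 2 (max 1 (dm S)) = j),
          Z ^ S.card * w S := by rw [mul_sum]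
      _ ≤ ((2:ℝ) ^ j) ^ (-(5 / 4) : ℝ) * ∑ S ∈ V.powerset.filter
          (fun S => e0 b ∈ S ∧ 3 ≤ S.card), Z ^ S.card * w S := by
          apply mul_le_mul_of_nonneg_left _ (by positivity)
          refine sum_le_sum_of_subset_of_nonneg ?_ fun S _ _ =>
            mul_nonneg (pow_nonneg hZ0 _) (hw0 S)
          intro S hS
          obtain ⟨h1, h2, h3, h4⟩ := hsubV S hS
          rw [mem_filter, mem_powerset]
          exact ⟨h1, h2, h3⟩
      _ ≤ ((2:ℝ) ^ j) ^ (-(5 / 4) : ℝ) * (27 * Z ^ 3 * M ^ 2) :=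
          mul_le_mul_of_nonneg_left ht (by positivity)
      _ = 27 * (Z ^ 3 * 800 ^ 2) * ((2:ℝ) ^ j) ^ (1 / 4 : ℝ) := by
          rw [hM, mul_pow, ← Real.rpow_natCast (((2:ℝ) ^ j) ^ (3 / 4 : ℝ)), ← Real.rpow_mul hp.le]
          have : ((2:ℝ) ^ j) ^ (1 / 4 : ℝ) = ((2:ℝ) ^ j) ^ (-(5 / 4) : ℝ) *
              ((2:ℝ) ^ j) ^ ((3 / 4 : ℝ) * ((2 : ℕ) : ℝ)) := by
            rw [← Real.rpow_add hp]
            congr 1
            push_cast
            ring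
          rw [this]
          ring
  refine (sum_le_sum hone).trans ?_
  rw [← mul_sum]
  have hg := geo14 J
  have h2m : ((2:ℝ) ^ J) ^ (1 / 4 : ℝ) ≤ 2 * (m:ℝ) ^ (1 / 4 : ℝ) := by
    calc ((2:ℝ) ^ J) ^ (1 / 4 : ℝ) ≤ (2 * (m:ℝ)) ^ (1 / 4 : ℝ) :=
          Real.rpow_le_rpow (by positivity) h2Jr (by norm_num)
      _ = (2:ℝ) ^ (1 / 4 : ℝ) * (m:ℝ) ^ (1 / 4 : ℝ) := Real.mul_rpow (by norm_num) hm0.le
      _ ≤ 2 * (m:ℝ) ^ (1 / 4 : ℝ) := by
          apply mul_le_mul_of_nonneg_right _ (by positivity)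
          calc (2:ℝ) ^ (1 / 4 : ℝ) ≤ (2:ℝ) ^ (1 : ℝ) :=
                Real.rpow_le_rpow_of_exponent_le (by norm_num) (by norm_num)
            _ = 2 := by norm_num
  have hm14 : 0 ≤ (m:ℝ) ^ (1 / 4 : ℝ) := by positivity
  calc 27 * (Z ^ 3 * 800 ^ 2) * ∑ j ∈ range (J + 1), ((2:ℝ) ^ j) ^ (1 / 4 : ℝ)
      ≤ 27 * (Z ^ 3 * 800 ^ 2) * (14 * (m:ℝ) ^ (1 / 4 : ℝ)) := by
        apply mul_le_mul_of_nonneg_left _ (by positivity)
        linarith
    _ = (14 * (27 * (a ^ 12 * 800 ^ 2))) * (Y ^ 3 * (m:ℝ) ^ (1 / 4 : ℝ)) := by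
        rw [hZ]
        ring
    _ ≤ K * (Y ^ 3 * (m:ℝ) ^ (1 / 4 : ℝ)) := mul_le_mul_of_nonneg_right hK3 (by positivity)
    _ = _ := by ring

end Pool.Agent.Helper859.AU
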