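import Pool.Agent.Helper859_AU.Sum
import Pool.Agent.Helper859_AU.Camp
import Pool.Agent.W424.NC.NearC
import Pool.Agent.H974R2.Hyb

/-!
Taylor expansion at `1 / 2` of the probability that the ends of an edge are connected off it.
-/

set_option autoImplicit false

namespace Pool.Agent.Helper859.AU

open H974 H12S H389NS Finset Pool.Agent.Y554.SN Pool.Agent.Y554.NE
open Pool.Agent.Y239.NE.Dec (ds_tri mem_blk_pos okh)
open Pool.Agent.Y239.NE.Out Pool.Agent.Y968.NE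

/-- The connection probability with the parameter `1 / 2 + z` in the box of radius `m`. -/
noncomputable def hX (b : Bool) (N m : ℕ) (z : ℝ) : ℝ :=
  Ex (hy (boxE m) z) (boxE N) (fun F => ind (XN b N (↑F : Set Edg)))

theorem taylorX {C : ℝ} (hIn : In4 C) (hC : 0 < C) : ∃ K : ℝ, 1 ≤ K ∧
    ∀ (b : Bool) (N m : ℕ), 1 ≤ m → 2 * m ≤ N → ∃ T : ℝ, ∀ z : ℝ,
      K * |z| * (m:ℝ) ^ (3 / 4 : ℝ) ≤ 1 →
      |hX b N m z - hX b N m 0 - z * T| ≤ K * |z| ^ 2 * (m:ℝ) ^ (1 / 4 : ℝ) := by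
  classical
  obtain ⟨K0, hK0, hsum⟩ := sum_Qx hIn hC
  refine ⟨4 * K0, by linarith, ?_⟩
  intro b N m hm hmN
  have hsub : boxE m ⊆ boxE N := boxE_mono (by omega)
  haveI : Nonempty Edg := ⟨e0 b⟩
  obtain ⟨T, hT⟩ := hyb_taylor (boxE N) (boxE m) hsub
    (fun F => ind (XN b N (↑F : Set Edg))) (fun e F => Px b N e (↑F : Set Edg))
    (fun F => by rw [abs_of_nonneg (ind_nonneg _)]; exact ind_le_one _)
    (fun e F h => by
      refine ind_congr ⟨fun h1 => ?_, fun h1 => ?_⟩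
      · by_contra h2
        refine h ⟨?_, ?_⟩
        · rwa [← Finset.coe_insert]
        · rwa [← Finset.coe_erase]
      · refine XN_mono ?_ h1
        exact_mod_cast (Finset.erase_subset e F).trans (Finset.subset_insert e F))
  refine ⟨T, fun z hz => ?_⟩
  have h0 : hX b N m 0 = Ex (fun _ => 1 / 2) (boxE N) (fun F => ind (XN b N (↑F : Set Edg))) := by
    unfold hX
    have e0 : hy (boxE m) 0 = (fun _ : Edg => (1 / 2 : ℝ)) := by
      funext e
      unfold hy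
      split_ifs <;> simp
    rw [e0]
  rw [h0]
  refine (hT z).trans ?_
  have hm0 : (0:ℝ) < m := by exact_mod_cast hm
  rcases eq_or_lt_of_le (abs_nonneg z) with hz0 | hz0
  · rw [← hz0]
    refine le_trans (Finset.sum_le_sum (g := fun _ => (0:ℝ)) ?_) (by simp)
    intro S hS
    have hc : 2 ≤ S.card := (Finset.mem_filter.1 hS).2
    rw [mul_zero, zero_pow (by omega), zero_mul]
  · obtain ⟨Y, hY⟩ : ∃ Y, Y = 2 * |z| := ⟨_, rfl⟩
    have hY0 : 0 < Y := by rw [hY]; positivity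
    rw [← hY]
    have hYm : K0 * Y * (m:ℝ) ^ (3 / 4 : ℝ) ≤ 1 := by
      refine le_trans ?_ hz
      rw [hY]
      have : 0 ≤ K0 * |z| * (m:ℝ) ^ (3 / 4 : ℝ) := by positivity
      nlinarith
    have hs := hsum b N m Y hm hmN hY0.le hYm
    -- the sets which contain the root do not contribute
    obtain ⟨A1, hA1⟩ : ∃ A1, A1 = ((boxE m).powerset.filter (fun S => 2 ≤ S.card)).filter
      (fun S => e0 b ∉ S) := ⟨_, rfl⟩
    obtain ⟨G, hG⟩ : ∃ G : Finset Edg → ℝ, G = fun S => Y ^ S.card *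
      PQ (1 / 2) (boxE N) (Qx b N S) := ⟨_, rfl⟩
    have hG0 : ∀ S, 0 ≤ G S := fun S => by
      rw [hG]
      exact mul_nonneg (by positivity) (Pr_nonneg okh _ _)
    have h1 : ∑ S ∈ (boxE m).powerset.filter (fun S => 2 ≤ S.card), Y ^ S.card *
        Pr (fun _ : Edg => (1 / 2 : ℝ)) (boxE N)
          (fun F => ∀ e ∈ S, ∃ T ⊆ S, Px b N e (↑((F \ S) ∪ T) : Set Edg)) =
        ∑ S ∈ A1, Y ^ S.card *
        Pr (fun _ : Edg => (1 / 2 : ℝ)) (boxE N)
          (fun F => ∀ e ∈ S, ∃ T ⊆ S, Px b N e (↑((F \ S) ∪ T) : Set Edg)) := by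
      rw [hA1]
      symm
      apply Finset.sum_filter_of_ne
      intro S _ hne he
      apply hne
      have : Pr (fun _ : Edg => (1 / 2 : ℝ)) (boxE N)
          (fun F => ∀ e ∈ S, ∃ T ⊆ S, Px b N e (↑((F \ S) ∪ T) : Set Edg)) = 0 := by
        unfold Pr
        rw [Ex_congr (g := fun _ => (0:ℝ))]
        · exact Ex_const _ _ _
        · intro F _
          apply ind_not_of
          intro hall
          obtain ⟨T, _, hP⟩ := hall (e0 b) he
          exact Pv_e0 hP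
      rw [this, mul_zero]
    have h2 : ∀ S ∈ A1, Y * (Y ^ S.card *
        Pr (fun _ : Edg => (1 / 2 : ℝ)) (boxE N)
          (fun F => ∀ e ∈ S, ∃ T ⊆ S, Px b N e (↑((F \ S) ∪ T) : Set Edg))) ≤
        G (insert (e0 b) S) := by
      intro S hS
      rw [hA1, mem_filter] at hS
      have heS := hS.2
      rw [hG]
      simp only
      rw [card_insert_of_notMem heS, pow_succ]
      have hPr : Pr (fun _ : Edg => (1 / 2 : ℝ)) (boxE N)
          (fun F => ∀ e ∈ S, ∃ T ⊆ S, Px b N e (↑((F \ S) ∪ T) : Set Edg)) ≤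
          PQ (1 / 2) (boxE N) (Qx b N (insert (e0 b) S)) := by
        apply Pr_mono okh
        intro F _ hall f hf hfe
        have hfS : f ∈ S := (mem_insert.1 hf).resolve_left hfe
        obtain ⟨T, hTS, hP⟩ := hall f hfS
        refine ⟨T, hTS.trans (subset_insert _ _), ?_⟩
        have hX : ∀ C C' : Set Edg, C \ {e0 b} = C' \ {e0 b} → XN b N C → XN b N C' := by
          intro C C' hCC hX
          unfold XN at hX ⊢
          have : (C' ∩ ↑(boxE N)) \ {e0 b} = (C ∩ ↑(boxE N)) \ {e0 b} := by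
            ext g
            have := Set.ext_iff.1 hCC g
            simp only [Set.mem_sdiff, Set.mem_inter_iff, Set.mem_singleton_iff] at this ⊢
            tauto
          rw [this]
          exact hX
        refine ⟨hX _ _ ?_ hP.1, fun hc => hP.2 (hX _ _ ?_ hc)⟩
        · ext g
          simp only [Set.mem_sdiff, Set.mem_insert_iff, Set.mem_singleton_iff, mem_coe, mem_union,
            mem_sdiff, mem_insert]
          tauto
        · ext g
          simp only [Set.mem_sdiff, Set.mem_singleton_iff, mem_coe, mem_union,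
            mem_sdiff, mem_insert]
          tauto
      have hYS : 0 ≤ Y ^ S.card * Y := by positivity
      have e1 := mul_le_mul_of_nonneg_left hPr hYS
      linarith
    have h3 : ∑ S ∈ A1, G (insert (e0 b) S) ≤ K0 * Y ^ 3 * (m:ℝ) ^ (1 / 4 : ℝ) := by
      refine le_trans ?_ hs
      have hinj : Set.InjOn (fun S : Finset Edg => insert (e0 b) S) (↑A1 : Set (Finset Edg)) := by
        intro S hS S' hS' hSS
        rw [mem_coe, hA1, mem_filter] at hS hS'
        have := congrArg (fun U : Finset Edg => U.erase (e0 b)) hSS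
        simp only [erase_insert hS.2, erase_insert hS'.2] at this
        exact this
      rw [← Finset.sum_image (f := G) (g := fun S : Finset Edg => insert (e0 b) S) hinj]
      have e1 : ∀ S, Y ^ S.card * PQ (1 / 2) (boxE N) (Qx b N S) = G S := fun S => by rw [hG]
      simp only [e1]
      refine sum_le_sum_of_subset_of_nonneg ?_ fun S _ _ => hG0 S
      intro S' hS'
      rw [mem_image] at hS'
      obtain ⟨S, hS, rfl⟩ := hS'
      rw [hA1, mem_filter, mem_filter, mem_powerset] at hS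
      rw [mem_filter, mem_powerset, card_insert_of_notMem hS.2]
      refine ⟨insert_subset ?_ hS.1.1, mem_insert_self _ _, by omega⟩
      unfold boxE e0
      cases b
      · rw [mem_RE_false]; omega
      · rw [mem_RE_true]; omega
    rw [h1]
    have h4 : Y * ∑ S ∈ A1, Y ^ S.card *
        Pr (fun _ : Edg => (1 / 2 : ℝ)) (boxE N)
          (fun F => ∀ e ∈ S, ∃ T ⊆ S, Px b N e (↑((F \ S) ∪ T) : Set Edg)) ≤
        Y * (K0 * Y ^ 2 * (m:ℝ) ^ (1 / 4 : ℝ)) := by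
      rw [mul_sum]
      refine (sum_le_sum h2).trans (h3.trans (le_of_eq ?_))
      ring
    refine (le_of_mul_le_mul_left h4 hY0).trans (le_of_eq ?_)
    rw [hY]
    ring

/-- A path stays in a rectangle or reaches its boundary. -/
theorem stay_or_exit {G : Set Edg} {a b c d : ℤ} {u v : Vtx} (hu : inR a b c d u)
    (h : Reach G u v) : Reach (G ∩ ↑(RE a b c d)) u v ∨
      ∃ w ∈ bdR a b c d, Reach (G ∩ ↑(RE a b c d)) u w := by
  have key : ∀ w, Reach G u w → (inR a b c d w ∧ Reach (G ∩ ↑(RE a b c d)) u w) ∨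
      ∃ w ∈ bdR a b c d, Reach (G ∩ ↑(RE a b c d)) u w := by
    intro w hw
    induction hw with
    | refl => exact Or.inl ⟨hu, Reach.refl _ _⟩
    | @tail y y' _ hs ih =>
      rcases ih with ⟨i1, i2⟩ | ih
      · obtain ⟨g, hg, hc⟩ := hs
        by_cases hgR : g ∈ RE a b c d
        · left
          obtain ⟨k1, k2⟩ := ends_RE hgR
          refine ⟨?_, i2.trans (Adj.reach ⟨g, ⟨hg, mem_coe.2 hgR⟩, hc⟩)⟩
          rcases hc with ⟨_, h2⟩ | ⟨h1, _⟩
          · rw [← h2]; exact k2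
          · rw [← h1]; exact k1
        · right
          refine ⟨y, ⟨i1, ?_⟩, i2⟩
          obtain ⟨x0, y0, _ | _⟩ := g
          · rw [mem_RE_false] at hgR
            simp only [src_mk, tgt_false] at hc
            unfold inR at i1
            rcases hc with ⟨h1, h2⟩ | ⟨h1, h2⟩
            · rw [← h1] at i1 ⊢; simp only at i1 ⊢; omega
            · rw [← h2] at i1 ⊢; simp only at i1 ⊢; omega
          · rw [mem_RE_true] at hgR
            simp only [src_mk, tgt_true] at hc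
            unfold inR at i1
            rcases hc with ⟨h1, h2⟩ | ⟨h1, h2⟩
            · rw [← h1] at i1 ⊢; simp only at i1 ⊢; omega
            · rw [← h2] at i1 ⊢; simp only at i1 ⊢; omega
      · exact Or.inr ih
  rcases key v h with h1 | h1
  · exact Or.inl h1.2
  · exact Or.inr h1

/-- A connection which is not realized in a box gives four arms. -/
theorem XN_split {b : Bool} {N m : ℕ} (hm : 1 ≤ m) (hmN : m ≤ N) {F : Set Edg}
    (h : XN b N F) : XN b m F ∨ A4 (-m) m (-m) m (e0 b) F := by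
  by_cases hX : XN b m F
  · exact Or.inl hX
  · right
    unfold XN at h hX
    have hsub : ((F ∩ ↑(boxE N)) \ {e0 b}) ∩ ↑(RE (-(m:ℤ)) m (-(m:ℤ)) m) ⊆
        (F ∩ ↑(RE (-(m:ℤ)) m (-(m:ℤ)) m)) \ {e0 b} := by
      rintro g ⟨⟨⟨h1, _⟩, h3⟩, h4⟩
      exact ⟨⟨h1, h4⟩, h3⟩
    have hs : inR (-(m:ℤ)) m (-(m:ℤ)) m (src (e0 b)) := by
      unfold inR e0
      simp only [src_mk]
      omega
    have ht : inR (-(m:ℤ)) m (-(m:ℤ)) m (tgt (e0 b)) := by
      unfold inR e0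
      cases b
      · simp only [tgt_false]; omega
      · simp only [tgt_true]; omega
    have hX' : ¬ Reach ((F ∩ ↑(RE (-(m:ℤ)) m (-(m:ℤ)) m)) \ {e0 b}) (src (e0 b))
        (tgt (e0 b)) := hX
    refine ⟨?_, ?_, hX'⟩
    · rcases stay_or_exit hs h with h1 | ⟨w, h1, h2⟩
      · exact absurd (h1.mono hsub) hX'
      · exact ⟨w, h1, h2.mono hsub⟩
    · rcases stay_or_exit ht h.symm with h1 | ⟨w, h1, h2⟩
      · exact absurd ((h1.mono hsub).symm) hX'
      · exact ⟨w, h1, h2.mono hsub⟩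

theorem XN_box {b : Bool} {N m : ℕ} (hmN : m ≤ N) {F : Set Edg} (h : XN b m F) : XN b N F := by
  unfold XN at h ⊢
  refine h.mono ?_
  rintro g ⟨⟨h1, h2⟩, h3⟩
  exact ⟨⟨h1, by exact_mod_cast boxE_mono hmN (mem_coe.1 h2)⟩, h3⟩

theorem XN_loc {b : Bool} {m : ℕ} {F : Finset Edg} :
    XN b m (↑F : Set Edg) ↔ XN b m (↑(F ∩ boxE m) : Set Edg) := by
  unfold XN
  rw [coe_inter, Set.inter_assoc, Set.inter_self]

theorem A4_loc {b : Bool} {m : ℕ} {F : Finset Edg} :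
    A4 (-m) m (-m) m (e0 b) (↑F : Set Edg) ↔
      A4 (-m) m (-m) m (e0 b) (↑(F ∩ boxE m) : Set Edg) := by
  unfold A4 boxE
  rw [coe_inter, Set.inter_assoc, Set.inter_self]

/-- Truncation: connection probabilities and four arms. -/
theorem trunc {b : Bool} {N m : ℕ} (hm : 1 ≤ m) (hmN : m ≤ N) {P : Edg → ℝ} (ok : Ok P) {q : ℝ}
    (hP : ∀ e ∈ boxE m, P e = q) :
    PQ q (boxE m) (fun F => XN b m (↑F : Set Edg)) ≤
        Pr P (boxE N) (fun F => XN b N (↑F : Set Edg)) ∧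
      Pr P (boxE N) (fun F => XN b N (↑F : Set Edg)) ≤
        PQ q (boxE m) (fun F => XN b m (↑F : Set Edg)) +
        PQ q (boxE m) (fun F => A4 (-m) m (-m) m (e0 b) (↑F : Set Edg)) := by
  have hsub : boxE m ⊆ boxE N := boxE_mono hmN
  have e1 : Pr P (boxE N) (fun F => XN b m (↑F : Set Edg)) =
      PQ q (boxE m) (fun F => XN b m (↑F : Set Edg)) := by
    rw [Pr_local hsub (A := fun F : Finset Edg => XN b m (↑F : Set Edg)) (fun F _ => XN_loc)]
    exact Pr_congr_param hP _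
  have e2 : Pr P (boxE N) (fun F => A4 (-m) m (-m) m (e0 b) (↑F : Set Edg)) =
      PQ q (boxE m) (fun F => A4 (-m) m (-m) m (e0 b) (↑F : Set Edg)) := by
    rw [Pr_local hsub (A := fun F : Finset Edg => A4 (-m) m (-m) m (e0 b) (↑F : Set Edg))
      (fun F _ => A4_loc)]
    exact Pr_congr_param hP _
  rw [← e1, ← e2]
  refine ⟨Pr_mono ok fun F _ h => XN_box hmN h, ?_⟩
  exact (Pr_mono ok fun F _ h => XN_split hm hmN h).trans (Pr_or_le ok _ _ _)

/-- The connection probability at the parameter `p`. -/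
noncomputable def hN (b : Bool) (N : ℕ) (p : ℝ) : ℝ :=
  PQ p (boxE N) (fun F => XN b N (↑F : Set Edg))

/-- **Affine approximation of the connection probability, at all scales.** -/
theorem affine : ∃ c C : ℝ, 0 < c ∧ c ≤ 1 / 4 ∧ 0 < C ∧ ∀ (b : Bool) (m N : ℕ), 1 ≤ m →
    2 * m ≤ N → ∃ T : ℝ, ∀ z : ℝ, |z| ≤ c * (m:ℝ) ^ (-(3 / 4) : ℝ) →
      |hN b N (1 / 2 + z) - hN b N (1 / 2) - z * T| ≤ C * (m:ℝ) ^ (-(5 / 4) : ℝ) := by
  obtain ⟨C4, hC4, hIn⟩ := A4a_sharp
  obtain ⟨K, hK, htay⟩ := taylorX hIn hC4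
  obtain ⟨κ, B, hκ, hB, hst⟩ := Pool.Agent.W424.NC.stabU
  obtain ⟨c, hc0, hc1, hc2, hc3⟩ : ∃ c : ℝ, 0 < c ∧ c ≤ 1 / K ∧ c ≤ 1 / B ∧ c ≤ 1 / 4 :=
    ⟨min (min (1 / K) (1 / B)) (1 / 4), by positivity,
      (min_le_left _ _).trans (min_le_left _ _), (min_le_left _ _).trans (min_le_right _ _),
      min_le_right _ _⟩
  refine ⟨c, K + 4 * B, hc0, hc3, by linarith, ?_⟩
  intro b m N hm hmN
  obtain ⟨T, hT⟩ := htay b N m hm hmN
  refine ⟨T, fun z hz => ?_⟩
  have hm0 : (0:ℝ) < m := by exact_mod_cast hm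
  have hm1 : (1:ℝ) ≤ m := by exact_mod_cast hm
  have hm34 : 0 < (m:ℝ) ^ (-(3 / 4) : ℝ) := by positivity
  have hm34' : (m:ℝ) ^ (-(3 / 4) : ℝ) ≤ 1 := Real.rpow_le_one_of_one_le_of_nonpos hm1 (by norm_num)
  have hprod : (m:ℝ) ^ (-(3 / 4) : ℝ) * (m:ℝ) ^ (3 / 4 : ℝ) = 1 := by
    rw [← Real.rpow_add hm0]
    norm_num
  have hzK : |z| ≤ (m:ℝ) ^ (-(3 / 4) : ℝ) / K := by
    refine hz.trans ?_
    calc c * (m:ℝ) ^ (-(3 / 4) : ℝ) ≤ 1 / K * (m:ℝ) ^ (-(3 / 4) : ℝ) :=
          mul_le_mul_of_nonneg_right hc1 hm34.le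
      _ = _ := by ring
  have hzB : |z| ≤ (m:ℝ) ^ (-(3 / 4) : ℝ) / B := by
    refine hz.trans ?_
    calc c * (m:ℝ) ^ (-(3 / 4) : ℝ) ≤ 1 / B * (m:ℝ) ^ (-(3 / 4) : ℝ) :=
          mul_le_mul_of_nonneg_right hc2 hm34.le
      _ = _ := by ring
  have hz4 : |z| ≤ 1 / 4 := by
    refine hz.trans ?_
    calc c * (m:ℝ) ^ (-(3 / 4) : ℝ) ≤ 1 / 4 * 1 := mul_le_mul hc3 hm34' hm34.le (by norm_num)
      _ = 1 / 4 := by ring
  rw [abs_le] at hz4
  -- the Taylor expansion of the hybrid probability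
  have hKz : K * |z| * (m:ℝ) ^ (3 / 4 : ℝ) ≤ 1 := by
    rw [le_div_iff₀ (by linarith)] at hzK
    calc K * |z| * (m:ℝ) ^ (3 / 4 : ℝ) = (|z| * K) * (m:ℝ) ^ (3 / 4 : ℝ) := by ring
      _ ≤ (m:ℝ) ^ (-(3 / 4) : ℝ) * (m:ℝ) ^ (3 / 4 : ℝ) :=
          mul_le_mul_of_nonneg_right hzK (by positivity)
      _ = 1 := hprod
  have t1 := hT z hKz
  have t2 : K * |z| ^ 2 * (m:ℝ) ^ (1 / 4 : ℝ) ≤ K * (m:ℝ) ^ (-(5 / 4) : ℝ) := by
    have hz1 : |z| ≤ (m:ℝ) ^ (-(3 / 4) : ℝ) := hzK.trans (div_le_self hm34.le hK)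
    have hz2 : |z| ^ 2 ≤ ((m:ℝ) ^ (-(3 / 4) : ℝ)) ^ 2 := pow_le_pow_left₀ (abs_nonneg z) hz1 2
    have e : (m:ℝ) ^ (-(5 / 4) : ℝ) = ((m:ℝ) ^ (-(3 / 4) : ℝ)) ^ 2 * (m:ℝ) ^ (1 / 4 : ℝ) := by
      rw [← Real.rpow_natCast ((m:ℝ) ^ (-(3 / 4) : ℝ)), ← Real.rpow_mul hm0.le,
        ← Real.rpow_add hm0]
      norm_num
    rw [e, mul_assoc]
    apply mul_le_mul_of_nonneg_left _ (by linarith)
    exact mul_le_mul_of_nonneg_right hz2 (by positivity)
  -- truncation
  have four : ∀ q : ℝ, |q - 1 / 2| ≤ (m:ℝ) ^ (-(3 / 4) : ℝ) / B → 0 ≤ q → q ≤ 1 →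
      PQ q (boxE m) (fun F => A4 (-m) m (-m) m (e0 b) (↑F : Set Edg)) ≤
        B * (m:ℝ) ^ (-(5 / 4) : ℝ) := by
    intro q hq h0 h1
    obtain ⟨_, h4⟩ := hst m hm q (by
      have : (-(3 / 4) : ℝ) = -(3 / 4 : ℝ) := by norm_num
      rw [← this]; exact hq)
    have h5 := h4 m le_rfl
    rw [add_zero] at h5
    have h6 : ((m:ℝ) + 1) ^ (-(5 / 4) : ℝ) ≤ (m:ℝ) ^ (-(5 / 4) : ℝ) :=
      Real.rpow_le_rpow_of_nonpos hm0 (by linarith) (by norm_num)
    have h7 : PQ q (boxE m) (fun F => A4 (-m) m (-m) m (e0 b) (↑F : Set Edg)) ≤ a4 q m := by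
      have ok : Ok (fun _ : Edg => q) := fun _ => ⟨h0, h1⟩
      unfold a4
      cases b
      · have := Pr_nonneg ok (boxE m) (fun F => A4 (-m) m (-m) m (e0 true) (↑F : Set Edg))
        linarith
      · have := Pr_nonneg ok (boxE m) (fun F => A4 (-m) m (-m) m (e0 false) (↑F : Set Edg))
        linarith
    have h8 : B * ((m:ℝ) + 1) ^ (-(5 / 4) : ℝ) ≤ B * (m:ℝ) ^ (-(5 / 4) : ℝ) :=
      mul_le_mul_of_nonneg_left h6 (by linarith)
    linarith
  have okz : ∀ q : ℝ, 0 ≤ q → q ≤ 1 → Ok (fun _ : Edg => q) := fun q h0 h1 _ => ⟨h0, h1⟩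
  have okh2 : Ok (hy (boxE m) z) := by
    intro e
    unfold hy
    split_ifs
    · constructor <;> linarith [hz4.1, hz4.2]
    · norm_num
  have okh0 : Ok (hy (boxE m) (0:ℝ)) := by
    intro e
    unfold hy
    split_ifs <;> norm_num
  have a1 := trunc (b := b) hm (by omega : m ≤ N) (okz (1 / 2 + z) (by linarith [hz4.1])
    (by linarith [hz4.2])) (q := 1 / 2 + z) (fun _ _ => rfl)
  have a2 := trunc (b := b) hm (by omega : m ≤ N) okh2 (q := 1 / 2 + z)
    (fun e he => by unfold hy; rw [if_pos he])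
  have a3 := trunc (b := b) hm (by omega : m ≤ N) (okz (1 / 2) (by norm_num)
    (by norm_num)) (q := 1 / 2) (fun _ _ => rfl)
  have a4' := trunc (b := b) hm (by omega : m ≤ N) okh0 (q := 1 / 2)
    (fun e he => by unfold hy; rw [if_pos he, add_zero])
  have f1 := four (1 / 2 + z) (by rw [add_sub_cancel_left]; exact hzB) (by linarith [hz4.1])
    (by linarith [hz4.2])
  have f2 := four (1 / 2) (by
    rw [sub_self, abs_zero]
    have : 0 < B := by linarith
    positivity) (by norm_num) (by norm_num)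
  have g1 : |hN b N (1 / 2 + z) - hX b N m z| ≤ B * (m:ℝ) ^ (-(5 / 4) : ℝ) := by
    have i1 : hX b N m z = Pr (hy (boxE m) z) (boxE N) (fun F => XN b N (↑F : Set Edg)) := rfl
    rw [i1]
    unfold hN PQ
    unfold PQ at a1 a2 f1
    rw [abs_le]
    constructor <;> linarith [a1.1, a1.2, a2.1, a2.2]
  have g2 : |hN b N (1 / 2) - hX b N m 0| ≤ B * (m:ℝ) ^ (-(5 / 4) : ℝ) := by
    have i1 : hX b N m 0 = Pr (hy (boxE m) 0) (boxE N) (fun F => XN b N (↑F : Set Edg)) := rfl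
    rw [i1]
    unfold hN PQ
    unfold PQ at a3 a4' f2
    rw [abs_le]
    constructor <;> linarith [a3.1, a3.2, a4'.1, a4'.2]
  have hB0 : 0 ≤ B * (m:ℝ) ^ (-(5 / 4) : ℝ) := by
    have : 0 < B := by linarith
    positivity
  rw [abs_le] at t1 g1 g2 ⊢
  constructor <;> nlinarith [t1.1, t1.2, g1.1, g1.2, g2.1, g2.2]

end Pool.Agent.Helper859.AU
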